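import Pool.Agent.Lib.MP_87d664_al.LP.SpecB

/-! # Module BOB: `β = -2`, `d` odd, backward -/

set_option autoImplicit false

namespace Pool.Agent.Lib.MP87d664.LP

theorem specBOB (hREC : SpecREC) (hCLB : SpecCLB) (hBOV : SpecBOV) : SpecBOB := by
  intro K _ d th ths vp ph a e u h2 hd hodd hbet hinj hrec hP hinjt hnz
  obtain ⟨α, B, C, hths⟩ := hCLB K d ths h2 (by omega) hrec
  have hd1 : ths 0 ≠ ths d := hinj 0 d (by omega) le_rfl (by omega)
  have hvs := hBOV K d ths h2 hd hodd hrec hd1
  have hdd : ((-1 : K)) ^ d = -1 := hodd.neg_one_pow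
  have hse : ∀ i, i ≤ d → Even i → ths i = α + (B + C * (i : K)) := by
    intro i hi he; rw [hths i hi, he.neg_one_pow, one_mul]
  have hso : ∀ i, i ≤ d → Odd i → ths i = α - (B + C * (i : K)) := by
    intro i hi ho; rw [hths i hi, ho.neg_one_pow]; ring
  have th0 : ths 0 = α + B := by
    rw [hse 0 (by omega) (by decide)]; push_cast; ring
  have th1 : ths 1 = α - (B + C) := by
    rw [hso 1 (by omega) (by decide)]; push_cast; ring
  have thd : ths d = α - (B + C * (d : K)) := hso d le_rfl hodd
  obtain ⟨b, hb⟩ : ∃ b : K, 2 * b = a - 2 * e * C * (d : K) :=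
    ⟨(a - 2 * e * C * (d : K)) / 2, by field_simp⟩
  -- the values of th
  have ht : ∀ j, j ≤ d → th j =
      th d + (-1) ^ j * (b + 2 * e * C * (j : K)) + (b + 2 * e * C * (d : K)) := by
    intro j hj
    rcases Nat.lt_or_ge j d with hlt | hge
    swap
    · have : j = d := by omega
      subst this
      rw [hdd]; ring
    have hE := hP.th_eq (j + 1) (by omega) (by omega)
    rw [Nat.add_sub_cancel] at hE
    have hne : ths (j + 1) - ths 0 ≠ 0 :=
      sub_ne_zero.mpr (hinj (j + 1) 0 (by omega) (by omega) (by omega))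
    rcases Nat.even_or_odd j with he | ho
    · -- j even, i = j + 1 odd
      have ho' : Odd (j + 1) := he.add_one
      rw [hvs (j + 1) (by omega), if_neg (Nat.not_even_iff_odd.mpr ho')] at hE
      have p := (hP.od (j + 1) (by omega) (by omega) ho').1
      have q := (hP.od 1 le_rfl (by omega) (by decide)).2
      rw [Nat.add_sub_cancel] at p
      rw [Nat.sub_self] at q
      have s1 : ths (j + 1) = α - (B + C * ((j : K) + 1)) := by
        rw [hso (j + 1) (by omega) ho']; push_cast; ring
      have s2 : ths j = α + (B + C * (j : K)) := hse j hj he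
      rw [s1, s2] at p
      rw [th0, th1] at q
      rw [hE, he.neg_one_pow]
      have key : (vp (j + 1) - ph 1 * 1) / (ths (j + 1) - ths 0) =
          (b + 2 * e * C * (j : K)) + (b + 2 * e * C * (d : K)) := by
        rw [div_eq_iff hne, s1, th0]
        apply mul_left_cancel₀ h2
        linear_combination p - q + (2 * (2 * B + C * ((j : K) + 1))) * hb
      rw [key]; ring
    · -- j odd, i = j + 1 even
      have he' : Even (j + 1) := ho.add_one
      rw [hvs (j + 1) (by omega), if_pos he'] at hE
      have p := (hP.ev (j + 1) (by omega) (by omega) he').1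
      rw [Nat.add_sub_cancel] at p
      have s2 : ths j = α - (B + C * (j : K)) := hso j hj ho
      rw [hE, ho.neg_one_pow]
      have key : (vp (j + 1) - ph 1 * 0) / (ths (j + 1) - ths 0) =
          -(b + 2 * e * C * (j : K)) + (b + 2 * e * C * (d : K)) := by
        rw [div_eq_iff hne, p, s2, thd]
        ring
      rw [key]; ring
  have t0 : th 0 = th d + b + (b + 2 * e * C * (d : K)) := by
    rw [ht 0 (by omega)]; push_cast; ring
  have hrect : Rec (-2) d th := by
    intro i hi
    rw [ht i (by omega), ht (i + 3) hi, ht (i + 1) (by omega), ht (i + 2) (by omega)]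
    push_cast
    ring
  have hvt := hBOV K d th h2 hd hodd hrect (hinjt 0 d (by omega) le_rfl (by omega))
  rw [hREC K d th ths vp ph hd, hbet]
  refine ⟨hinjt, hinj, hnz, ?_, ?_, hrect, hrec⟩
  · intro i h1 hi
    have hE := hP.th_eq i h1 hi
    have hne : ths i - ths 0 ≠ 0 := sub_ne_zero.mpr (hinj i 0 hi (by omega) (by omega))
    rw [hvt i hi, ← hvs i hi, hE]
    field_simp
    ring
  · intro i h1 hi
    have hcast : ((d - i + 1 : ℕ) : K) = (d : K) - (i : K) + 1 := by
      push_cast [Nat.cast_sub hi]; ring
    rcases Nat.even_or_odd i with he | ho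
    · have p := (hP.ev i h1 hi he).2
      have hev : Even (d - i + 1) := by
        have : Odd (d - i) := Nat.Odd.sub_even hi hodd he
        exact this.add_one
      have hoi : Odd (i - 1) := by
        rcases he with ⟨r, hr⟩
        exact ⟨r - 1, by omega⟩
      have c1 : ((i - 1 : ℕ) : K) = (i : K) - 1 := by push_cast [Nat.cast_sub h1]; ring
      rw [hvt i hi, if_pos he, p, ht (d - i + 1) (by omega), hev.neg_one_pow, t0, hcast,
        hso (i - 1) (by omega) hoi, thd, c1]
      ring
    · have p := (hP.od i h1 hi ho).2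
      have q := (hP.od 1 le_rfl (by omega) (by decide)).1
      rw [Nat.sub_self, th0, th1] at q
      have hod : Odd (d - i + 1) := by
        have : Even (d - i) := Nat.Odd.sub_odd hodd ho
        exact this.add_one
      have hei : Even (i - 1) := by
        rcases ho with ⟨r, hr⟩
        exact ⟨r, by omega⟩
      have c1 : ((i - 1 : ℕ) : K) = (i : K) - 1 := by push_cast [Nat.cast_sub h1]; ring
      rw [hso i hi ho, hse (i - 1) (by omega) hei, c1] at p
      rw [hvt i hi, if_neg (Nat.not_even_iff_odd.mpr ho), ht (d - i + 1) (by omega),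
        hod.neg_one_pow, t0, hcast, hso i hi ho, th0]
      apply mul_left_cancel₀ h2
      linear_combination p - q - (2 * (2 * B + C * (i : K))) * hb

end Pool.Agent.Lib.MP87d664.LP
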