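import Pool.Agent.Lib.MP_87d664_al.LP.SpecB

/-!
# BOF: `β = -2`, `d` odd, forward
-/

set_option autoImplicit false

namespace Pool.Agent.Lib.MP87d664.LP

namespace BOFM

/-- the closed form, by parity -/
lemma par {K : Type} [Field K] {d : ℕ} {t : ℕ → K} {α b c : K}
    (h : ∀ i, i ≤ d → t i = α + (-1) ^ i * (b + c * (i : K))) :
    (∀ i, i ≤ d → Even i → t i = α + (b + c * (i : K))) ∧
    (∀ i, i ≤ d → Odd i → t i = α - (b + c * (i : K))) := by
  refine ⟨fun i hi he => ?_, fun i hi ho => ?_⟩
  · rw [h i hi, he.neg_one_pow, one_mul]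
  · rw [h i hi, ho.neg_one_pow]
    ring

end BOFM

open BOFM in
/-- BOF -/
theorem specBOF (hREC : SpecREC) (hCLB : SpecCLB) (hBOV : SpecBOV) : SpecBOF := by
  intro K _ d th ths vp ph h2 hd hodd hbet hP
  obtain ⟨hith, hiths, -, pa3, pa4, hrt, hrs⟩ := (hREC K d th ths vp ph hd).mp hP
  rw [hbet] at hrt hrs
  have hth0 : th 0 ≠ th d := hith 0 d (by omega) le_rfl (by omega)
  have hths0 : ths 0 ≠ ths d := hiths 0 d (by omega) le_rfl (by omega)
  have vth := hBOV K d th h2 hd hodd hrt hth0
  have vths := hBOV K d ths h2 hd hodd hrs hths0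
  obtain ⟨α', B, C, hs⟩ := hCLB K d ths h2 (by omega) hrs
  obtain ⟨α, b, c, ht⟩ := hCLB K d th h2 (by omega) hrt
  obtain ⟨hse, hso⟩ := par hs
  obtain ⟨hte, hto⟩ := par ht
  have s0 := hse 0 (by omega) (by decide)
  have s1 := hso 1 (by omega) (by decide)
  have s2 := hse 2 (by omega) (by decide)
  have sd := hso d le_rfl hodd
  have t0 := hte 0 (by omega) (by decide)
  have td := hto d le_rfl hodd
  push_cast at s0 s1 s2 t0
  have hC : C ≠ 0 := by
    intro hC
    apply hiths 2 0 (by omega) (by omega) (by omega)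
    rw [s2, s0, hC]
    ring
  have hC2 : 2 * C ≠ 0 := mul_ne_zero h2 hC
  -- the parameter `e`
  obtain ⟨e, he⟩ : ∃ e : K, e * (2 * C) = c := ⟨c / (2 * C), div_mul_cancel₀ _ hC2⟩
  have p1 := pa3 1 le_rfl (by omega)
  rw [vth 1 (by omega), if_neg (by decide)] at p1
  have e0 : (1 : ℕ) - 1 = 0 := rfl
  rw [e0] at p1
  refine ⟨e, vp 1 + ph 1 + e * (ths 1 - ths 0) ^ 2, ?_, ?_, ?_⟩
  · intro i hi hid hio
    obtain ⟨k, rfl⟩ : ∃ k, i = k + 1 := ⟨i - 1, by omega⟩
    have hk : Even k := by
      rcases Nat.even_or_odd k with h | h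
      · exact h
      · exact absurd hio (Nat.not_odd_iff_even.mpr h.add_one)
    have ek : k + 1 - 1 = k := by omega
    have edk : d - (k + 1) + 1 = d - k := by omega
    have p3 := pa3 (k + 1) hi hid
    have p4 := pa4 (k + 1) hi hid
    rw [vth (k + 1) hid, if_neg (Nat.not_even_iff_odd.mpr hio)] at p3 p4
    rw [ek] at p3
    rw [edk] at p4
    rw [ek]
    have hdk : Odd (d - k) := Nat.Odd.sub_even (by omega) hodd hk
    have a1 := hso (k + 1) hid hio
    have a2 := hse k (by omega) hk
    have a3 := hte k (by omega) hk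
    have a4 := hto (d - k) (by omega) hdk
    rw [Nat.cast_sub (by omega)] at a4
    push_cast at a1
    rw [a1, s0, a3, td] at p3
    rw [a1, s0, a4, t0] at p4
    rw [s1, s0, t0, td] at p1
    rw [p3, p4, a1, a2, s1, s0, t0, td]
    have hc : c = e * (2 * C) := he.symm
    subst hc
    constructor
    · linear_combination (-1 : K) * p1
    · linear_combination (1 : K) * p1
  · intro i hi hid hie
    obtain ⟨k, rfl⟩ : ∃ k, i = k + 1 := ⟨i - 1, by omega⟩
    have hk : Odd k := by
      rcases Nat.even_or_odd k with h | h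
      · exact absurd hie (Nat.not_even_iff_odd.mpr h.add_one)
      · exact h
    have ek : k + 1 - 1 = k := by omega
    have edk : d - (k + 1) + 1 = d - k := by omega
    have p3 := pa3 (k + 1) hi hid
    have p4 := pa4 (k + 1) hi hid
    rw [vth (k + 1) hid, if_pos hie] at p3 p4
    rw [ek] at p3
    rw [edk] at p4
    rw [ek]
    have hdk : Even (d - k) := Nat.Odd.sub_odd hodd hk
    have a1 := hse (k + 1) hid hie
    have a2 := hso k (by omega) hk
    have a3 := hto k (by omega) hk
    have a4 := hte (d - k) (by omega) hdk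
    rw [Nat.cast_sub (by omega)] at a4
    push_cast at a1
    rw [a1, s0, a3, td] at p3
    rw [a1, s0, a4, t0] at p4
    rw [p3, p4, a1, a2, s0, sd]
    have hc : c = e * (2 * C) := he.symm
    subst hc
    constructor <;> ring
  · intro i hi hid
    have hne : ths i - ths 0 ≠ 0 := sub_ne_zero.mpr (hiths i 0 hid (by omega) (by omega))
    have p3 := pa3 i hi hid
    rw [vth i hid, ← vths i hid] at p3
    rw [p3]
    field_simp
    ring

end Pool.Agent.Lib.MP87d664.LP
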