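import Pool.Agent.Lib.MP_87d664_al.LP.SpecB

/-!
MP_87d664_al, module BOS: the products for `β = -2`, `d` odd.
-/

set_option autoImplicit false

namespace Pool.Agent.Lib.MP87d664.LP

theorem specBOS (_hCLB : SpecCLB) : SpecBOS := by
  intro K _ d ths th vp ph th' vp' ph' a e u a₁ e₁ u₁ h2 hd hod hrec hinj hp hp'
  have h4 : (4 : K) ≠ 0 := by
    have : (4 : K) = 2 * 2 := by norm_num
    rw [this]; exact mul_ne_zero h2 h2
  have hodd : ∀ i, 1 ≤ i → i ≤ d → Odd i → 4 * (vp i * ph i) =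
      (u - e * (ths i - ths (i - 1)) ^ 2) ^ 2 - a ^ 2 * (ths i - ths (i - 1)) ^ 2 := by
    intro i h1 h3 h5
    obtain ⟨p1, p2⟩ := hp.od i h1 h3 h5
    have : 4 * (vp i * ph i) = (2 * vp i) * (2 * ph i) := by ring
    rw [this, p1, p2]; ring
  have hodd' : ∀ i, 1 ≤ i → i ≤ d → Odd i → 4 * (vp' i * ph' i) =
      (u₁ - e₁ * (ths i - ths (i - 1)) ^ 2) ^ 2 - a₁ ^ 2 * (ths i - ths (i - 1)) ^ 2 := by
    intro i h1 h3 h5
    obtain ⟨p1, p2⟩ := hp'.od i h1 h3 h5
    have : 4 * (vp' i * ph' i) = (2 * vp' i) * (2 * ph' i) := by ring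
    rw [this, p1, p2]; ring
  have hev : ∀ i, 1 ≤ i → i ≤ d → Even i → vp i * ph i =
      e ^ 2 * (2 * ((ths i - ths 0) * (ths (i - 1) - ths d))) ^ 2 := by
    intro i h1 h3 h5
    obtain ⟨p1, p2⟩ := hp.ev i h1 h3 h5
    rw [p1, p2]; ring
  have hev' : ∀ i, 1 ≤ i → i ≤ d → Even i → vp' i * ph' i =
      e₁ ^ 2 * (2 * ((ths i - ths 0) * (ths (i - 1) - ths d))) ^ 2 := by
    intro i h1 h3 h5
    obtain ⟨p1, p2⟩ := hp'.ev i h1 h3 h5
    rw [p1, p2]; ring
  constructor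
  · intro hL i h1 h3
    rcases Nat.even_or_odd i with hi | hi
    · rw [hev i h1 h3 hi, hev' i h1 h3 hi]
      have he : e₁ ^ 2 = e ^ 2 := by
        rcases hL with ⟨(⟨h, -⟩ | ⟨h, -⟩), -⟩ | ⟨(⟨h, -⟩ | ⟨h, -⟩), -⟩ <;> rw [h] <;> ring
      rw [he]
    · apply mul_left_cancel₀ h4
      rw [hodd i h1 h3 hi, hodd' i h1 h3 hi]
      rcases hL with ⟨h, h'⟩ | ⟨h, h'⟩
      · have ha : a₁ ^ 2 = a ^ 2 := by
          rcases h' with h' | h' <;> rw [h'] <;> ring
        rw [ha]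
        rcases h with ⟨h, h''⟩ | ⟨h, h''⟩ <;> rw [h, h''] <;> ring
      · rw [h']
        rcases h with ⟨h, h''⟩ | ⟨h, h''⟩ <;> rw [h, h''] <;> ring
  · intro e1 e2 e3
    have q1 := hodd 1 le_rfl (by omega) (by decide)
    have q1' := hodd' 1 le_rfl (by omega) (by decide)
    have q3 := hodd 3 (by omega) (by omega) (by decide)
    have q3' := hodd' 3 (by omega) (by omega) (by decide)
    have q2 := hev 2 (by omega) (by omega) (by decide)
    have q2' := hev' 2 (by omega) (by omega) (by decide)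
    simp only [Nat.sub_self, show 3 - 1 = 2 from rfl, show 2 - 1 = 1 from rfl] at q1 q1' q2 q2' q3 q3'
    have n20 : ths 2 - ths 0 ≠ 0 := sub_ne_zero.2 (by
      intro h; exact absurd h (by exact hinj 2 0 (by omega) (by omega) (by omega)))
    have n1d : ths 1 - ths d ≠ 0 := sub_ne_zero.2 (by
      intro h; exact absurd h (by exact hinj 1 d (by omega) (by omega) (by omega)))
    have n12 : ths 1 - ths 2 ≠ 0 := sub_ne_zero.2 (by
      intro h; exact absurd h (by exact hinj 1 2 (by omega) (by omega) (by omega)))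
    have he : e₁ ^ 2 = e ^ 2 := by
      have hX : (2 * ((ths 2 - ths 0) * (ths 1 - ths d))) ^ 2 ≠ 0 :=
        pow_ne_zero _ (mul_ne_zero h2 (mul_ne_zero n20 n1d))
      apply mul_right_cancel₀ hX
      rw [← q2', ← q2, e2]
    have ht3 : ths 3 = ths 0 + ths 1 - ths 2 := by
      have := hrec 0 (by omega)
      simp only [Nat.zero_add] at this
      linear_combination (-1 : K) * this
    have k1 : u₁ ^ 2 - u ^ 2 = (2 * u₁ * e₁ + a₁ ^ 2 - (2 * u * e + a ^ 2)) * (ths 1 - ths 0) ^ 2 := by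
      rw [e1] at q1'
      linear_combination q1 - q1' - (ths 1 - ths 0) ^ 4 * he
    have k3 : u₁ ^ 2 - u ^ 2 = (2 * u₁ * e₁ + a₁ ^ 2 - (2 * u * e + a ^ 2)) * (ths 3 - ths 2) ^ 2 := by
      rw [e3] at q3'
      linear_combination q3 - q3' - (ths 3 - ths 2) ^ 4 * he
    have k5 : (2 * u₁ * e₁ + a₁ ^ 2 - (2 * u * e + a ^ 2)) *
        (4 * ((ths 2 - ths 0) * (ths 1 - ths 2))) = 0 := by
      rw [ht3] at k3
      linear_combination k3 - k1
    have k6 : 2 * u₁ * e₁ + a₁ ^ 2 - (2 * u * e + a ^ 2) = 0 := by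
      rcases mul_eq_zero.1 k5 with h | h
      · exact h
      · exact absurd h (mul_ne_zero h4 (mul_ne_zero n20 n12))
    have hu : u₁ ^ 2 = u ^ 2 := by
      rw [k6, zero_mul] at k1
      linear_combination k1
    rcases sq_eq_sq_iff_eq_or_eq_neg.1 he with h | h <;>
      rcases sq_eq_sq_iff_eq_or_eq_neg.1 hu with h' | h' <;> subst h <;> subst h'
    · left
      exact ⟨Or.inl ⟨rfl, rfl⟩, sq_eq_sq_iff_eq_or_eq_neg.1 (by linear_combination k6)⟩
    · right
      exact ⟨Or.inl ⟨rfl, rfl⟩, by linear_combination k6⟩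
    · right
      exact ⟨Or.inr ⟨rfl, rfl⟩, by linear_combination k6⟩
    · left
      exact ⟨Or.inr ⟨rfl, rfl⟩, sq_eq_sq_iff_eq_or_eq_neg.1 (by linear_combination k6)⟩

end Pool.Agent.Lib.MP87d664.LP
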