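import Pool.Agent.Lib.MP_87d664_al.LP.SpecB

/-!
# BOU: uniqueness of the parameters
-/

set_option autoImplicit false

namespace Pool.Agent.Lib.MP87d664.LP

/-- BOU -/
theorem specBOU : SpecBOU := by
  intro K _ d ths th vp ph a e u a₁ e₁ u₁ h2 hd hinj h h'
  have h01 : ths 1 - ths 0 ≠ 0 := sub_ne_zero.mpr (hinj 1 0 (by omega) (by omega) (by omega))
  have h02 : ths 2 - ths 0 ≠ 0 := sub_ne_zero.mpr (hinj 2 0 (by omega) (by omega) (by omega))
  have h1d : ths 1 - ths d ≠ 0 := sub_ne_zero.mpr (hinj 1 d (by omega) (by omega) (by omega))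
  have o1 := h.od 1 le_rfl (by omega) (by decide)
  have o2 := h'.od 1 le_rfl (by omega) (by decide)
  have v1 := (h.ev 2 (by omega) (by omega) (by decide)).1
  have v2 := (h'.ev 2 (by omega) (by omega) (by decide)).1
  have e0 : (1 : ℕ) - 1 = 0 := rfl
  have e1 : (2 : ℕ) - 1 = 1 := rfl
  rw [e0] at o1 o2
  rw [e1] at v1 v2
  have ha : a₁ = a := by
    apply mul_left_cancel₀ (mul_ne_zero h2 h01)
    linear_combination o1.1 - o1.2 - o2.1 + o2.2
  have he : e₁ = e := by
    apply mul_left_cancel₀ (mul_ne_zero h2 (mul_ne_zero h02 h1d))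
    linear_combination v1 - v2
  refine ⟨ha, he, ?_⟩
  subst ha he
  linear_combination o1.1 - o2.1

end Pool.Agent.Lib.MP87d664.LP
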