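import Pool.Agent.Lib.MP_87d664_al.LP.SpecB

/-!
# MP_87d664_al, LP: module BOV, the sums `vt` for `β = -2` and odd `d`
-/

set_option autoImplicit false

namespace Pool.Agent.Lib.MP87d664.LP

theorem specBOV (hCLB : SpecCLB) : SpecBOV := by
  intro K _ d t h2 hd hodd hrec h0d i hi
  obtain ⟨α, b, c, ht⟩ := hCLB K d t h2 (by omega) hrec
  have key : ∀ h, h ≤ d → t h - t (d - h) = (-1) ^ h * (t 0 - t d) := by
    intro h hh
    obtain ⟨e, he⟩ : ∃ e, d = h + e := ⟨d - h, by omega⟩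
    have hs : (-1 : K) ^ d = -1 := hodd.neg_one_pow
    have hs2 : (-1 : K) ^ h * (-1) ^ h = 1 := by
      rw [← mul_pow]
      simp
    have hs3 : (-1 : K) ^ (d - h) = -(-1) ^ h := by
      have h1 : (-1 : K) ^ h * (-1) ^ (d - h) = -1 := by
        rw [← pow_add, show h + (d - h) = d by omega, hs]
      calc (-1 : K) ^ (d - h) = ((-1) ^ h * (-1) ^ h) * (-1) ^ (d - h) := by rw [hs2, one_mul]
        _ = (-1) ^ h * ((-1) ^ h * (-1) ^ (d - h)) := by ring
        _ = -(-1) ^ h := by rw [h1]; ring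
    have hcast : ((d - h : ℕ) : K) = (d : K) - (h : K) := Nat.cast_sub hh
    rw [ht h hh, ht (d - h) (Nat.sub_le d h), ht 0 (Nat.zero_le d), ht d le_rfl, hs3, hs, hcast]
    push_cast
    ring
  have hne : t 0 - t d ≠ 0 := sub_ne_zero.2 h0d
  have hsum : vt d t i = ∑ h ∈ Finset.range i, (-1 : K) ^ h := by
    unfold vt
    refine Finset.sum_congr rfl fun h hh => ?_
    have hh' := Finset.mem_range.1 hh
    rw [key h (by omega), mul_div_assoc, div_self hne, mul_one]
  rw [hsum, neg_one_geom_sum]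

end Pool.Agent.Lib.MP87d664.LP
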