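import Pool.Agent.Lib.MP_87d664_al.LP.SpecB

/-!
# LP, module BSE: the products for `β = -2`, `d` even
-/

set_option autoImplicit false

namespace Pool.Agent.Lib.MP87d664.LP

namespace BSEM

variable {K : Type} [Field K]

lemma four_Pr (d : ℕ) (ths : ℕ → K) (m m' n : K) (i : ℕ) :
    4 * Pr d ths m m' n i = (vt d ths i) ^ 2 *
      (((m + m') * (ths (i - 1) + ths i) + 2 * n) ^ 2 - (m - m') ^ 2 * (ths i - ths (i - 1)) ^ 2) := by
  unfold Pr; ring

lemma sums {d : ℕ} {ths : ℕ → K} {α B C : K} (hd : 3 ≤ d)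
    (hC : ∀ i, i ≤ d → ths i = α + (-1) ^ i * (B + C * (i : K))) :
    (∀ i, 1 ≤ i → i ≤ d → Odd i → ths (i - 1) + ths i = ths 0 + ths 1) ∧
    (∀ i, 1 ≤ i → i ≤ d → Even i → ths (i - 1) + ths i = ths 1 + ths 2) := by
  have h0 := hC 0 (by omega)
  have h1 := hC 1 (by omega)
  have h2 := hC 2 (by omega)
  constructor
  · intro i hi hid ho
    obtain ⟨j, rfl⟩ := ho
    have h3 := hC (2 * j + 1) hid
    have h4 := hC (2 * j) (by omega)
    rw [show 2 * j + 1 - 1 = 2 * j by omega, h3, h4, h0, h1]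
    have h5 : (-1 : K) ^ (2 * j) = 1 := by rw [pow_mul]; simp
    rw [pow_succ, h5]
    push_cast
    ring
  · intro i hi hid he
    obtain ⟨j, rfl⟩ := he
    obtain ⟨k, rfl⟩ : ∃ k, j = k + 1 := ⟨j - 1, by omega⟩
    have h3 := hC (k + 1 + (k + 1)) hid
    have h4 := hC (2 * k + 1) (by omega)
    rw [show k + 1 + (k + 1) - 1 = 2 * k + 1 by omega, h3, h4, h1, h2]
    have h5 : (-1 : K) ^ (2 * k) = 1 := by rw [pow_mul]; simp
    have h6 : (-1 : K) ^ (2 * k + 1) = -1 := by rw [pow_succ, h5]; ring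
    have h7 : (-1 : K) ^ (k + 1 + (k + 1)) = 1 := by
      rw [show k + 1 + (k + 1) = 2 * k + 1 + 1 by omega, pow_succ, h6]; ring
    rw [h6, h7]
    push_cast
    ring

end BSEM

open BSEM in
theorem specBSE (hCLB : SpecCLB) : SpecBSE := by
  intro K _ d ths m m' n m₁ m₁' n₁ h2 hd hR hI hvt
  obtain ⟨α, B, C, hC⟩ := hCLB K d ths h2 (by omega) hR
  obtain ⟨hodd, heven⟩ := sums hd hC
  have h4 : (4 : K) ≠ 0 := by
    have : (4 : K) = 2 * 2 := by norm_num
    rw [this]; exact mul_ne_zero h2 h2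
  constructor
  · rintro ⟨ha, hb, hc⟩ i hi hid
    apply mul_left_cancel₀ h4
    rw [four_Pr, four_Pr]
    have ha2 : (m₁ - m₁') ^ 2 = (m - m') ^ 2 := by
      rcases ha with h | h <;> rw [h]
      ring
    have hy : ((m₁ + m₁') * (ths (i - 1) + ths i) + 2 * n₁) ^ 2 =
        ((m + m') * (ths (i - 1) + ths i) + 2 * n) ^ 2 := by
      rcases Nat.even_or_odd i with h | h
      · rw [heven i hi hid h]
        rcases hc with h5 | h5 <;> rw [h5]
        ring
      · rw [hodd i hi hid h]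
        rcases hb with h5 | h5 <;> rw [h5]
        ring
    rw [ha2, hy]
  · intro p1 p2 p3
    have key : ∀ i, 1 ≤ i → i ≤ d → Pr d ths m₁ m₁' n₁ i = Pr d ths m m' n i →
        ((m₁ + m₁') * (ths (i - 1) + ths i) + 2 * n₁) ^ 2 -
          (m₁ - m₁') ^ 2 * (ths i - ths (i - 1)) ^ 2 =
        ((m + m') * (ths (i - 1) + ths i) + 2 * n) ^ 2 -
          (m - m') ^ 2 * (ths i - ths (i - 1)) ^ 2 := by
      intro i hi hid hp
      have h5 : 4 * Pr d ths m₁ m₁' n₁ i = 4 * Pr d ths m m' n i := by rw [hp]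
      rw [four_Pr, four_Pr] at h5
      exact mul_left_cancel₀ (pow_ne_zero 2 (hvt i hi hid)) h5
    have k1 := key 1 le_rfl (by omega) p1
    have k2 := key 2 (by omega) (by omega) p2
    have k3 := key 3 (by omega) hd p3
    rw [hodd 1 le_rfl (by omega) (by decide)] at k1
    rw [heven 2 (by omega) (by omega) (by decide)] at k2
    rw [hodd 3 (by omega) hd (by decide)] at k3
    have e0 := hC 0 (by omega)
    have e1 := hC 1 (by omega)
    have e2 := hC 2 (by omega)
    have e3 := hC 3 hd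
    norm_num at k1 k2 k3 e0 e1 e2 e3
    have hC0 : (2 : K) * C ≠ 0 := by
      have h5 := hI 2 0 (by omega) (by omega) (by omega)
      intro h6
      apply h5
      rw [e2, e0]
      linear_combination h6
    have hB0 : (2 : K) * B + 3 * C ≠ 0 := by
      have h5 := hI 2 1 (by omega) (by omega) (by omega)
      intro h6
      apply h5
      rw [e2, e1]
      linear_combination h6
    have hw : ((m₁ - m₁') ^ 2 - (m - m') ^ 2) * ((2 * 2) * ((2 * C) * (2 * B + 3 * C))) = 0 := by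
      have h5 : (ths 3 - ths 2) ^ 2 - (ths 1 - ths 0) ^ 2 = (2 * 2) * ((2 * C) * (2 * B + 3 * C)) := by
        rw [e3, e2, e1, e0]; ring
      rw [← h5]
      linear_combination k1 - k3
    have ha2 : (m₁ - m₁') ^ 2 = (m - m') ^ 2 := by
      have h5 : ((2 : K) * 2) * ((2 * C) * (2 * B + 3 * C)) ≠ 0 :=
        mul_ne_zero (mul_ne_zero h2 h2) (mul_ne_zero hC0 hB0)
      exact sub_eq_zero.1 ((mul_eq_zero.1 hw).resolve_right h5)
    refine ⟨sq_eq_sq_iff_eq_or_eq_neg.1 ha2, ?_, ?_⟩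
    · apply sq_eq_sq_iff_eq_or_eq_neg.1
      linear_combination k1 + ha2 * (ths 1 - ths 0) ^ 2
    · apply sq_eq_sq_iff_eq_or_eq_neg.1
      linear_combination k2 + ha2 * (ths 2 - ths 1) ^ 2

end Pool.Agent.Lib.MP87d664.LP
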