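import Pool.Agent.Lib.MP_87d664_al.LP.Spec

/-!
# Parameter arrays (MP_87d664_al): module BWD
-/

set_option autoImplicit false

namespace Pool.Agent.Lib.MP87d664.LP

namespace BWDM

theorem vt_one {K : Type} [Field K] (d : ℕ) (t : ℕ → K) (h : t 0 ≠ t d) : vt d t 1 = 1 := by
  unfold vt
  rw [Finset.sum_range_one, Nat.sub_zero]
  exact div_self (sub_ne_zero.2 h)

end BWDM

theorem specBWD (hREC : SpecREC) : SpecBWD := by
  intro K _ d th ths vp ph m m' n hd hL hi2 hr2 hP hi1 hnz
  have h0d : th 0 ≠ th d := hi1 0 d (Nat.zero_le d) le_rfl (by omega)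
  have hs0d : ths 0 ≠ ths d := hi2 0 d (Nat.zero_le d) le_rfl (by omega)
  have hv1 : vt d ths 1 = 1 := BWDM.vt_one d ths hs0d
  have hvp1 : vp 1 = m * ths 1 + m' * ths 0 + n := by
    have h := hP.vp_eq 1 le_rfl (by omega)
    rwa [hv1, one_mul, Nat.sub_self] at h
  have hph1 : ph 1 = m' * ths 1 + m * ths 0 + n := by
    have h := hP.ph_eq 1 le_rfl (by omega)
    rwa [hv1, one_mul, Nat.sub_self] at h
  obtain ⟨t, hrt, htd, -, hLL⟩ := hL.c m m' (th d)
  have hti : ∀ i, 1 ≤ i → i ≤ d → th (i - 1) = t (i - 1) := by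
    intro i hi hid
    have hne : ths i - ths 0 ≠ 0 := sub_ne_zero.2 (hi2 i 0 hid (Nat.zero_le d) (by omega))
    have hl := (hLL i hi hid).1
    unfold L1 at hl
    have h' : vp i - ph 1 * vt d ths i = (ths i - ths 0) * (t (i - 1) - t d) := by
      rw [hl, hP.vp_eq i hi hid, hph1]
      ring
    rw [hP.th_eq i hi hid, h', mul_div_cancel_left₀ _ hne, htd]
    ring
  have htj : ∀ j, j ≤ d → th j = t j := by
    intro j hj
    rcases Nat.lt_or_ge j d with h | h
    · have := hti (j + 1) (by omega) (by omega)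
      simpa using this
    · have hjd : j = d := by omega
      rw [hjd, htd]
  have hr1 : Rec (bet ths) d th := by
    intro i hi
    rw [htj i (by omega), htj (i + 3) (by omega), htj (i + 1) (by omega), htj (i + 2) (by omega)]
    exact hrt i hi
  have hva : ∀ i, i ≤ d → vt d th i = vt d ths i := hL.a th hr1 h0d
  refine (hREC K d th ths vp ph hd).2 ⟨hi1, hi2, hnz, ?_, ?_, hr1, hr2⟩
  · intro i hi hid
    have hl := (hLL i hi hid).1
    unfold L1 at hl
    rw [hva i hid, htj (i - 1) (by omega), htj d le_rfl, hl, hP.vp_eq i hi hid, hph1]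
    ring
  · intro i hi hid
    have hl := (hLL i hi hid).2
    unfold L2 at hl
    rw [hva i hid, htj (d - i + 1) (by omega), htj 0 (Nat.zero_le d), hl, hP.ph_eq i hi hid, hvp1]
    ring

end Pool.Agent.Lib.MP87d664.LP
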