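import Pool.Agent.Lib.MP_87d664_al.LP.SpecB

/-!
# MP_87d664_al, module CLB: closed form of the recurrence, `β = -2`
-/

set_option autoImplicit false

namespace Pool.Agent.Lib.MP87d664.LP

theorem specCLB : SpecCLB := by
  intro K _ d t h2 hd hrec
  obtain ⟨c, hc⟩ : ∃ c, c * 2 = t 2 - t 0 := ⟨_, div_mul_cancel₀ _ h2⟩
  obtain ⟨b, hb⟩ : ∃ b, b * 2 = t 0 - t 1 - c := ⟨_, div_mul_cancel₀ _ h2⟩
  refine ⟨t 0 - b, b, c, fun i => ?_⟩
  induction i using Nat.strong_induction_on with
  | _ i ih =>
    intro hi
    match i, ih, hi with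
    | 0, _, _ =>
      rw [pow_zero, Nat.cast_zero]
      ring
    | 1, _, _ =>
      rw [pow_one, Nat.cast_one]
      linear_combination hb
    | 2, _, _ =>
      push_cast
      linear_combination -hc
    | i + 3, ih, hi =>
      have h0 := ih i (by omega) (by omega)
      have h1 := ih (i + 1) (by omega) (by omega)
      have h2 := ih (i + 2) (by omega) (by omega)
      have h3 := hrec i hi
      rw [h0, h1, h2] at h3
      push_cast at h3 ⊢
      rw [pow_succ, pow_succ] at h3
      rw [pow_succ, pow_succ, pow_succ]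
      linear_combination -h3

end Pool.Agent.Lib.MP87d664.LP
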