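import Pool.Agent.Lib.MP_87d664_al.LP.Spec

/-!
# MP_87d664_al, module CLQ: closed form of the recurrence, `β = q + q⁻¹`
-/

set_option autoImplicit false

namespace Pool.Agent.Lib.MP87d664.LP

namespace CLQM

lemma aux {F : Type} [Field F] (q p : F) (hqp : q * p = 1) (d : ℕ) (t : ℕ → F) (q1 : q ≠ 1)
    (qm : q ≠ -1) (hd : 2 ≤ d) (hrec : Rec (q + p) d t) :
    ∃ α b c : F, ∀ i, i ≤ d → t i = α + b * q ^ i + c * p ^ i := by
  have p1 : p - 1 ≠ 0 := by
    intro h
    rw [sub_eq_zero] at h
    rw [h, mul_one] at hqp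
    exact q1 hqp
  have q1' : q - 1 ≠ 0 := sub_ne_zero.2 q1
  have hne : q - p ≠ 0 := by
    intro h
    have h1 : q = p := sub_eq_zero.1 h
    have h2 : (q - 1) * (q + 1) = 0 := by
      linear_combination hqp + q * h1
    rcases mul_eq_zero.1 h2 with h3 | h3
    · exact q1' h3
    · exact qm (eq_neg_of_add_eq_zero_left h3)
  have hne' : p - q ≠ 0 := by
    intro h
    apply hne
    linear_combination -h
  obtain ⟨b, hb⟩ : ∃ b, b * ((q - 1) * (q - p)) = (t 2 - t 1) - p * (t 1 - t 0) :=
    ⟨_, div_mul_cancel₀ _ (mul_ne_zero q1' hne)⟩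
  obtain ⟨c, hc⟩ : ∃ c, c * ((p - 1) * (p - q)) = (t 2 - t 1) - q * (t 1 - t 0) :=
    ⟨_, div_mul_cancel₀ _ (mul_ne_zero p1 hne')⟩
  have e1 : t 1 - t 0 = b * (q - 1) + c * (p - 1) := by
    apply mul_right_cancel₀ hne
    linear_combination -hb + hc
  have e2 : t 2 - t 1 = b * (q * (q - 1)) + c * (p * (p - 1)) := by
    apply mul_right_cancel₀ hne
    linear_combination -q * hb + p * hc
  refine ⟨t 0 - b - c, b, c, fun i => ?_⟩
  induction i using Nat.strong_induction_on with
  | _ i ih =>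
    intro hi
    match i, ih, hi with
    | 0, _, _ =>
      rw [pow_zero, pow_zero]
      ring
    | 1, _, _ => linear_combination e1
    | 2, _, _ => linear_combination e1 + e2
    | i + 3, ih, hi =>
      have h0 := ih i (by omega) (by omega)
      have h1 := ih (i + 1) (by omega) (by omega)
      have h2 := ih (i + 2) (by omega) (by omega)
      have h3 := hrec i hi
      rw [h0, h1, h2] at h3
      have hq3 : (q + p + 1) * (q - q ^ 2) = 1 - q ^ 3 := by
        linear_combination (1 - q) * hqp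
      have hp3 : (q + p + 1) * (p - p ^ 2) = 1 - p ^ 3 := by
        linear_combination (1 - p) * hqp
      linear_combination -h3 - b * q ^ i * hq3 - c * p ^ i * hp3

end CLQM

/-- Module CLQ. -/
theorem specCLQ : SpecCLQ := by
  intro F _ q d t q0 q1 qm hd hrec
  exact CLQM.aux q q⁻¹ (mul_inv_cancel₀ q0) d t q1 qm hd hrec

end Pool.Agent.Lib.MP87d664.LP
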