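import Pool.Agent.Lib.MP_87d664_al.LP.Spec

/-!
# MP_87d664_al, module CLR: the closed form for `β = 2`
-/

set_option autoImplicit false

namespace Pool.Agent.Lib.MP87d664.LP

theorem specCLR : SpecCLR := by
  intro K _ d t h2 hd hrec
  set c : K := (t 2 - 2 * t 1 + t 0) / 2 with hc
  have hc2 : 2 * c = t 2 - 2 * t 1 + t 0 := by
    rw [hc, mul_div_cancel₀ _ h2]
  refine ⟨t 0, t 1 - t 0 - c, c, ?_⟩
  intro i
  induction i using Nat.strong_induction_on with
  | _ i ih =>
    intro hi
    match i, ih, hi with
    | 0, _, _ => simp
    | 1, _, _ => push_cast; ring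
    | 2, _, _ =>
      push_cast
      linear_combination (-1 : K) * hc2
    | (j + 3), ih, hi =>
      have e0 := ih j (by omega) (by omega)
      have e1 := ih (j + 1) (by omega) (by omega)
      have e2 := ih (j + 2) (by omega) (by omega)
      have h := hrec j hi
      push_cast at *
      linear_combination e0 - 3 * e1 + 3 * e2 - h

end Pool.Agent.Lib.MP87d664.LP
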