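import Pool.Agent.Lib.MP_87d664_al.LP.SpecC

/-!
# Parameter arrays (MP_87d664_al): the module CN8, the number of solutions
-/

set_option autoImplicit false

namespace Pool.Agent.Lib.MP87d664.LP

namespace CN8M

/-- the four known solutions as a finite set -/
theorem KF_exists {K : Type} [Field K] (a a' c : K) : ∃ F : Finset (K × K × K), F.card ≤ 4 ∧
    ∀ x x' z : K, Kn a a' c x x' z → (x, x', z) ∈ F := by
  classical
  refine ⟨{(a, a', c), (a', a, c), (-a, -a', -c), (-a', -a, -c)}, Finset.card_le_four, ?_⟩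
  intro x x' z h
  simp only [Finset.mem_insert, Finset.mem_singleton, Prod.mk.injEq]
  exact h

theorem kn_prod {K : Type} [Field K] {a a' c x x' z : K} (h : Kn a a' c x x' z) :
    x * x' = a * a' := by
  rcases h with ⟨rfl, rfl, -⟩ | ⟨rfl, rfl, -⟩ | ⟨rfl, rfl, -⟩ | ⟨rfl, rfl, -⟩ <;> ring

/-- the same product: one of the known solutions -/
theorem same_prod {K : Type} [Field K] {β γ ρ m m' n m₁ m₁' n₁ : K}
    (h : EqJ β γ ρ m m' n m₁ m₁' n₁) (hN : m₁ * m₁' = m * m') : Kn m m' n m₁ m₁' n₁ := by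
  obtain ⟨h1, h2, h3⟩ := h
  have hP : (m₁ + m₁') ^ 2 = (m + m') ^ 2 := by
    linear_combination h1 - (β - 2) * hN
  have hQ : n₁ * (m₁ + m₁') = n * (m + m') := by
    linear_combination h2 - γ * hN
  have hR : n₁ ^ 2 = n ^ 2 := by
    linear_combination h3 - ρ * hN
  have case1 : m₁ + m₁' = m + m' → n₁ = n → Kn m m' n m₁ m₁' n₁ := by
    intro e1 e2
    have h0 : (m₁ - m) * (m₁ - m') = 0 := by
      linear_combination m₁ * e1 - hN
    rcases mul_eq_zero.1 h0 with h | h
    · left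
      exact ⟨sub_eq_zero.1 h, by linear_combination e1 - h, e2⟩
    · right; left
      exact ⟨sub_eq_zero.1 h, by linear_combination e1 - h, e2⟩
  have case2 : m₁ + m₁' = -(m + m') → n₁ = -n → Kn m m' n m₁ m₁' n₁ := by
    intro e1 e2
    have h0 : (m₁ + m) * (m₁ + m') = 0 := by
      linear_combination m₁ * e1 - hN
    rcases mul_eq_zero.1 h0 with h | h
    · right; right; left
      exact ⟨eq_neg_of_add_eq_zero_left h, by linear_combination e1 - h, e2⟩
    · right; right; right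
      exact ⟨eq_neg_of_add_eq_zero_left h, by linear_combination e1 - h, e2⟩
  rcases sq_eq_sq_iff_eq_or_eq_neg.1 hP with e1 | e1 <;>
    rcases sq_eq_sq_iff_eq_or_eq_neg.1 hR with e2 | e2
  · exact case1 e1 e2
  · have h0 : (n + n) * (m + m') = 0 := by
      rw [e1, e2] at hQ
      linear_combination -hQ
    rcases mul_eq_zero.1 h0 with h | h
    · exact case1 e1 (by linear_combination e2 - h)
    · exact case2 (by linear_combination e1 + 2 * h) e2
  · have h0 : (n + n) * (m + m') = 0 := by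
      rw [e1, e2] at hQ
      linear_combination -hQ
    rcases mul_eq_zero.1 h0 with h | h
    · exact case2 e1 (by linear_combination e2 + h)
    · exact case1 (by linear_combination e1 - 2 * h) e2
  · exact case2 e1 e2

theorem eqJ_trans {K : Type} [Field K] {β γ ρ m m' n m₁ m₁' n₁ m₂ m₂' n₂ : K}
    (h : EqJ β γ ρ m m' n m₁ m₁' n₁) (h' : EqJ β γ ρ m m' n m₂ m₂' n₂) :
    EqJ β γ ρ m₁ m₁' n₁ m₂ m₂' n₂ :=
  ⟨h'.1.trans h.1.symm, h'.2.1.trans h.2.1.symm, h'.2.2.trans h.2.2.symm⟩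

end CN8M

open CN8M in
theorem specCN8 (hSL2 : SpecSL2) : SpecCN8 := by
  intro K _ β γ ρ m m' n
  have one : Del β γ ρ = 0 → LL β γ ρ m m' n ≠ 0 → ∀ m₁ m₁' n₁ : K,
      EqJ β γ ρ m m' n m₁ m₁' n₁ ↔ Kn m m' n m₁ m₁' n₁ := by
    intro hD hL m₁ m₁' n₁
    rw [hSL2 K β γ ρ m m' n m₁ m₁' n₁]
    constructor
    · rintro (h | ⟨h, -⟩)
      · exact h
      · exact absurd (by rw [← h, hD, zero_mul]) hL
    · exact Or.inl
  refine ⟨one, fun hne => ?_⟩
  classical
  suffices h : ∃ F : Finset (K × K × K), F.card ≤ 8 ∧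
      {t : K × K × K | EqJ β γ ρ m m' n t.1 t.2.1 t.2.2} ⊆ ↑F by
    obtain ⟨F, hF, hs⟩ := h
    refine ⟨F.finite_toSet.subset hs, ?_⟩
    have := Set.ncard_le_ncard hs F.finite_toSet
    rw [Set.ncard_coe_finset] at this
    exact this.trans hF
  obtain ⟨F0, hF0, hK0⟩ := KF_exists m m' n
  by_cases hD : Del β γ ρ = 0
  · have hL : LL β γ ρ m m' n ≠ 0 := fun h => hne ⟨hD, h⟩
    refine ⟨F0, hF0.trans (by norm_num), ?_⟩
    rintro ⟨x, x', z⟩ ht
    exact Finset.mem_coe.2 (hK0 x x' z ((one hD hL x x' z).1 ht))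
  · by_cases hex : ∃ x x' z : K, EqJ β γ ρ m m' n x x' z ∧ x * x' ≠ m * m'
    · obtain ⟨y, y', w, hy, hyN⟩ := hex
      have hy2 : Del β γ ρ * (m * m' + y * y') = LL β γ ρ m m' n := by
        rcases (hSL2 K β γ ρ m m' n y y' w).1 hy with h | h
        · exact absurd (kn_prod h) hyN
        · exact h.1
      obtain ⟨F1, hF1, hK1⟩ := KF_exists y y' w
      refine ⟨F0 ∪ F1, (Finset.card_union_le _ _).trans (Nat.add_le_add hF0 hF1), ?_⟩
      rintro ⟨x, x', z⟩ ht
      have ht : EqJ β γ ρ m m' n x x' z := ht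
      refine Finset.mem_coe.2 (Finset.mem_union.2 ?_)
      rcases (hSL2 K β γ ρ m m' n x x' z).1 ht with h | h
      · exact Or.inl (hK0 x x' z h)
      · right
        have h1 : Del β γ ρ * (x * x' - y * y') = 0 := by
          linear_combination h.1 - hy2
        have h2 : x * x' = y * y' := sub_eq_zero.1 ((mul_eq_zero.1 h1).resolve_left hD)
        exact hK1 x x' z (same_prod (eqJ_trans hy ht) h2)
    · refine ⟨F0, hF0.trans (by norm_num), ?_⟩
      rintro ⟨x, x', z⟩ ht
      have ht : EqJ β γ ρ m m' n x x' z := ht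
      have hN : x * x' = m * m' := by
        by_contra h
        exact hex ⟨x, x', z, ht, h⟩
      exact Finset.mem_coe.2 (hK0 x x' z (same_prod ht hN))

end Pool.Agent.Lib.MP87d664.LP
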