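import Pool.Agent.Lib.MP_87d664_al.LP.Spec

/-!
# MP_87d664_al, module DES: descent of the linear facts from an extension field
-/

set_option autoImplicit false

namespace Pool.Agent.Lib.MP87d664.LP

namespace DESM

variable {K F : Type} [Field K] [Field F] (f : K →+* F)

theorem vt_map (d : ℕ) (t : ℕ → K) (i : ℕ) :
    f (vt d t i) = vt d (fun j => f (t j)) i := by
  unfold vt
  rw [map_sum]
  refine Finset.sum_congr rfl fun h _ => ?_
  rw [map_div₀, map_sub, map_sub]

theorem rec_map {β : K} {d : ℕ} {t : ℕ → K} (h : Rec β d t) :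
    Rec (f β) d (fun j => f (t j)) := by
  intro i hi
  have := congrArg f (h i hi)
  rw [map_sub, map_mul, map_add, map_one, map_sub] at this
  exact this

/-- `ϑ_d = 1`. -/
theorem vt_d (d : ℕ) (t : ℕ → F) (h : t 0 ≠ t d) : vt d t d = 1 := by
  unfold vt
  rw [← Finset.sum_div, Finset.sum_sub_distrib]
  have h1 : ∑ j ∈ Finset.range (d + 1), t (d + 1 - 1 - j) = ∑ j ∈ Finset.range (d + 1), t j :=
    Finset.sum_range_reflect t (d + 1)
  have h2 : ∑ j ∈ Finset.range (d + 1), t (d + 1 - 1 - j) =
      ∑ j ∈ Finset.range d, t (d - j) + t 0 := by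
    rw [Finset.sum_range_succ]
    simp only [Nat.add_sub_cancel, Nat.sub_self]
  have h3 : ∑ j ∈ Finset.range (d + 1), t j = ∑ j ∈ Finset.range d, t j + t d :=
    Finset.sum_range_succ t d
  have h4 : ∑ j ∈ Finset.range d, t j - ∑ j ∈ Finset.range d, t (d - j) = t 0 - t d := by
    have h5 := h2.symm.trans (h1.trans h3)
    linear_combination -h5
  rw [h4]
  exact div_self (sub_ne_zero.mpr h)

end DESM

open DESM in
theorem specDES : SpecDES := by
  intro K F _ _ _ β d ths hd hI hy hL
  have hf : Function.Injective (algebraMap K F) := (algebraMap K F).injective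
  generalize hfd : algebraMap K F = f at hf hL
  have hsd : ths 0 ≠ ths d := hI 0 d (by omega) le_rfl (by omega)
  have hfsd : f (ths 0) ≠ f (ths d) := fun h => hsd (hf h)
  refine ⟨?_, ?_, ?_, ?_⟩
  · intro th hR hne i hi
    apply hf
    rw [vt_map, vt_map]
    exact hL.a (fun j => f (th j)) (rec_map f hR) (fun h => hne (hf h)) i hi
  · intro th hR
    obtain ⟨M, M', hMM, hM⟩ := hL.b (fun j => f (th j)) (rec_map f hR)
    have hD : f ((ths (d - 1) + ths d) - (ths 0 + ths 1)) ≠ 0 := by
      intro h
      rw [map_eq_zero_iff f hf] at h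
      exact hy (sub_eq_zero.mp h)
    have h1 : M' * f ((ths (d - 1) + ths d) - (ths 0 + ths 1)) =
        f ((ths d - ths 0) * (th (d - 1) - th 0)) := by
      have h := (hM d (by omega) le_rfl).1
      unfold L1 at h
      rw [vt_d d (fun j => f (ths j)) hfsd] at h
      simp only [map_mul, map_sub, map_add] at h hMM ⊢
      linear_combination -h - (f (ths d) - f (ths 0)) * hMM
    have h2 : f ((ths d - ths 0) * (th (d - 1) - th 0) /
        ((ths (d - 1) + ths d) - (ths 0 + ths 1))) = M' := by
      rw [map_div₀, ← h1, mul_div_assoc, div_self hD, mul_one]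
    generalize (ths d - ths 0) * (th (d - 1) - th 0) /
        ((ths (d - 1) + ths d) - (ths 0 + ths 1)) = m' at h2
    have h3 : f (m' + (th 0 - th d)) = M := by
      rw [map_add, h2, map_sub]
      linear_combination -hMM
    refine ⟨m' + (th 0 - th d), m', by ring, ?_⟩
    generalize m' + (th 0 - th d) = m at h3
    subst h2 h3
    intro i h1i hid
    obtain ⟨hA, hB⟩ := hM i h1i hid
    unfold L1 at hA
    unfold L2 at hB
    rw [← vt_map] at hA hB
    constructor
    · unfold L1
      apply hf
      simp only [map_mul, map_sub, map_add]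
      exact hA
    · unfold L2
      apply hf
      simp only [map_mul, map_sub, map_add]
      exact hB
  · intro m m' x
    obtain ⟨t, hR, htd, ht0, ht⟩ := hL.c (f m) (f m') (f x)
    obtain ⟨th, hth⟩ : ∃ th : ℕ → K, ∀ j, j ≤ d → f (th j) = t j := by
      refine ⟨fun j => if j < d then x + vt d ths (j + 1) *
        (m * (ths (j + 1) - ths 0) + m' * (ths j - ths 1)) / (ths (j + 1) - ths 0) else x, ?_⟩
      intro j hj
      by_cases hjd : j < d
      · have hne : f (ths (j + 1)) - f (ths 0) ≠ 0 := by
          intro h
          exact hI (j + 1) 0 (by omega) (by omega) (by omega) (hf (sub_eq_zero.mp h))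
        have h := (ht (j + 1) (by omega) (by omega)).1
        unfold L1 at h
        rw [← vt_map, Nat.add_sub_cancel] at h
        simp only [if_pos hjd]
        simp only [map_mul, map_sub, map_add, map_div₀]
        rw [← h, mul_comm, mul_div_assoc, div_self hne, mul_one, htd]
        ring
      · have : j = d := by omega
        subst this
        simp only [if_neg hjd]
        exact htd.symm
    refine ⟨th, ?_, ?_, ?_, ?_⟩
    · intro i hi
      apply hf
      simp only [map_mul, map_sub, map_add, map_one]
      rw [hth i (by omega), hth (i + 1) (by omega), hth (i + 2) (by omega), hth (i + 3) hi]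
      exact hR i hi
    · apply hf
      rw [hth d le_rfl, htd]
    · apply hf
      rw [map_sub, map_sub, hth d le_rfl, hth 0 (Nat.zero_le d)]
      exact ht0
    · intro i h1i hid
      obtain ⟨hA, hB⟩ := ht i h1i hid
      unfold L1 at hA
      unfold L2 at hB
      rw [← vt_map] at hA hB
      constructor
      · unfold L1
        apply hf
        simp only [map_mul, map_sub, map_add]
        rw [hth (i - 1) (by omega), hth d le_rfl]
        exact hA
      · unfold L2
        apply hf
        simp only [map_mul, map_sub, map_add]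
        rw [hth (d - i + 1) (by omega), hth 0 (Nat.zero_le d)]
        exact hB
  · intro i h1i hid h
    apply hL.nz i h1i hid
    rw [← vt_map, h, map_zero]

end Pool.Agent.Lib.MP87d664.LP
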