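import Mathlib

/-!
# Parameter arrays of Leonard systems (MP_87d664_al): definitions
-/

set_option autoImplicit false

namespace Pool.Agent.Lib.MP87d664.LP

variable {K : Type} [Field K]

/-- `ϑ_i = ∑_{h < i} (t_h - t_{d-h}) / (t_0 - t_d)`. -/
def vt (d : ℕ) (t : ℕ → K) (i : ℕ) : K :=
  ∑ h ∈ Finset.range i, (t h - t (d - h)) / (t 0 - t d)

/-- The values `t_0, .., t_d` are different. -/
def Inj (d : ℕ) (t : ℕ → K) : Prop := ∀ i j, i ≤ d → j ≤ d → i ≠ j → t i ≠ t j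

/-- Parameter arrays of diameter `d` (only the values of `th`, `ths` at `0, .., d` and of `vp`, `ph` at
`1, .., d` are used): (PA1) .. (PA5) of the problem, `th = θ`, `ths = θ*`, `vp = φ` (first), `ph = ϕ` (second). -/
structure PArray (d : ℕ) (th ths vp ph : ℕ → K) : Prop where
  pa1 : Inj d th ∧ Inj d ths
  pa2 : ∀ i, 1 ≤ i → i ≤ d → vp i ≠ 0 ∧ ph i ≠ 0
  pa3 : ∀ i, 1 ≤ i → i ≤ d → vp i = ph 1 * vt d th i + (ths i - ths 0) * (th (i - 1) - th d)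
  pa4 : ∀ i, 1 ≤ i → i ≤ d → ph i = vp 1 * vt d th i + (ths i - ths 0) * (th (d - i + 1) - th 0)
  pa5 : ∃ b : K, ∀ i, 2 ≤ i → i ≤ d - 1 →
    (th (i - 2) - th (i + 1)) / (th (i - 1) - th i) = b ∧
    (ths (i - 2) - ths (i + 1)) / (ths (i - 1) - ths i) = b

/-- The solutions of the question: the arrays with the same `θ*` and the same products. -/
def Sol (d : ℕ) (ths vp ph : ℕ → K) (th' vp' ph' : ℕ → K) : Prop :=
  PArray d th' ths vp' ph' ∧ ∀ i, 1 ≤ i → i ≤ d → vp' i * ph' i = vp i * ph i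

/-- `β` (for `d ≥ 3`; `β + 1` is the common value of (PA5)). -/
def bet (ths : ℕ → K) : K := (ths 0 - ths 3) / (ths 1 - ths 2) - 1

/-- `γ*`. -/
def gam (ths : ℕ → K) : K := ths 0 - bet ths * ths 1 + ths 2

/-- `ρ*`. -/
def rho (ths : ℕ → K) : K :=
  ths 0 ^ 2 - bet ths * (ths 0 * ths 1) + ths 1 ^ 2 - gam ths * (ths 0 + ths 1)

/-- `(θ, φ, ϕ)` has the parameters `(m, m', n)`. -/
structure Par (d : ℕ) (ths th vp ph : ℕ → K) (m m' n : K) : Prop where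
  vp_eq : ∀ i, 1 ≤ i → i ≤ d → vp i = vt d ths i * (m * ths i + m' * ths (i - 1) + n)
  ph_eq : ∀ i, 1 ≤ i → i ≤ d → ph i = vt d ths i * (m' * ths i + m * ths (i - 1) + n)
  th_eq : ∀ i, 1 ≤ i → i ≤ d → th (i - 1) = th d + (vp i - ph 1 * vt d ths i) / (ths i - ths 0)

/-- The three invariants of the parameters are equal. -/
def EqI (β γ ρ m m' n m₁ m₁' n₁ : K) : Prop :=
  m₁ * m₁' + (m₁ - m₁') ^ 2 / (β + 2) = m * m' + (m - m') ^ 2 / (β + 2) ∧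
  n₁ * (m₁ + m₁') - (m₁ - m₁') ^ 2 * γ / (β + 2) = n * (m + m') - (m - m') ^ 2 * γ / (β + 2) ∧
  n₁ ^ 2 - (m₁ - m₁') ^ 2 * ρ / (β + 2) = n ^ 2 - (m - m') ^ 2 * ρ / (β + 2)

end Pool.Agent.Lib.MP87d664.LP
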