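import Pool.Agent.Lib.MP_87d664_al.LP.SpecC

set_option autoImplicit false

namespace Pool.Agent.Lib.MP87d664.LP

theorem specEQJ : SpecEQJ := by
  intro K _ β γ ρ m m' n m₁ m₁' n₁ hs
  unfold EqI EqJ
  constructor
  · rintro ⟨h1, h2, h3⟩
    field_simp at h1 h2 h3
    refine ⟨?_, ?_, ?_⟩
    · linear_combination h1
    · refine mul_left_cancel₀ hs ?_
      linear_combination h2 + γ * h1
    · refine mul_left_cancel₀ hs ?_
      linear_combination h3 + ρ * h1
  · rintro ⟨h1, h2, h3⟩
    field_simp
    refine ⟨?_, ?_, ?_⟩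
    · linear_combination h1
    · linear_combination (β + 2) * h2 - γ * h1
    · linear_combination (β + 2) * h3 - ρ * h1

end Pool.Agent.Lib.MP87d664.LP
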