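import Pool.Agent.Lib.MP_87d664_al.LP.Spec

/-!
# FNA: part A of the theorem
-/

set_option autoImplicit false

namespace Pool.Agent.Lib.MP87d664.LP

namespace FNAM

lemma vt_one {K : Type} [Field K] {d : ℕ} {t : ℕ → K} (h : t 0 ≠ t d) : vt d t 1 = 1 := by
  unfold vt
  rw [Finset.sum_range_one, Nat.sub_zero]
  exact div_self (sub_ne_zero.2 h)

lemma par_prod {K : Type} [Field K] {d : ℕ} {ths th vp ph : ℕ → K} {m m' n : K}
    (h : Par d ths th vp ph m m' n) (i : ℕ) (h1 : 1 ≤ i) (h2 : i ≤ d) :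
    vp i * ph i = Pr d ths m m' n i := by
  unfold Pr
  rw [h.vp_eq i h1 h2, h.ph_eq i h1 h2]

end FNAM

open FNAM

theorem specFNA (hREC : SpecREC) (hYIN : SpecYIN) (hLIN : SpecLIN) (hFWD : SpecFWD)
    (hBWD : SpecBWD) (hUNQ : SpecUNQ) (hQUA : SpecQUA) (hTRI : SpecTRI) (hSOL : SpecSOL) :
    SpecFNA := by
  intro K _ d th ths vp ph hd hp hβ
  have hβ2 : bet ths + 2 ≠ 0 := by
    intro h
    apply hβ
    linear_combination h
  obtain ⟨hInj, hInjs, hnz, hp3, hp4, hRec, hRecs⟩ := (hREC K d th ths vp ph hd).1 hp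
  have hLin := hLIN K (bet ths) d ths hd hβ hRecs hInjs
  have hy := hYIN K (bet ths) d ths hd hβ hRecs hInjs
  obtain ⟨m, m', n, _, hPar⟩ := hFWD K d th ths vp ph hd hLin hp
  have hs02 : ths 0 + ths 1 ≠ ths 1 + ths 2 := by
    have h := hy 1 2 le_rfl (by omega) (by omega) (by omega) (by omega)
    exact h
  have hγ : gam ths = ths 0 - bet ths * ths 1 + ths 2 := rfl
  have hρ : rho ths = ths 0 ^ 2 - bet ths * (ths 0 * ths 1) + ths 1 ^ 2 -
      gam ths * (ths 0 + ths 1) := rfl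
  -- three products
  have three : ∀ (th' vp' ph' : ℕ → K) (m₁ m₁' n₁ : K), Par d ths th' vp' ph' m₁ m₁' n₁ →
      ∀ i j k, 1 ≤ i → i < j → j < k → k ≤ d → vp' i * ph' i = vp i * ph i →
        vp' j * ph' j = vp j * ph j → vp' k * ph' k = vp k * ph k →
        EqI (bet ths) (gam ths) (rho ths) m m' n m₁ m₁' n₁ := by
    intro th' vp' ph' m₁ m₁' n₁ hP i j k hi hij hjk hk ei ej ek
    refine (hTRI K (bet ths) (gam ths) (rho ths) d ths m m' n m₁ m₁' n₁ hβ2 (by omega) hRecs hγ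
      hρ).2 i j k hi (by omega) (by omega) (by omega) (by omega) hk
      (hLin.nz i hi (by omega)) (hLin.nz j (by omega) (by omega)) (hLin.nz k (by omega) hk)
      (hy i j hi (by omega) (by omega) (by omega) (by omega))
      (hy i k hi (by omega) (by omega) hk (by omega))
      (hy j k (by omega) (by omega) (by omega) hk (by omega)) ?_ ?_ ?_
    · rw [← par_prod hP i hi (by omega), ← par_prod hPar i hi (by omega), ei]
    · rw [← par_prod hP j (by omega) (by omega), ← par_prod hPar j (by omega) (by omega), ej]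
    · rw [← par_prod hP k (by omega) hk, ← par_prod hPar k (by omega) hk, ek]
  have back : ∀ (th' vp' ph' : ℕ → K) (m₁ m₁' n₁ : K), Par d ths th' vp' ph' m₁ m₁' n₁ →
      EqI (bet ths) (gam ths) (rho ths) m m' n m₁ m₁' n₁ →
      ∀ i, 1 ≤ i → i ≤ d → vp' i * ph' i = vp i * ph i := by
    intro th' vp' ph' m₁ m₁' n₁ hP hE i hi hid
    rw [par_prod hP i hi hid, par_prod hPar i hi hid]
    exact (hTRI K (bet ths) (gam ths) (rho ths) d ths m m' n m₁ m₁' n₁ hβ2 (by omega) hRecs hγ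
      hρ).1 hE i hi hid
  refine ⟨m, m', n, ?_, ?_, ?_, ?_⟩
  · intro a a' c
    constructor
    · intro h
      exact hUNQ K d th ths vp ph m m' n a a' c hd hInjs hLin.nz hs02 hPar h
    · rintro ⟨rfl, rfl, rfl⟩
      exact hPar
  · intro th' vp' ph'
    constructor
    · rintro ⟨hp', he⟩
      obtain ⟨m₁, m₁', n₁, _, hPar'⟩ := hFWD K d th' ths vp' ph' hd hLin hp'
      exact ⟨hp'.pa1.1, m₁, m₁', n₁, hPar', three th' vp' ph' m₁ m₁' n₁ hPar' 1 2 3 le_rfl
        (by omega) (by omega) hd (he 1 le_rfl (by omega)) (he 2 (by omega) (by omega))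
        (he 3 (by omega) hd)⟩
    · rintro ⟨hI, m₁, m₁', n₁, hPar', hE⟩
      have he := back th' vp' ph' m₁ m₁' n₁ hPar' hE
      refine ⟨hBWD K d th' ths vp' ph' m₁ m₁' n₁ hd hLin hInjs hRecs hPar' hI ?_, he⟩
      intro i hi hid
      have h0 : vp' i * ph' i ≠ 0 := by
        rw [he i hi hid]
        exact mul_ne_zero (hnz i hi hid).1 (hnz i hi hid).2
      exact ⟨left_ne_zero_of_mul h0, right_ne_zero_of_mul h0⟩
  · rintro th' vp' ph' hp' ⟨i, j, k, hi, hij, hjk, hk, ei, ej, ek⟩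
    obtain ⟨m₁, m₁', n₁, _, hPar'⟩ := hFWD K d th' ths vp' ph' hd hLin hp'
    exact ⟨hp', back th' vp' ph' m₁ m₁' n₁ hPar' (three th' vp' ph' m₁ m₁' n₁ hPar' i j k hi hij
      hjk hk ei ej ek)⟩
  · intro h2 m₁ m₁' n₁
    refine hSOL K (bet ths) (gam ths) (rho ths) m m' n m₁ m₁' n₁ h2 hβ2 ?_
    rintro ⟨hb, hg, hr⟩
    have hq := hQUA K (bet ths) (gam ths) (rho ths) d ths hRecs hγ hρ 1 le_rfl (by omega)
    rw [hb, hg, hr] at hq
    have h01 : ths 0 ≠ ths 1 := hInjs 0 1 (by omega) (by omega) (by omega)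
    have h1 : (ths 0 - ths 1) ^ 2 = 0 := by
      have h2 : (2 + 2 : K) * (ths (1 - 1) * ths 1) = (ths (1 - 1) + ths 1) ^ 2 -
          0 * (ths (1 - 1) + ths 1) - 0 := hq
      rw [Nat.sub_self] at h2
      linear_combination (-1 : K) * h2
    exact h01 (sub_eq_zero.1 (pow_eq_zero_iff (two_ne_zero) |>.1 h1))

end Pool.Agent.Lib.MP87d664.LP
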