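import Pool.Agent.Lib.MP_87d664_al.LP.SpecC

/-!
# FNE: `β = -2`, `d` even
-/

set_option autoImplicit false

namespace Pool.Agent.Lib.MP87d664.LP

namespace FNEM

lemma par_prod {K : Type} [Field K] {d : ℕ} {ths th vp ph : ℕ → K} {m m' n : K}
    (h : Par d ths th vp ph m m' n) (i : ℕ) (h1 : 1 ≤ i) (h2 : i ≤ d) :
    vp i * ph i = Pr d ths m m' n i := by
  unfold Pr
  rw [h.vp_eq i h1 h2, h.ph_eq i h1 h2]

end FNEM

open FNEM

theorem specFNE (hREC : SpecREC) (hLNB : SpecLNB) (hFWD : SpecFWD) (hBWD : SpecBWD)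
    (hUNQ : SpecUNQ) (hBSE : SpecBSE) : SpecFNE := by
  intro K _ d th ths vp ph h2 hd hev hp hβ
  obtain ⟨hInj, hInjs, hnz, hp3, hp4, hRec, hRecs⟩ := (hREC K d th ths vp ph hd).1 hp
  have hRec2 : Rec (-2) d ths := by
    rw [← hβ]
    exact hRecs
  have hLin' := hLNB K d ths h2 hd hev hRec2 hInjs
  have hLin : Lin (bet ths) d ths := by
    rw [hβ]
    exact hLin'
  obtain ⟨m, m', n, _, hPar⟩ := hFWD K d th ths vp ph hd hLin hp
  have hs02 : ths 0 + ths 1 ≠ ths 1 + ths 2 := by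
    intro h
    apply hInjs 0 2 (by omega) (by omega) (by omega)
    linear_combination h
  have hb := fun m₁ m₁' n₁ : K => hBSE K d ths m m' n m₁ m₁' n₁ h2 hd hRec2 hInjs hLin.nz
  refine ⟨m, m', n, ?_, ?_⟩
  · intro a a' c
    constructor
    · intro h
      exact hUNQ K d th ths vp ph m m' n a a' c hd hInjs hLin.nz hs02 hPar h
    · rintro ⟨rfl, rfl, rfl⟩
      exact hPar
  · intro th' vp' ph'
    constructor
    · rintro ⟨hp', he⟩
      obtain ⟨m₁, m₁', n₁, _, hPar'⟩ := hFWD K d th' ths vp' ph' hd hLin hp'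
      refine ⟨hp'.pa1.1, m₁, m₁', n₁, hPar', (hb m₁ m₁' n₁).2 ?_ ?_ ?_⟩
      · rw [← par_prod hPar' 1 le_rfl (by omega), ← par_prod hPar 1 le_rfl (by omega),
          he 1 le_rfl (by omega)]
      · rw [← par_prod hPar' 2 (by omega) (by omega), ← par_prod hPar 2 (by omega) (by omega),
          he 2 (by omega) (by omega)]
      · rw [← par_prod hPar' 3 (by omega) hd, ← par_prod hPar 3 (by omega) hd,
          he 3 (by omega) hd]
    · rintro ⟨hI, m₁, m₁', n₁, hPar', hE⟩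
      have he : ∀ i, 1 ≤ i → i ≤ d → vp' i * ph' i = vp i * ph i := by
        intro i hi hid
        rw [par_prod hPar' i hi hid, par_prod hPar i hi hid]
        exact (hb m₁ m₁' n₁).1 hE i hi hid
      refine ⟨hBWD K d th' ths vp' ph' m₁ m₁' n₁ hd hLin hInjs hRecs hPar' hI ?_, he⟩
      intro i hi hid
      have h0 : vp' i * ph' i ≠ 0 := by
        rw [he i hi hid]
        exact mul_ne_zero (hnz i hi hid).1 (hnz i hi hid).2
      exact ⟨left_ne_zero_of_mul h0, right_ne_zero_of_mul h0⟩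

end Pool.Agent.Lib.MP87d664.LP
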