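import Pool.Agent.Lib.MP_87d664_al.LP.SpecC

/-!
# FNO: `β = -2`, `d` odd
-/

set_option autoImplicit false

namespace Pool.Agent.Lib.MP87d664.LP

theorem specFNO (hREC : SpecREC) (hBOF : SpecBOF) (hBOB : SpecBOB) (hBOS : SpecBOS)
    (hBOU : SpecBOU) : SpecFNO := by
  intro K _ d th ths vp ph h2 hd hod hp hβ
  obtain ⟨hInj, hInjs, hnz, hp3, hp4, hRec, hRecs⟩ := (hREC K d th ths vp ph hd).1 hp
  have hRec2 : Rec (-2) d ths := by
    rw [← hβ]
    exact hRecs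
  obtain ⟨e, u, hP⟩ := hBOF K d th ths vp ph h2 hd hod hβ hp
  refine ⟨th 0 - th d, e, u, ?_, ?_⟩
  · intro a' e' u'
    constructor
    · intro h
      exact hBOU K d ths th vp ph _ e u a' e' u' h2 hd hInjs hP h
    · rintro ⟨rfl, rfl, rfl⟩
      exact hP
  · intro th' vp' ph'
    constructor
    · rintro ⟨hp', he⟩
      obtain ⟨e₁, u₁, hP'⟩ := hBOF K d th' ths vp' ph' h2 hd hod hβ hp'
      exact ⟨hp'.pa1.1, _, e₁, u₁, hP', (hBOS K d ths th vp ph th' vp' ph' _ e u _ e₁ u₁ h2 hd hod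
        hRec2 hInjs hP hP').2 (he 1 le_rfl (by omega)) (he 2 (by omega) (by omega))
        (he 3 (by omega) hd)⟩
    · rintro ⟨hI, a₁, e₁, u₁, hP', hL⟩
      have he := (hBOS K d ths th vp ph th' vp' ph' _ e u a₁ e₁ u₁ h2 hd hod
        hRec2 hInjs hP hP').1 hL
      refine ⟨hBOB K d th' ths vp' ph' a₁ e₁ u₁ h2 hd hod hβ hInjs hRec2 hP' hI ?_, he⟩
      intro i hi hid
      have h0 : vp' i * ph' i ≠ 0 := by
        rw [he i hi hid]
        exact mul_ne_zero (hnz i hi hid).1 (hnz i hi hid).2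
      exact ⟨left_ne_zero_of_mul h0, right_ne_zero_of_mul h0⟩

end Pool.Agent.Lib.MP87d664.LP
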