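import Pool.Agent.Lib.MP_87d664_al.LP.Spec

/-!
# Parameter arrays (MP_87d664_al): module FWD
-/

set_option autoImplicit false

namespace Pool.Agent.Lib.MP87d664.LP

namespace FWDM

theorem vt_one {K : Type} [Field K] (d : ℕ) (t : ℕ → K) (h : t 0 ≠ t d) : vt d t 1 = 1 := by
  unfold vt
  rw [Finset.sum_range_one, Nat.sub_zero]
  exact div_self (sub_ne_zero.2 h)

end FWDM

theorem specFWD (hREC : SpecREC) : SpecFWD := by
  intro K _ d th ths vp ph hd hL hp
  obtain ⟨hi1, hi2, hnz, h3, h4, hr1, hr2⟩ := (hREC K d th ths vp ph hd).1 hp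
  have h0d : th 0 ≠ th d := hi1 0 d (Nat.zero_le d) le_rfl (by omega)
  have hs0d : ths 0 ≠ ths d := hi2 0 d (Nat.zero_le d) le_rfl (by omega)
  have hv1 : vt d ths 1 = 1 := FWDM.vt_one d ths hs0d
  obtain ⟨m, m', hmm, hLL⟩ := hL.b th hr1
  have hva : ∀ i, i ≤ d → vt d th i = vt d ths i := hL.a th hr1 h0d
  have hvp : ∀ i, 1 ≤ i → i ≤ d →
      vp i = vt d ths i * (m * ths i + m' * ths (i - 1) + (ph 1 - m' * ths 1 - m * ths 0)) := by
    intro i hi hid
    have h := h3 i hi hid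
    have hl := (hLL i hi hid).1
    unfold L1 at hl
    rw [h, hva i hid, hl]
    ring
  have hvp1 : vp 1 = m * ths 1 + m' * ths 0 + (ph 1 - m' * ths 1 - m * ths 0) := by
    have h := hvp 1 le_rfl (by omega)
    rw [hv1, one_mul, Nat.sub_self] at h
    exact h
  refine ⟨m, m', ph 1 - m' * ths 1 - m * ths 0, hmm, ⟨hvp, ?_, ?_⟩⟩
  · intro i hi hid
    have h := h4 i hi hid
    have hl := (hLL i hi hid).2
    unfold L2 at hl
    rw [h, hva i hid, hl, hvp1]
    ring
  · intro i hi hid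
    have hne : ths i - ths 0 ≠ 0 := sub_ne_zero.2 (hi2 i 0 hid (Nat.zero_le d) (by omega))
    have h := h3 i hi hid
    rw [hva i hid] at h
    have h' : vp i - ph 1 * vt d ths i = (ths i - ths 0) * (th (i - 1) - th d) := by
      rw [h]
      ring
    rw [h', mul_div_cancel_left₀ _ hne]
    ring

end Pool.Agent.Lib.MP87d664.LP
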