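import Pool.Agent.Lib.MP_87d664_al.LP.Spec

/-!
# MP_87d664_al: the linear facts for all parameters (module LIN)
-/

set_option autoImplicit false

namespace Pool.Agent.Lib.MP87d664.LP

namespace LINM

/-- A solution of `q ^ 2 - β q + 1 = 0` in an algebraically closed field. -/
theorem exq {F : Type} [Field F] [IsAlgClosed F] (β : F) (h1 : β ≠ 2) (h2 : β ≠ -2) :
    ∃ q : F, q ≠ 0 ∧ q ≠ 1 ∧ q ≠ -1 ∧ β = q + q⁻¹ := by
  have hdeg : (Polynomial.C (1 : F) * Polynomial.X ^ 2 + Polynomial.C (-β) * Polynomial.X
      + Polynomial.C 1).degree = 2 := Polynomial.degree_quadratic one_ne_zero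
  obtain ⟨q, hq⟩ := IsAlgClosed.exists_root (Polynomial.C (1 : F) * Polynomial.X ^ 2
    + Polynomial.C (-β) * Polynomial.X + Polynomial.C 1) (by rw [hdeg]; decide)
  simp only [Polynomial.IsRoot.def, Polynomial.eval_add, Polynomial.eval_mul, Polynomial.eval_C,
    Polynomial.eval_pow, Polynomial.eval_X] at hq
  have hq0 : q ≠ 0 := by
    rintro rfl
    simp at hq
  refine ⟨q, hq0, ?_, ?_, ?_⟩
  · rintro rfl
    apply h1
    linear_combination -hq
  · rintro rfl
    apply h2
    linear_combination hq
  · field_simp
    linear_combination -hq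

end LINM

open LINM in
/-- **LIN**. -/
theorem specLIN (hLNQ : SpecLNQ) (hLNR : SpecLNR) (hDES : SpecDES) (hYIN : SpecYIN) :
    SpecLIN := by
  intro K _ β d ths hd hβ hrec hinj
  by_cases h2 : β = 2
  · subst h2
    have h20 : (2 : K) ≠ 0 := by
      intro h
      apply hβ
      rw [h, neg_zero]
    exact hLNR K d ths h20 hd hrec hinj
  · set F := AlgebraicClosure K
    set f := algebraMap K F with hf
    have hfi : Function.Injective f := f.injective
    obtain ⟨q, hq0, hq1, hq2, hq⟩ := exq (F := F) (f β)
      (by
        intro h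
        apply h2
        apply hfi
        rw [h, map_ofNat])
      (by
        intro h
        apply hβ
        apply hfi
        rw [h, map_neg, map_ofNat])
    have hrec' : Rec (q + q⁻¹) d (fun i => f (ths i)) := by
      intro i hi
      have := congrArg f (hrec i hi)
      rw [map_sub, map_mul, map_sub, map_add, map_one, hq] at this
      exact this
    have hinj' : Inj d (fun i => f (ths i)) := by
      intro i j hi hj hij h
      exact hinj i j hi hj hij (hfi h)
    have hl := hLNQ F q d (fun i => f (ths i)) hq0 hq1 hq2 hd hrec' hinj'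
    rw [← hq] at hl
    have hy := hYIN K β d ths hd hβ hrec hinj d 1 (by omega) le_rfl le_rfl (by omega) (by omega)
    exact hDES K F β d ths hd hinj (by simpa using hy) hl

end Pool.Agent.Lib.MP87d664.LP
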