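import Pool.Agent.Lib.MP_87d664_al.LP.SpecB

/-!
# LNB: the linear facts, `β = -2`, `d` even
-/

set_option autoImplicit false

namespace Pool.Agent.Lib.MP87d664.LP

namespace LNBM

variable {K : Type} [Field K]

/-- the closed form, by parity -/
lemma par {d : ℕ} {t : ℕ → K} {α b c : K}
    (h : ∀ i, i ≤ d → t i = α + (-1) ^ i * (b + c * (i : K))) :
    (∀ i, i ≤ d → Even i → t i = α + (b + c * (i : K))) ∧
    (∀ i, i ≤ d → Odd i → t i = α - (b + c * (i : K))) := by
  refine ⟨fun i hi he => ?_, fun i hi ho => ?_⟩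
  · rw [h i hi, he.neg_one_pow, one_mul]
  · rw [h i hi, ho.neg_one_pow]
    ring

lemma even_sub {a b : ℕ} (ha : Even a) (hb : Even b) : Even (a - b) := by
  rw [Nat.even_iff] at ha hb ⊢
  omega

/-- the value of `vt` -/
noncomputable def G (d i : ℕ) : K := if Even i then (i : K) / d else ((d : K) - i + 1) / d

lemma vt_eq {d : ℕ} {t : ℕ → K} {α b c : K} (hd : Even d)
    (h : ∀ i, i ≤ d → t i = α + (-1) ^ i * (b + c * (i : K))) (h0 : t 0 ≠ t d) :
    ∀ i, i ≤ d → vt d t i = G d i := by
  obtain ⟨he, ho⟩ := par h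
  have t0 := he 0 (by omega) (by decide)
  have td := he d le_rfl hd
  push_cast at t0
  have hcd : c * (d : K) ≠ 0 := by
    intro hc
    apply h0
    rw [t0, td, hc]
    ring
  have hd0 : (d : K) ≠ 0 := right_ne_zero_of_mul hcd
  have hc0 : c ≠ 0 := left_ne_zero_of_mul hcd
  have h0d : t 0 - t d = -(c * d) := by
    rw [t0, td]; ring
  intro i
  induction i with
  | zero => intro _; simp [vt, G]
  | succ i ih =>
    intro hi
    have h1 : vt d t (i + 1) = vt d t i + (t i - t (d - i)) / (t 0 - t d) := by
      unfold vt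
      rw [Finset.sum_range_succ]
    rw [h1, ih (by omega), h0d]
    rcases Nat.even_or_odd i with hie | hio
    · have hdi : Even (d - i) := even_sub hd hie
      have a1 := he i (by omega) hie
      have a2 := he (d - i) (by omega) hdi
      rw [Nat.cast_sub (by omega)] at a2
      rw [a1, a2]
      unfold G
      rw [if_pos hie, if_neg (Nat.not_even_iff_odd.mpr hie.add_one)]
      push_cast
      field_simp
      ring
    · have hdi : Odd (d - i) := Nat.Even.sub_odd (by omega) hd hio
      have a1 := ho i (by omega) hio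
      have a2 := ho (d - i) (by omega) hdi
      rw [Nat.cast_sub (by omega)] at a2
      rw [a1, a2]
      unfold G
      rw [if_neg (Nat.not_even_iff_odd.mpr hio), if_pos hio.add_one]
      push_cast
      field_simp
      ring

/-- the two linear identities -/
lemma core {d : ℕ} {th ths : ℕ → K} {α b c α' B C m m' : K} (hd : Even d) (hd0 : (d : K) ≠ 0)
    (ht : ∀ i, i ≤ d → th i = α + (-1) ^ i * (b + c * (i : K)))
    (hs : ∀ i, i ≤ d → ths i = α' + (-1) ^ i * (B + C * (i : K)))
    (hv : ∀ i, i ≤ d → vt d ths i = G d i)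
    (hm' : 2 * m' = -(d * (2 * b + c * (d - 1)))) (hm : 2 * m = -(d * (2 * b + c * (d + 1))))
    (h2 : (2 : K) ≠ 0) (hd1 : 1 ≤ d) :
    ∀ i, 1 ≤ i → i ≤ d → L1 d th ths m m' i ∧ L2 d th ths m m' i := by
  obtain ⟨hte, hto⟩ := par ht
  obtain ⟨hse, hso⟩ := par hs
  have s0 := hse 0 (by omega) (by decide)
  have s1 := hso 1 hd1 (by decide)
  have t0 := hte 0 (by omega) (by decide)
  have td := hte d le_rfl hd
  push_cast at s0 s1 t0
  intro i hi hid
  obtain ⟨k, rfl⟩ : ∃ k, i = k + 1 := ⟨i - 1, by omega⟩
  have ek : k + 1 - 1 = k := by omega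
  have edk : d - (k + 1) + 1 = d - k := by omega
  have hmm : m' - m = d * c := by
    apply mul_left_cancel₀ h2
    linear_combination hm' - hm
  unfold L1 L2
  rw [ek, edk, hv (k + 1) hid]
  rcases Nat.even_or_odd k with hke | hko
  · -- `i` odd
    have hio : Odd (k + 1) := hke.add_one
    have hdk : Even (d - k) := even_sub hd hke
    have a1 := hso (k + 1) hid hio
    have a2 := hse k (by omega) hke
    have a3 := hte k (by omega) hke
    have a4 := hte (d - k) (by omega) hdk
    rw [Nat.cast_sub (by omega)] at a4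
    push_cast at a1
    obtain ⟨g, hgd, hg⟩ : ∃ g : K, G d (k + 1) = g ∧ g * d = d - k := by
      refine ⟨_, rfl, ?_⟩
      unfold G
      rw [if_neg (Nat.not_even_iff_odd.mpr hio), div_mul_cancel₀ _ hd0]
      push_cast
      ring
    rw [hgd, a1, a2, a3, a4, s0, s1, t0, td]
    constructor
    · linear_combination (-(g * (2 * B + C * (k + 1)))) * hmm - (2 * B + C * (k + 1)) * c * hg
    · linear_combination (g * (2 * B + C * (k + 1))) * hmm + (2 * B + C * (k + 1)) * c * hg
  · -- `i` even
    have hie : Even (k + 1) := hko.add_one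
    have hdk : Odd (d - k) := Nat.Even.sub_odd (by omega) hd hko
    have a1 := hse (k + 1) hid hie
    have a2 := hso k (by omega) hko
    have a3 := hto k (by omega) hko
    have a4 := hto (d - k) (by omega) hdk
    rw [Nat.cast_sub (by omega)] at a4
    push_cast at a1
    obtain ⟨g, hgd, hg⟩ : ∃ g : K, G d (k + 1) = g ∧ g * d = k + 1 := by
      refine ⟨_, rfl, ?_⟩
      unfold G
      rw [if_pos hie, div_mul_cancel₀ _ hd0]
      push_cast
      ring
    rw [hgd, a1, a2, a3, a4, s0, s1, t0, td]
    constructor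
    · apply mul_left_cancel₀ h2
      linear_combination (-(g * C * (k + 1))) * hm + (g * C * (k - 1)) * hm' +
        C * (4 * b + 2 * c * (d + k)) * hg
    · apply mul_left_cancel₀ h2
      linear_combination (-(g * C * (k + 1))) * hm' + (g * C * (k - 1)) * hm +
        C * (4 * b + 2 * c * (d - k)) * hg

end LNBM

open LNBM in
/-- LNB -/
theorem specLNB (hCLB : SpecCLB) : SpecLNB := by
  intro K _ d ths h2 hd hde hrs hinj
  obtain ⟨α', B, C, hs⟩ := hCLB K d ths h2 (by omega) hrs
  obtain ⟨hse, hso⟩ := par hs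
  have s0 := hse 0 (by omega) (by decide)
  have sd := hse d le_rfl hde
  push_cast at s0
  have hs0d : ths 0 ≠ ths d := hinj 0 d (by omega) le_rfl (by omega)
  have hCd : C * (d : K) ≠ 0 := by
    intro hc
    apply hs0d
    rw [s0, sd, hc]
    ring
  have hd0 : (d : K) ≠ 0 := right_ne_zero_of_mul hCd
  have hv := vt_eq hde hs hs0d
  refine ⟨?_, ?_, ?_, ?_⟩
  · -- (a)
    intro th hrt hth0 i hi
    obtain ⟨α, b, c, ht⟩ := hCLB K d th h2 (by omega) hrt
    rw [hv i hi, vt_eq hde ht hth0 i hi]
  · -- (b)
    intro th hrt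
    obtain ⟨α, b, c, ht⟩ := hCLB K d th h2 (by omega) hrt
    obtain ⟨hte, -⟩ := par ht
    have t0 := hte 0 (by omega) (by decide)
    have td := hte d le_rfl hde
    push_cast at t0
    refine ⟨-(d * (2 * b + c * (d + 1))) / 2, -(d * (2 * b + c * (d - 1))) / 2, ?_, ?_⟩
    · rw [t0, td]
      field_simp
      ring
    · exact core hde hd0 ht hs hv (by field_simp) (by field_simp) h2 (by omega)
  · -- (c)
    intro m m' x
    obtain ⟨c, hcd⟩ : ∃ c : K, c * d = -(m - m') := ⟨-(m - m') / d, div_mul_cancel₀ _ hd0⟩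
    obtain ⟨b, hbd⟩ : ∃ b : K, 2 * b * d = -2 * m' - c * (d - 1) * d :=
      ⟨-m' / d - c * (d - 1) / 2, by field_simp⟩
    refine ⟨fun i => (x - (b + c * d)) + (-1) ^ i * (b + c * (i : K)), ?_, ?_, ?_, ?_⟩
    · intro i _
      have e1 : ((-1 : K)) ^ (i + 3) = -(-1) ^ i := by rw [pow_add]; ring
      have e2 : ((-1 : K)) ^ (i + 1) = -(-1) ^ i := by rw [pow_add]; ring
      have e3 : ((-1 : K)) ^ (i + 2) = (-1) ^ i := by rw [pow_add]; ring
      simp only [e1, e2, e3]
      push_cast
      ring
    · simp only [hde.neg_one_pow]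
      ring
    · simp only [hde.neg_one_pow, pow_zero]
      push_cast
      linear_combination (-1 : K) * hcd
    · refine core (α := x - (b + c * d)) (b := b) (c := c) hde hd0 (fun i _ => rfl) hs hv ?_ ?_ h2
        (by omega)
      · linear_combination hbd
      · linear_combination hbd + 2 * hcd
  · -- (nz)
    intro i hi hid
    rw [hv i hid]
    unfold G
    split_ifs with hie
    · refine div_ne_zero ?_ hd0
      intro h0
      apply hinj i 0 hid (by omega) (by omega)
      rw [hse i hid hie, s0, h0]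
    · refine div_ne_zero ?_ hd0
      intro h0
      have hio : Odd i := Nat.not_even_iff_odd.mp hie
      have hlt : i < d := by
        rcases Nat.lt_or_ge i d with h | h
        · exact h
        · exact absurd hde (by rw [show d = i by omega]; exact hie)
      have hj : Even (d - i + 1) := by
        have : Odd (d - i) := Nat.Even.sub_odd hid hde hio
        exact this.add_one
      apply hinj (d - i + 1) 0 (by omega) (by omega) (by omega)
      rw [hse (d - i + 1) (by omega) hj, s0]
      push_cast [Nat.cast_sub hid]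
      rw [h0]

end Pool.Agent.Lib.MP87d664.LP
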