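import Pool.Agent.Lib.MP_87d664_al.LP.Spec

/-!
# LNQ: the linear facts for `β = q + q⁻¹`
-/

set_option autoImplicit false

namespace Pool.Agent.Lib.MP87d664.LP

namespace LNQM

variable {F : Type} [Field F]

/-- the closed form of `vt` -/
def G (q : F) (d i : ℕ) : F :=
  (1 - q ^ i) * (q * q⁻¹ ^ i - q⁻¹ ^ d) / ((1 - q) * (1 - q⁻¹ ^ d))

theorem ends {q : F} (hq : q ≠ 0) {d : ℕ} {t : ℕ → F} {α b c : F}
    (ht : ∀ i, i ≤ d → t i = α + b * q ^ i + c * q⁻¹ ^ i) :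
    t 0 - t d = (1 - q⁻¹ ^ d) * (c - b * q ^ d) := by
  rw [ht 0 (Nat.zero_le d), ht d le_rfl]
  have h : q⁻¹ ^ d * q ^ d = 1 := by
    rw [← mul_pow, inv_mul_cancel₀ hq, one_pow]
  linear_combination (-b) * h

theorem vt_eq {q : F} (hq : q ≠ 0) (hq1 : q ≠ 1) {d : ℕ} {t : ℕ → F} {α b c : F}
    (ht : ∀ i, i ≤ d → t i = α + b * q ^ i + c * q⁻¹ ^ i) (h0 : t 0 ≠ t d) :
    ∀ i, i ≤ d → vt d t i = G q d i := by
  have he := ends hq ht
  have hne : (1 - q⁻¹ ^ d) * (c - b * q ^ d) ≠ 0 := by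
    rw [← he]
    exact sub_ne_zero.2 h0
  have hR := left_ne_zero_of_mul hne
  have hcb := right_ne_zero_of_mul hne
  have hq1' : 1 - q ≠ 0 := sub_ne_zero.2 (Ne.symm hq1)
  intro i
  induction i with
  | zero =>
    intro _
    simp [vt, G]
  | succ i ih =>
    intro hi
    have hi' : i ≤ d := by omega
    have h1 : vt d t (i + 1) = vt d t i + (t i - t (d - i)) / (t 0 - t d) := by
      unfold vt
      rw [Finset.sum_range_succ]
    have h2 : t i - t (d - i) = (q⁻¹ ^ i - q ^ i * q⁻¹ ^ d) * (c - b * q ^ d) := by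
      rw [ht i hi', ht (d - i) (by omega)]
      obtain ⟨k, hk⟩ : ∃ k, d = i + k := ⟨d - i, by omega⟩
      have hk' : d - i = k := by omega
      rw [hk', hk]
      simp only [pow_add]
      have e1 : q⁻¹ ^ i * q ^ i = 1 := by rw [← mul_pow, inv_mul_cancel₀ hq, one_pow]
      have e2 : q⁻¹ ^ k * q ^ k = 1 := by rw [← mul_pow, inv_mul_cancel₀ hq, one_pow]
      linear_combination (b * q ^ k - b * q ^ i * q⁻¹ ^ k * q ^ k + c * q⁻¹ ^ k) * e1 - b * q ^ i * e2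
    have h3 : (t i - t (d - i)) / (t 0 - t d) = (q⁻¹ ^ i - q ^ i * q⁻¹ ^ d) / (1 - q⁻¹ ^ d) := by
      rw [h2, he, mul_div_mul_right _ _ hcb]
    rw [h1, ih hi', h3]
    unfold G
    rw [div_add_div _ _ (mul_ne_zero hq1' hR) hR, div_eq_div_iff
      (mul_ne_zero (mul_ne_zero hq1' hR) hR) (mul_ne_zero hq1' hR)]
    have e1 : q⁻¹ ^ i * q ^ i = 1 := by rw [← mul_pow, inv_mul_cancel₀ hq, one_pow]
    have e3 : q * q⁻¹ ^ (i + 1) = q⁻¹ ^ i := by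
      rw [pow_succ']
      rw [← mul_assoc, mul_inv_cancel₀ hq, one_mul]
    rw [e3, pow_succ]
    have key : (1 - q ^ i) * (q * q⁻¹ ^ i - q⁻¹ ^ d) + (1 - q) * (q⁻¹ ^ i - q ^ i * q⁻¹ ^ d)
        = (1 - q ^ i * q) * (q⁻¹ ^ i - q⁻¹ ^ d) := by
      ring
    linear_combination ((1 - q) * (1 - q⁻¹ ^ d) ^ 2) * key

theorem core {q : F} (hq : q ≠ 0) (hq1 : q ≠ 1) (hqm : q ≠ -1) {d : ℕ} {ths : ℕ → F} {α' B C : F}
    (hs : ∀ i, i ≤ d → ths i = α' + B * q ^ i + C * q⁻¹ ^ i) (h0 : ths 0 ≠ ths d)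
    {th : ℕ → F} {α b c : F}
    (ht : ∀ i, i ≤ d → th i = α + b * q ^ i + c * q⁻¹ ^ i) {m m' : F}
    (e1 : m + m' * q = c * ((1 - q) * (1 - q⁻¹ ^ d)))
    (e2 : m * q + m' = b * ((1 - q) * (1 - q⁻¹ ^ d)) * q ^ d) :
    m - m' = th 0 - th d ∧
    ∀ i, 1 ≤ i → i ≤ d → L1 d th ths m m' i ∧ L2 d th ths m m' i := by
  have hq1' : 1 - q ≠ 0 := sub_ne_zero.2 (Ne.symm hq1)
  have hqp : 1 + q ≠ 0 := by
    intro h
    apply hqm
    linear_combination h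
  have he := ends hq hs
  have hR : 1 - q⁻¹ ^ d ≠ 0 := by
    have hne : (1 - q⁻¹ ^ d) * (C - B * q ^ d) ≠ 0 := by
      rw [← he]
      exact sub_ne_zero.2 h0
    exact left_ne_zero_of_mul hne
  have hmm : m - m' = th 0 - th d := by
    rw [ends hq ht]
    have h : (1 - q) * (m - m') = (1 - q) * ((1 - q⁻¹ ^ d) * (c - b * q ^ d)) := by
      linear_combination e1 - e2
    exact mul_left_cancel₀ hq1' h
  refine ⟨hmm, fun i hi1 hid => ?_⟩
  obtain ⟨j, rfl⟩ : ∃ j, i = j + 1 := ⟨i - 1, by omega⟩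
  obtain ⟨k, hk⟩ : ∃ k, d = j + 1 + k := ⟨d - (j + 1), by omega⟩
  have hv := vt_eq hq hq1 hs h0 (j + 1) hid
  have f1 : ths (j + 1) - ths 0 = (q ^ j * q - 1) * (B - C * (q⁻¹ ^ j * q⁻¹)) := by
    rw [hs _ hid, hs 0 (Nat.zero_le _), pow_succ, pow_succ]
    have e1 : q⁻¹ ^ j * q ^ j = 1 := by rw [← mul_pow, inv_mul_cancel₀ hq, one_pow]
    have e3 : q⁻¹ * q = 1 := inv_mul_cancel₀ hq
    linear_combination (C * q * q⁻¹) * e1 + C * e3
  have f2 : ths j - ths 1 = (q ^ j - q) * (B - C * (q⁻¹ ^ j * q⁻¹)) := by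
    rw [hs j (by omega), hs 1 (by omega), pow_one, pow_one]
    have e1 : q⁻¹ ^ j * q ^ j = 1 := by rw [← mul_pow, inv_mul_cancel₀ hq, one_pow]
    have e3 : q⁻¹ * q = 1 := inv_mul_cancel₀ hq
    linear_combination (C * q⁻¹) * e1 - C * q⁻¹ ^ j * e3
  have g1 : th j - th d = (q⁻¹ ^ j - q⁻¹ ^ d) * (c - b * q ^ j * q ^ d) := by
    rw [ht j (by omega), ht d le_rfl]
    have e1 : q⁻¹ ^ j * q ^ j = 1 := by rw [← mul_pow, inv_mul_cancel₀ hq, one_pow]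
    have e4 : q⁻¹ ^ d * q ^ d = 1 := by rw [← mul_pow, inv_mul_cancel₀ hq, one_pow]
    linear_combination (b * q ^ d) * e1 - b * q ^ j * e4
  have g2 : th (d - (j + 1) + 1) - th 0 = (q⁻¹ ^ j - q⁻¹ ^ d) * (b * q ^ d - c * q ^ j) := by
    rw [ht _ (by omega), ht 0 (Nat.zero_le _)]
    have hk' : d - (j + 1) + 1 = k + 1 := by omega
    rw [hk', hk]
    simp only [pow_add, pow_one, pow_zero]
    have e1 : q⁻¹ ^ j * q ^ j = 1 := by rw [← mul_pow, inv_mul_cancel₀ hq, one_pow]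
    have e2 : q⁻¹ ^ k * q ^ k = 1 := by rw [← mul_pow, inv_mul_cancel₀ hq, one_pow]
    have e3 : q⁻¹ * q = 1 := inv_mul_cancel₀ hq
    have e5 : (q⁻¹ ^ j * q⁻¹ * q⁻¹ ^ k) * (q ^ j * q * q ^ k) = 1 := by
      calc (q⁻¹ ^ j * q⁻¹ * q⁻¹ ^ k) * (q ^ j * q * q ^ k)
          = (q⁻¹ ^ j * q ^ j) * (q⁻¹ * q) * (q⁻¹ ^ k * q ^ k) := by ring
        _ = 1 := by rw [e1, e2, e3, one_mul, one_mul]
    linear_combination (c - b * q * q ^ k - c * q⁻¹ * q⁻¹ ^ k) * e1 + b * e5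
  have hG : vt d ths (j + 1) * ((1 - q) * (1 - q⁻¹ ^ d))
      = (1 - q ^ j * q) * (q⁻¹ ^ j - q⁻¹ ^ d) := by
    rw [hv]
    unfold G
    rw [div_mul_cancel₀ _ (mul_ne_zero hq1' hR)]
    have e3 : q * q⁻¹ ^ (j + 1) = q⁻¹ ^ j := by
      rw [pow_succ', ← mul_assoc, mul_inv_cancel₀ hq, one_mul]
    rw [e3, pow_succ]
  have hj : j + 1 - 1 = j := by omega
  constructor
  · unfold L1
    rw [hj, f1, f2, g1]
    apply mul_left_cancel₀ (mul_ne_zero (mul_ne_zero hq1' hR) hqp)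
    have k1 : (1 + q) * (m * (q ^ j * q - 1) + m' * (q ^ j - q))
        = -((1 + q) * ((1 - q) * (1 - q⁻¹ ^ d)) * (c - b * q ^ j * q ^ d)) := by
      linear_combination (-(1 + q)) * e1 + ((1 + q) * q ^ j) * e2
    linear_combination (-((1 - q ^ j * q) * (q⁻¹ ^ j - q⁻¹ ^ d) * (B - C * (q⁻¹ ^ j * q⁻¹)))) * k1
      - ((1 + q) * (B - C * (q⁻¹ ^ j * q⁻¹)) * (m * (q ^ j * q - 1) + m' * (q ^ j - q))) * hG
  · unfold L2
    rw [hj, f1, f2, g2]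
    apply mul_left_cancel₀ (mul_ne_zero (mul_ne_zero hq1' hR) hqp)
    have k1 : (1 + q) * (m' * (q ^ j * q - 1) + m * (q ^ j - q))
        = -((1 + q) * ((1 - q) * (1 - q⁻¹ ^ d)) * (b * q ^ d - c * q ^ j)) := by
      linear_combination ((1 + q) * q ^ j) * e1 - (1 + q) * e2
    linear_combination (-((1 - q ^ j * q) * (q⁻¹ ^ j - q⁻¹ ^ d) * (B - C * (q⁻¹ ^ j * q⁻¹)))) * k1
      - ((1 + q) * (B - C * (q⁻¹ ^ j * q⁻¹)) * (m' * (q ^ j * q - 1) + m * (q ^ j - q))) * hG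

end LNQM

open LNQM

theorem specLNQ (hCLQ : SpecCLQ) : SpecLNQ := by
  intro F _ q d ths hq hq1 hqm hd hrec hinj
  have hq1' : 1 - q ≠ 0 := sub_ne_zero.2 (Ne.symm hq1)
  have hqp : 1 + q ≠ 0 := by
    intro h
    apply hqm
    linear_combination h
  obtain ⟨α', B, C, hs⟩ := hCLQ F q d ths hq hq1 hqm (by omega) hrec
  have h0 : ths 0 ≠ ths d := hinj 0 d (Nat.zero_le _) le_rfl (by omega)
  have hpow : ∀ i, 1 ≤ i → i ≤ d → q ^ i ≠ 1 := by
    intro i hi hid h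
    apply hinj 0 i (Nat.zero_le _) hid (by omega)
    have h' : q⁻¹ ^ i = 1 := by rw [inv_pow, h, inv_one]
    rw [hs 0 (Nat.zero_le _), hs i hid, h, h']
    simp
  have hR : 1 - q⁻¹ ^ d ≠ 0 := by
    rw [sub_ne_zero]
    intro h
    apply hpow d (by omega) le_rfl
    have h' : q⁻¹ ^ d * q ^ d = 1 := by rw [← mul_pow, inv_mul_cancel₀ hq, one_pow]
    rw [← h, one_mul] at h'
    exact h'
  have hS : q ^ d ≠ 0 := pow_ne_zero _ hq
  have hRS : q⁻¹ ^ d * q ^ d = 1 := by rw [← mul_pow, inv_mul_cancel₀ hq, one_pow]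
  refine ⟨?_, ?_, ?_, ?_⟩
  · intro th hth hth0 i hi
    obtain ⟨α, b, c, ht⟩ := hCLQ F q d th hq hq1 hqm (by omega) hth
    rw [vt_eq hq hq1 ht hth0 i hi, vt_eq hq hq1 hs h0 i hi]
  · intro th hth
    obtain ⟨α, b, c, ht⟩ := hCLQ F q d th hq hq1 hqm (by omega) hth
    refine ⟨(1 - q⁻¹ ^ d) * (c - b * q ^ d * q) / (1 + q),
      (1 - q⁻¹ ^ d) * (b * q ^ d - c * q) / (1 + q), ?_⟩
    apply core hq hq1 hqm hs h0 ht
    · field_simp
      ring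
    · field_simp
      ring
  · intro m m' x
    let c : F := (m + m' * q) / ((1 - q) * (1 - q⁻¹ ^ d))
    let b : F := (m * q + m') / ((1 - q) * (1 - q⁻¹ ^ d) * q ^ d)
    have hc : m + m' * q = c * ((1 - q) * (1 - q⁻¹ ^ d)) := by
      rw [div_mul_cancel₀ _ (mul_ne_zero hq1' hR)]
    have hb : m * q + m' = b * ((1 - q) * (1 - q⁻¹ ^ d)) * q ^ d := by
      rw [mul_assoc, div_mul_cancel₀ _ (mul_ne_zero (mul_ne_zero hq1' hR) hS)]
    let α : F := x - b * q ^ d - c * q⁻¹ ^ d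
    have ht : ∀ i, i ≤ d → (fun i => α + b * q ^ i + c * q⁻¹ ^ i : ℕ → F) i
        = α + b * q ^ i + c * q⁻¹ ^ i := fun i _ => rfl
    have hcore := core hq hq1 hqm hs h0 ht hc hb
    refine ⟨fun i => α + b * q ^ i + c * q⁻¹ ^ i, ?_, ?_, hcore.1.symm, hcore.2⟩
    · intro i _
      change α + b * q ^ i + c * q⁻¹ ^ i - (α + b * q ^ (i + 3) + c * q⁻¹ ^ (i + 3))
        = (q + q⁻¹ + 1) * (α + b * q ^ (i + 1) + c * q⁻¹ ^ (i + 1)
          - (α + b * q ^ (i + 2) + c * q⁻¹ ^ (i + 2)))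
      have e3 : q⁻¹ * q = 1 := inv_mul_cancel₀ hq
      simp only [pow_add, pow_succ, pow_zero, one_mul]
      linear_combination (-(b * q ^ i * (1 - q)) - c * q⁻¹ ^ i * (1 - q⁻¹)) * e3
    · change α + b * q ^ d + c * q⁻¹ ^ d = x
      simp only [α]
      ring
  · intro i hi hid
    rw [vt_eq hq hq1 hs h0 i hid]
    unfold G
    refine div_ne_zero (mul_ne_zero ?_ ?_) (mul_ne_zero hq1' hR)
    · exact sub_ne_zero.2 (Ne.symm (hpow i hi hid))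
    · rw [sub_ne_zero]
      intro h
      apply hpow (d + 1 - i) (by omega) (by omega)
      have e1 : q⁻¹ ^ i * q ^ i = 1 := by rw [← mul_pow, inv_mul_cancel₀ hq, one_pow]
      have e2 : q ^ (d + 1 - i) * q ^ i = q ^ d * q := by
        rw [← pow_add, ← pow_succ]
        congr 1
        omega
      have hi0 : q ^ i ≠ 0 := pow_ne_zero _ hq
      apply mul_right_cancel₀ hi0
      rw [e2, one_mul]
      have h2 : q * q⁻¹ ^ i * q ^ d * q ^ i = q⁻¹ ^ d * q ^ d * q ^ i := by rw [h]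
      rw [hRS, one_mul] at h2
      rw [← h2]
      linear_combination (-(q * q ^ d)) * e1

end Pool.Agent.Lib.MP87d664.LP
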