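import Pool.Agent.Lib.MP_87d664_al.LP.Spec

/-!
# LNR: the linear facts, `β = 2`
-/

set_option autoImplicit false

namespace Pool.Agent.Lib.MP87d664.LP

namespace LNRM

variable {K : Type} [Field K]

/-- quadratic sequences -/
def Qd (d : ℕ) (t : ℕ → K) (α b c : K) : Prop :=
  ∀ i, i ≤ d → t i = α + b * (i : K) + c * (i : K) ^ 2

lemma vt_eq {d : ℕ} {t : ℕ → K} {α b c : K} (ht : Qd d t α b c) (h0 : t 0 ≠ t d) (i : ℕ)
    (hi : i ≤ d) : (d : K) ≠ 0 ∧ vt d t i = (i : K) * ((d : K) - i + 1) / d := by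
  have e0 : t 0 = α := by
    have h := ht 0 (Nat.zero_le d)
    rw [Nat.cast_zero] at h
    linear_combination h
  have ed := ht d le_rfl
  have hne : (d : K) * (b + c * d) ≠ 0 := by
    intro h
    apply h0
    rw [e0, ed]
    linear_combination -h
  have hd := left_ne_zero_of_mul hne
  have hb := right_ne_zero_of_mul hne
  refine ⟨hd, ?_⟩
  have hden : t 0 - t d = -((d : K) * (b + c * d)) := by
    rw [e0, ed]
    ring
  induction i with
  | zero => simp [vt]
  | succ i ih =>
    have h1 := ih (by omega)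
    have hnum : t i - t (d - i) = (2 * (i : K) - d) * (b + c * d) := by
      rw [ht i (by omega), ht (d - i) (Nat.sub_le d i), Nat.cast_sub (by omega)]
      ring
    unfold vt at h1 ⊢
    rw [Finset.sum_range_succ, h1, hnum, hden]
    clear h1 hnum hden ed e0 ht
    generalize b + c * (d : K) = w at *
    push_cast
    field_simp
    ring

/-- the two linear identities -/
lemma ids {d : ℕ} {th ths : ℕ → K} {α b c α' B C m m' : K} (h2 : (2 : K) ≠ 0)
    (ht : Qd d th α b c) (hs : Qd d ths α' B C) (h0 : ths 0 ≠ ths d)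
    (hm : 2 * m = -((d : K) * (b + c * (d + 1)))) (hm' : 2 * m' = (d : K) * (b + c * (d - 1)))
    (i : ℕ) (hi1 : 1 ≤ i) (hi : i ≤ d) : L1 d th ths m m' i ∧ L2 d th ths m m' i := by
  obtain ⟨hd, hv⟩ := vt_eq hs h0 i hi
  obtain ⟨j, rfl⟩ : ∃ j, i = j + 1 := ⟨i - 1, by omega⟩
  have e1 : th (j + 1 - 1) - th d = ((j : K) - d) * (b + c * (j + d)) := by
    rw [Nat.add_sub_cancel, ht j (by omega), ht d le_rfl]
    ring
  have e2 : ths (j + 1) - ths 0 = ((j : K) + 1) * (B + C * (j + 1)) := by
    rw [hs (j + 1) hi, hs 0 (Nat.zero_le d)]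
    push_cast
    ring
  have e3 : ths (j + 1 - 1) - ths 1 = ((j : K) - 1) * (B + C * (j + 1)) := by
    rw [Nat.add_sub_cancel, hs j (by omega), hs 1 (by omega)]
    push_cast
    ring
  have e4 : th (d - (j + 1) + 1) - th 0 = ((d : K) - j) * (b + c * (d - j)) := by
    have : d - (j + 1) + 1 = d - j := by omega
    rw [this, ht (d - j) (Nat.sub_le d j), ht 0 (Nat.zero_le d), Nat.cast_sub (by omega)]
    push_cast
    ring
  have em : m = -((d : K) * (b + c * (d + 1))) / 2 := by
    rw [← hm]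
    field_simp
  have em' : m' = (d : K) * (b + c * (d - 1)) / 2 := by
    rw [← hm']
    field_simp
  unfold L1 L2
  rw [hv, e1, e2, e3, e4, em, em']
  push_cast
  constructor
  · field_simp
    ring
  · field_simp
    ring

end LNRM

open LNRM in
/-- **LNR** -/
theorem specLNR (hCLR : SpecCLR) : SpecLNR := by
  intro K _ d ths h2 hd hrec hinj
  obtain ⟨α', B, C, hs⟩ := hCLR K d ths h2 (by omega) hrec
  have h0 : ths 0 ≠ ths d := hinj 0 d (Nat.zero_le d) le_rfl (by omega)
  have hdK := (vt_eq hs h0 0 (Nat.zero_le d)).1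
  have hcast : ∀ i : ℕ, 1 ≤ i → i ≤ d → (i : K) ≠ 0 := by
    intro i h1 hi h
    refine hinj i 0 hi (Nat.zero_le d) (by omega) ?_
    rw [hs i hi, hs 0 (Nat.zero_le d), h, Nat.cast_zero]
  refine ⟨?_, ?_, ?_, ?_⟩
  · intro th hth hne i hi
    obtain ⟨α, b, c, ht⟩ := hCLR K d th h2 (by omega) hth
    rw [(vt_eq ht hne i hi).2, (vt_eq hs h0 i hi).2]
  · intro th hth
    obtain ⟨α, b, c, ht⟩ := hCLR K d th h2 (by omega) hth
    refine ⟨-((d : K) * (b + c * (d + 1))) / 2, (d : K) * (b + c * (d - 1)) / 2, ?_, ?_⟩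
    · rw [ht 0 (Nat.zero_le d), ht d le_rfl, Nat.cast_zero]
      field_simp
      ring
    · intro i h1 hi
      exact ids h2 ht hs h0 (mul_div_cancel₀ _ h2) (mul_div_cancel₀ _ h2) i h1 hi
  · intro m m' x
    set c := -(m + m') / (d : K) with hc
    set b := 2 * m' / (d : K) - c * (d - 1) with hb
    set th : ℕ → K := fun i => (x - b * d - c * (d : K) ^ 2) + b * (i : K) + c * (i : K) ^ 2 with hth
    have ht : Qd d th (x - b * d - c * (d : K) ^ 2) b c := fun i _ => rfl
    have hm : 2 * m = -((d : K) * (b + c * (d + 1))) := by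
      rw [hb, hc]
      field_simp
      ring
    have hm' : 2 * m' = (d : K) * (b + c * (d - 1)) := by
      rw [hb, hc]
      field_simp
      ring
    refine ⟨th, ?_, ?_, ?_, fun i h1 hi => ids h2 ht hs h0 hm hm' i h1 hi⟩
    · intro i _
      simp only [hth]
      push_cast
      ring
    · simp only [hth]
      ring
    · have h3 : 2 * (th 0 - th d) = 2 * (m - m') := by
        simp only [hth]
        push_cast
        linear_combination hm' - hm
      exact mul_left_cancel₀ h2 h3
  · intro i h1 hi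
    rw [(vt_eq hs h0 i hi).2]
    have h3 : (d : K) - i + 1 = ((d + 1 - i : ℕ) : K) := by
      rw [Nat.cast_sub (by omega)]
      push_cast
      ring
    rw [h3]
    exact div_ne_zero (mul_ne_zero (hcast i h1 hi) (hcast _ (by omega) (by omega))) hdK

end Pool.Agent.Lib.MP87d664.LP
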