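import Pool.Agent.Lib.MP_87d664_al.LP.SpecC

/-!
# LSJ: for `β = -2`, `d` even, the list `Lse` is `EqJ`
-/

set_option autoImplicit false

namespace Pool.Agent.Lib.MP87d664.LP

theorem lsj (hQUA : SpecQUA) (K : Type) [Field K] (d : ℕ) (ths : ℕ → K) (γ ρ : K)
    (m m' n m₁ m₁' n₁ : K) (h2 : (2 : K) ≠ 0) (hd : 3 ≤ d) (hRec : Rec (-2) d ths)
    (hInj : Inj d ths) (hγ : γ = ths 0 - (-2) * ths 1 + ths 2)
    (hρ : ρ = ths 0 ^ 2 - (-2) * (ths 0 * ths 1) + ths 1 ^ 2 - γ * (ths 0 + ths 1)) :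
    Lse ths (m + m') (2 * n) (m - m') (m₁ + m₁') (2 * n₁) (m₁ - m₁') ↔
      EqJ (-2) γ ρ m m' n m₁ m₁' n₁ := by
  have q1 := hQUA K (-2) γ ρ d ths hRec hγ hρ 1 le_rfl (by omega)
  have q2 := hQUA K (-2) γ ρ d ths hRec hγ hρ 2 (by omega) (by omega)
  have q1' : (ths 0 + ths 1) ^ 2 = γ * (ths 0 + ths 1) + ρ := by
    have h : (-2 + 2 : K) * (ths 0 * ths 1) = (ths 0 + ths 1) ^ 2 - γ * (ths 0 + ths 1) - ρ := q1
    linear_combination (-1 : K) * h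
  have q2' : (ths 1 + ths 2) ^ 2 = γ * (ths 1 + ths 2) + ρ := by
    have h : (-2 + 2 : K) * (ths 1 * ths 2) = (ths 1 + ths 2) ^ 2 - γ * (ths 1 + ths 2) - ρ := q2
    linear_combination (-1 : K) * h
  have hs : ths 0 + ths 1 ≠ ths 1 + ths 2 := by
    intro h
    apply hInj 0 2 (by omega) (by omega) (by omega)
    linear_combination h
  unfold Lse EqJ
  generalize ths 0 + ths 1 = s at *
  generalize ths 1 + ths 2 = t at *
  have h4 : (4 : K) ≠ 0 := by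
    have : (4 : K) = 2 * 2 := by norm_num
    rw [this]
    exact mul_ne_zero h2 h2
  rw [← sq_eq_sq_iff_eq_or_eq_neg, ← sq_eq_sq_iff_eq_or_eq_neg, ← sq_eq_sq_iff_eq_or_eq_neg]
  constructor
  · rintro ⟨ha, h1, h3⟩
    have e1 : (n₁ * (m₁ + m₁') + γ * (m₁ * m₁') - (n * (m + m') + γ * (m * m'))) * s +
        (n₁ ^ 2 + ρ * (m₁ * m₁') - (n ^ 2 + ρ * (m * m'))) = 0 := by
      have : (4 : K) * ((n₁ * (m₁ + m₁') + γ * (m₁ * m₁') - (n * (m + m') + γ * (m * m'))) * s +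
          (n₁ ^ 2 + ρ * (m₁ * m₁') - (n ^ 2 + ρ * (m * m')))) = 0 := by
        linear_combination h1 - (γ * s + ρ) * ha - ((m₁ + m₁') ^ 2 - (m + m') ^ 2) * q1'
      exact (mul_eq_zero.1 this).resolve_left h4
    have e2 : (n₁ * (m₁ + m₁') + γ * (m₁ * m₁') - (n * (m + m') + γ * (m * m'))) * t +
        (n₁ ^ 2 + ρ * (m₁ * m₁') - (n ^ 2 + ρ * (m * m'))) = 0 := by
      have : (4 : K) * ((n₁ * (m₁ + m₁') + γ * (m₁ * m₁') - (n * (m + m') + γ * (m * m'))) * t +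
          (n₁ ^ 2 + ρ * (m₁ * m₁') - (n ^ 2 + ρ * (m * m')))) = 0 := by
        linear_combination h3 - (γ * t + ρ) * ha - ((m₁ + m₁') ^ 2 - (m + m') ^ 2) * q2'
      exact (mul_eq_zero.1 this).resolve_left h4
    have e3 : (n₁ * (m₁ + m₁') + γ * (m₁ * m₁') - (n * (m + m') + γ * (m * m'))) * (s - t) = 0 := by
      linear_combination e1 - e2
    have e4 := (mul_eq_zero.1 e3).resolve_right (sub_ne_zero.2 hs)
    refine ⟨?_, ?_, ?_⟩
    · linear_combination ha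
    · exact sub_eq_zero.1 e4
    · have : n₁ ^ 2 + ρ * (m₁ * m₁') - (n ^ 2 + ρ * (m * m')) = 0 := by
        linear_combination e1 - s * e4
      exact sub_eq_zero.1 this
  · rintro ⟨h1, h3, h5⟩
    refine ⟨?_, ?_, ?_⟩
    · linear_combination h1
    · linear_combination (γ * s + ρ) * h1 + 4 * s * h3 + 4 * h5 +
        ((m₁ + m₁') ^ 2 - (m + m') ^ 2) * q1'
    · linear_combination (γ * t + ρ) * h1 + 4 * t * h3 + 4 * h5 +
        ((m₁ + m₁') ^ 2 - (m + m') ^ 2) * q2'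

end Pool.Agent.Lib.MP87d664.LP
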