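import Pool.Agent.Lib.MP_87d664_al.LP.SpecC

/-!
# MP_87d664_al, module SL2: the equations solved, in every characteristic
-/

set_option autoImplicit false

namespace Pool.Agent.Lib.MP87d664.LP

namespace SL2aux

variable {K : Type} [Field K]

lemma same {m m' n m₁ m₁' n₁ : K} (hN : m₁ * m₁' = m * m') (hP : m₁ + m₁' = m + m')
    (hn : n₁ = n) : Kn m m' n m₁ m₁' n₁ := by
  have h : (m₁ - m) * (m₁ - m') = 0 := by linear_combination m₁ * hP - hN
  rcases mul_eq_zero.1 h with h | h
  · left
    have h1 : m₁ = m := sub_eq_zero.1 h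
    exact ⟨h1, by linear_combination hP - h1, hn⟩
  · right; left
    have h1 : m₁ = m' := sub_eq_zero.1 h
    exact ⟨h1, by linear_combination hP - h1, hn⟩

lemma opp {m m' n m₁ m₁' n₁ : K} (hN : m₁ * m₁' = m * m') (hP : m₁ + m₁' = -(m + m'))
    (hn : n₁ = -n) : Kn m m' n m₁ m₁' n₁ := by
  have h : (m₁ + m) * (m₁ + m') = 0 := by linear_combination m₁ * hP - hN
  rcases mul_eq_zero.1 h with h | h
  · right; right; left
    have h1 : m₁ = -m := eq_neg_of_add_eq_zero_left h
    exact ⟨h1, by linear_combination hP - h1, hn⟩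
  · right; right; right
    have h1 : m₁ = -m' := eq_neg_of_add_eq_zero_left h
    exact ⟨h1, by linear_combination hP - h1, hn⟩

/-- the case of equal products -/
lemma eqN {m m' n m₁ m₁' n₁ : K} (hN : m₁ * m₁' = m * m') (hP : (m₁ + m₁') ^ 2 = (m + m') ^ 2)
    (hn : n₁ ^ 2 = n ^ 2) (hnP : n₁ * (m₁ + m₁') = n * (m + m')) : Kn m m' n m₁ m₁' n₁ := by
  rcases sq_eq_sq_iff_eq_or_eq_neg.1 hP with hP | hP <;>
    rcases sq_eq_sq_iff_eq_or_eq_neg.1 hn with hn | hn
  · exact same hN hP hn
  · have h2 : (2 : K) * (n * (m + m')) = 0 := by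
      rw [hP, hn] at hnP
      linear_combination -hnP
    rcases mul_eq_zero.1 h2 with h | h
    · exact same hN hP (by linear_combination hn - n * h)
    · rcases mul_eq_zero.1 h with h | h
      · exact same hN hP (by linear_combination hn - 2 * h)
      · exact opp hN (by linear_combination hP + 2 * h) hn
  · have h2 : (2 : K) * (n * (m + m')) = 0 := by
      rw [hP, hn] at hnP
      linear_combination -hnP
    rcases mul_eq_zero.1 h2 with h | h
    · exact same hN (by linear_combination hP - (m + m') * h) hn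
    · rcases mul_eq_zero.1 h with h | h
      · exact opp hN hP (by linear_combination hn + 2 * h)
      · exact same hN (by linear_combination hP - 2 * h) hn
  · exact opp hN hP hn

end SL2aux

open SL2aux in
theorem specSL2 : SpecSL2 := by
  intro K _ β γ ρ m m' n m₁ m₁' n₁
  constructor
  · rintro ⟨e1, e2, e3⟩
    have a1 : (m₁ + m₁') ^ 2 = m ^ 2 + β * (m * m') + m' ^ 2 - (β - 2) * (m₁ * m₁') := by
      linear_combination e1
    have a2 : n₁ * (m₁ + m₁') = n * (m + m') + γ * (m * m') - γ * (m₁ * m₁') := by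
      linear_combination e2
    have a3 : n₁ ^ 2 = n ^ 2 + ρ * (m * m') - ρ * (m₁ * m₁') := by
      linear_combination e3
    have key : (m₁ * m₁' - m * m') *
        (Del β γ ρ * (m * m' + m₁ * m₁') - LL β γ ρ m m' n) = 0 := by
      unfold Del LL
      linear_combination (-(m ^ 2 + β * (m * m') + m' ^ 2 - (β - 2) * (m₁ * m₁'))) * a3
        - n₁ ^ 2 * a1 + (n₁ * (m₁ + m₁') + (n * (m + m') + γ * (m * m') - γ * (m₁ * m₁'))) * a2
    rcases mul_eq_zero.1 key with h | h
    · left
      have hN : m₁ * m₁' = m * m' := sub_eq_zero.1 h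
      refine eqN hN ?_ ?_ ?_
      · rw [a1, hN]; ring
      · rw [a3, hN]; ring
      · rw [a2, hN]; ring
    · right
      exact ⟨sub_eq_zero.1 h, a1, a2, a3⟩
  · rintro (h | ⟨-, a1, a2, a3⟩)
    · rcases h with ⟨rfl, rfl, rfl⟩ | ⟨rfl, rfl, rfl⟩ | ⟨rfl, rfl, rfl⟩ | ⟨rfl, rfl, rfl⟩ <;>
        refine ⟨?_, ?_, ?_⟩ <;> ring
    · exact ⟨by linear_combination a1, by linear_combination a2, by linear_combination a3⟩

end Pool.Agent.Lib.MP87d664.LP
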