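import Pool.Agent.Lib.MP_87d664_al.LP.SpecB

/-!
# MP_87d664_al, module SMA: the diameters `0`, `1`, `2`
-/

set_option autoImplicit false

namespace Pool.Agent.Lib.MP87d664.LP

namespace SMAM

variable {K : Type} [Field K]

lemma vt11 {t : ℕ → K} (h : t 0 ≠ t 1) : vt 1 t 1 = 1 := by
  have h' : t 0 - t 1 ≠ 0 := sub_ne_zero.2 h
  simp [vt, h']

lemma vt21 {t : ℕ → K} (h : t 0 ≠ t 2) : vt 2 t 1 = 1 := by
  have h' : t 0 - t 2 ≠ 0 := sub_ne_zero.2 h
  simp [vt, h']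

lemma vt22 {t : ℕ → K} (h : t 0 ≠ t 2) : vt 2 t 2 = 1 := by
  have h' : t 0 - t 2 ≠ 0 := sub_ne_zero.2 h
  simp [vt, Finset.sum_range_succ, h']

lemma zero (th ths vp ph : ℕ → K) : PArray 0 th ths vp ph := by
  refine ⟨⟨?_, ?_⟩, ?_, ?_, ?_, 0, ?_⟩
  · intro i j hi hj hij
    omega
  · intro i j hi hj hij
    omega
  · intro i h1 h2
    omega
  · intro i h1 h2
    omega
  · intro i h1 h2
    omega
  · intro i h1 h2
    omega

lemma one (th ths vp ph : ℕ → K) (hI : Inj 1 ths) :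
    PArray 1 th ths vp ph ↔ vp 1 ≠ 0 ∧ ph 1 ≠ 0 ∧ vp 1 ≠ ph 1 ∧
      th 0 - th 1 = (vp 1 - ph 1) / (ths 1 - ths 0) := by
  have hs : ths 1 - ths 0 ≠ 0 := sub_ne_zero.2 (hI 1 0 le_rfl (by norm_num) (by norm_num))
  constructor
  · intro h
    obtain ⟨a1, a2⟩ := h.pa2 1 le_rfl le_rfl
    have h3 := h.pa3 1 le_rfl le_rfl
    have ht : th 0 ≠ th 1 := h.pa1.1 0 1 (by norm_num) le_rfl (by norm_num)
    rw [vt11 ht, mul_one] at h3
    have h3' : vp 1 = ph 1 + (ths 1 - ths 0) * (th 0 - th 1) := h3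
    have e : th 0 - th 1 = (vp 1 - ph 1) / (ths 1 - ths 0) := by
      rw [eq_div_iff hs]
      linear_combination -h3'
    refine ⟨a1, a2, ?_, e⟩
    intro h4
    rw [h4, sub_self, zero_div] at e
    exact ht (sub_eq_zero.1 e)
  · rintro ⟨a1, a2, a3, e⟩
    have ht : th 0 ≠ th 1 := by
      intro h4
      rw [h4, sub_self] at e
      have := div_ne_zero (sub_ne_zero.2 a3) hs
      exact this e.symm
    rw [eq_div_iff hs] at e
    refine ⟨⟨?_, hI⟩, ?_, ?_, ?_, 0, ?_⟩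
    · intro i j hi hj hij
      rcases (by omega : i = 0 ∧ j = 1 ∨ i = 1 ∧ j = 0) with ⟨rfl, rfl⟩ | ⟨rfl, rfl⟩
      · exact ht
      · exact ht.symm
    · intro i h1 h2
      obtain rfl : i = 1 := by omega
      exact ⟨a1, a2⟩
    · intro i h1 h2
      obtain rfl : i = 1 := by omega
      rw [vt11 ht, mul_one]
      show vp 1 = ph 1 + (ths 1 - ths 0) * (th 0 - th 1)
      linear_combination -e
    · intro i h1 h2
      obtain rfl : i = 1 := by omega
      rw [vt11 ht, mul_one]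
      show ph 1 = vp 1 + (ths 1 - ths 0) * (th 1 - th 0)
      linear_combination e
    · intro i h1 h2
      omega

lemma two (th ths vp ph : ℕ → K) (hI : Inj 2 ths) :
    PArray 2 th ths vp ph ↔ Inj 2 th ∧ vp 1 ≠ 0 ∧ ph 1 ≠ 0 ∧ vp 2 ≠ 0 ∧ ph 2 ≠ 0 ∧
      th 0 - th 2 = (vp 1 - ph 1) / (ths 1 - ths 0) ∧
      th 1 - th 2 = (vp 2 - ph 1) / (ths 2 - ths 0) ∧
      (vp 2 - ph 2) / (ths 2 - ths 1) = (vp 1 - ph 1) / (ths 1 - ths 0) := by
  have s1 : ths 1 - ths 0 ≠ 0 := sub_ne_zero.2 (hI 1 0 (by norm_num) (by norm_num) (by norm_num))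
  have s2 : ths 2 - ths 0 ≠ 0 := sub_ne_zero.2 (hI 2 0 le_rfl (by norm_num) (by norm_num))
  have s3 : ths 2 - ths 1 ≠ 0 := sub_ne_zero.2 (hI 2 1 le_rfl (by norm_num) (by norm_num))
  constructor
  · intro h
    obtain ⟨a1, a2⟩ := h.pa2 1 le_rfl (by norm_num)
    obtain ⟨b1, b2⟩ := h.pa2 2 (by norm_num) le_rfl
    have ht : th 0 ≠ th 2 := h.pa1.1 0 2 (by norm_num) le_rfl (by norm_num)
    have h31 := h.pa3 1 le_rfl (by norm_num)
    have h32 := h.pa3 2 (by norm_num) le_rfl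
    have h42 := h.pa4 2 (by norm_num) le_rfl
    rw [vt21 ht, mul_one] at h31
    rw [vt22 ht, mul_one] at h32 h42
    have h31' : vp 1 = ph 1 + (ths 1 - ths 0) * (th 0 - th 2) := h31
    have h32' : vp 2 = ph 1 + (ths 2 - ths 0) * (th 1 - th 2) := h32
    have h42' : ph 2 = vp 1 + (ths 2 - ths 0) * (th 1 - th 0) := h42
    refine ⟨h.pa1.1, a1, a2, b1, b2, ?_, ?_, ?_⟩
    · rw [eq_div_iff s1]
      linear_combination -h31'
    · rw [eq_div_iff s2]
      linear_combination -h32'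
    · have e1 : (vp 1 - ph 1) / (ths 1 - ths 0) = th 0 - th 2 := by
        rw [div_eq_iff s1]
        linear_combination h31'
      rw [e1, div_eq_iff s3]
      linear_combination h32' - h42' - h31'
  · rintro ⟨hJ, a1, a2, b1, b2, e1, e2, e3⟩
    have ht : th 0 ≠ th 2 := hJ 0 2 (by norm_num) le_rfl (by norm_num)
    rw [← e1, div_eq_iff s3] at e3
    rw [eq_div_iff s1] at e1
    rw [eq_div_iff s2] at e2
    refine ⟨⟨hJ, hI⟩, ?_, ?_, ?_, 0, ?_⟩
    · intro i h1 h2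
      rcases (by omega : i = 1 ∨ i = 2) with rfl | rfl
      · exact ⟨a1, a2⟩
      · exact ⟨b1, b2⟩
    · intro i h1 h2
      rcases (by omega : i = 1 ∨ i = 2) with rfl | rfl
      · rw [vt21 ht, mul_one]
        show vp 1 = ph 1 + (ths 1 - ths 0) * (th 0 - th 2)
        linear_combination -e1
      · rw [vt22 ht, mul_one]
        show vp 2 = ph 1 + (ths 2 - ths 0) * (th 1 - th 2)
        linear_combination -e2
    · intro i h1 h2
      rcases (by omega : i = 1 ∨ i = 2) with rfl | rfl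
      · rw [vt21 ht, mul_one]
        show ph 1 = vp 1 + (ths 1 - ths 0) * (th 2 - th 0)
        linear_combination e1
      · rw [vt22 ht, mul_one]
        show ph 2 = vp 1 + (ths 2 - ths 0) * (th 1 - th 0)
        linear_combination e1 - e2 - e3
    · intro i h1 h2
      omega

end SMAM

theorem specSMA : SpecSMA := fun K _ th ths vp ph =>
  ⟨SMAM.zero th ths vp ph, SMAM.one th ths vp ph, SMAM.two th ths vp ph⟩

end Pool.Agent.Lib.MP87d664.LP
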