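import Pool.Agent.Lib.MP_87d664_al.LP.Spec

/-!
# MP_87d664: module SOL. The equations solved, characteristic not two.
-/

set_option autoImplicit false

namespace Pool.Agent.Lib.MP87d664.LP

namespace SOLM

variable {K : Type} [Field K]

/-- the three equations without denominators -/
def E3 (β γ ρ A B a A₁ B₁ a₁ : K) : Prop :=
  (β + 2) * (A₁ ^ 2 - A ^ 2) = (β - 2) * (a₁ ^ 2 - a ^ 2) ∧
  (β + 2) * (A₁ * B₁ - A * B) = 2 * γ * (a₁ ^ 2 - a ^ 2) ∧
  (β + 2) * (B₁ ^ 2 - B ^ 2) = 4 * ρ * (a₁ ^ 2 - a ^ 2)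

theorem four_ne (h2 : (2 : K) ≠ 0) : (4 : K) ≠ 0 := by
  have : (4 : K) = 2 * 2 := by norm_num
  rw [this]
  exact mul_ne_zero h2 h2

theorem eqI_iff (β γ ρ m m' n m₁ m₁' n₁ : K) (h2 : (2 : K) ≠ 0) (hβ : β + 2 ≠ 0) :
    EqI β γ ρ m m' n m₁ m₁' n₁ ↔
      E3 β γ ρ (m + m') (2 * n) (m - m') (m₁ + m₁') (2 * n₁) (m₁ - m₁') := by
  have h4 := four_ne h2
  have hinv : (β + 2) * (β + 2)⁻¹ = 1 := mul_inv_cancel₀ hβ
  unfold EqI E3
  simp only [div_eq_mul_inv]
  constructor
  · rintro ⟨e1, e2, e3⟩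
    refine ⟨?_, ?_, ?_⟩
    · linear_combination 4 * (β + 2) * e1 - 4 * ((m₁ - m₁') ^ 2 - (m - m') ^ 2) * hinv
    · linear_combination 2 * (β + 2) * e2 + 2 * γ * ((m₁ - m₁') ^ 2 - (m - m') ^ 2) * hinv
    · linear_combination 4 * (β + 2) * e3 + 4 * ρ * ((m₁ - m₁') ^ 2 - (m - m') ^ 2) * hinv
  · rintro ⟨e1, e2, e3⟩
    refine ⟨?_, ?_, ?_⟩
    · refine mul_left_cancel₀ (mul_ne_zero h4 hβ) ?_
      linear_combination e1 + 4 * ((m₁ - m₁') ^ 2 - (m - m') ^ 2) * hinv
    · refine mul_left_cancel₀ (mul_ne_zero h2 hβ) ?_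
      linear_combination e2 - 2 * γ * ((m₁ - m₁') ^ 2 - (m - m') ^ 2) * hinv
    · refine mul_left_cancel₀ (mul_ne_zero h4 hβ) ?_
      linear_combination e3 - 4 * ρ * ((m₁ - m₁') ^ 2 - (m - m') ^ 2) * hinv

theorem back (β γ ρ A B a A₁ B₁ a₁ : K) (h2 : (2 : K) ≠ 0) (hβ : β + 2 ≠ 0)
    (h : Lst β γ ρ A B a A₁ B₁ a₁) : E3 β γ ρ A B a A₁ B₁ a₁ := by
  have h4 := four_ne h2
  rcases h with ⟨ha, hAB⟩ | ⟨hb, e, e', hee, s1, s2, s3, s4, s5⟩ | ⟨hb, hg, hAB, hd⟩ | ⟨hb, e, s1, s2, s3, s4, s5⟩ |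
    ⟨hb, hg, hA, hA1, hB⟩
  · rcases ha with rfl | rfl <;> rcases hAB with ⟨rfl, rfl⟩ | ⟨rfl, rfl⟩ <;>
      refine ⟨?_, ?_, ?_⟩ <;> ring
  · have hb' : β - 2 ≠ 0 := sub_ne_zero.2 hb
    have he' : e - e' ≠ 0 := sub_ne_zero.2 hee
    have p1 : (A₁ ^ 2 - A ^ 2) * e ^ 2 + 2 * (A₁ * B₁ - A * B) * e + (B₁ ^ 2 - B ^ 2) = 0 := by
      linear_combination (A₁ * e + B₁ + (A * e + B)) * s3
    have p2 : (A₁ ^ 2 - A ^ 2) * e' ^ 2 + 2 * (A₁ * B₁ - A * B) * e' + (B₁ ^ 2 - B ^ 2) = 0 := by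
      linear_combination (A₁ * e' + B₁ - (A * e' + B)) * s4
    have q1 : 2 * (A₁ * B₁ - A * B) = -((A₁ ^ 2 - A ^ 2) * (e + e')) := by
      refine mul_left_cancel₀ he' ?_
      linear_combination p1 - p2
    have q2 : B₁ ^ 2 - B ^ 2 = (A₁ ^ 2 - A ^ 2) * (e * e') := by
      linear_combination p1 - e * q1
    refine ⟨s5.symm, ?_, ?_⟩
    · refine mul_left_cancel₀ (mul_ne_zero h2 hb') ?_
      linear_combination (β - 2) * (β + 2) * q1 - (β + 2) * (A₁ ^ 2 - A ^ 2) * s1 - 4 * γ * s5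
    · refine mul_left_cancel₀ hb' ?_
      linear_combination (β - 2) * (β + 2) * q2 + (β + 2) * (A₁ ^ 2 - A ^ 2) * s2 - 4 * ρ * s5
  · subst hb
    have hg2 : γ ^ 2 ≠ 0 := pow_ne_zero 2 hg
    have hd' : (a₁ ^ 2 - a ^ 2) * γ ^ 2 = 4 * A * (A * ρ - B * γ) := by
      rw [hd, div_mul_cancel₀ _ hg2]
    have hr : 2 * A * ρ / γ * γ = 2 * A * ρ := div_mul_cancel₀ _ hg
    set r := 2 * A * ρ / γ with hrdef
    rcases hAB with ⟨rfl, rfl⟩ | ⟨rfl, rfl⟩
    · refine ⟨by ring, ?_, ?_⟩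
      · refine mul_left_cancel₀ hg ?_
        linear_combination 4 * A * hr - 2 * hd'
      · refine mul_left_cancel₀ hg2 ?_
        linear_combination (4 * (r * γ - 2 * B * γ + 2 * A * ρ)) * hr - 4 * ρ * hd'
    · refine ⟨by ring, ?_, ?_⟩
      · refine mul_left_cancel₀ hg ?_
        linear_combination 4 * A₁ * hr - 2 * hd'
      · refine mul_left_cancel₀ hg2 ?_
        linear_combination (4 * (r * γ - 2 * B * γ + 2 * A₁ * ρ)) * hr - 4 * ρ * hd'
  · have hb' : β - 2 ≠ 0 := sub_ne_zero.2 hb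
    have t1 : (β - 2) * e = -(2 * γ) := by
      refine mul_left_cancel₀ h2 ?_
      linear_combination s1
    have eB : B = -(A * e) := by linear_combination s3
    have eB1 : B₁ = -(A₁ * e) := by linear_combination s4
    subst eB
    subst eB1
    refine ⟨s5.symm, ?_, ?_⟩
    · refine mul_left_cancel₀ hb' ?_
      linear_combination -(β + 2) * (A₁ ^ 2 - A ^ 2) * t1 - 2 * γ * s5
    · refine mul_left_cancel₀ hb' ?_
      linear_combination (β + 2) * (A₁ ^ 2 - A ^ 2) * s2 - 4 * ρ * s5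
  · subst hb
    subst hg
    subst hA
    subst hA1
    refine ⟨by ring, by ring, ?_⟩
    linear_combination 4 * hB

theorem forw (β γ ρ A B a A₁ B₁ a₁ : K) (h2 : (2 : K) ≠ 0) (hβ : β + 2 ≠ 0) (hR : ¬ (β = 2 ∧ γ = 0 ∧ ρ = 0))
    (h : E3 β γ ρ A B a A₁ B₁ a₁) : Lst β γ ρ A B a A₁ B₁ a₁ := by
  have h4 := four_ne h2
  obtain ⟨e1, e2, e3⟩ := h
  have k1 : (β + 2) * ((A₁ - A) * (A₁ + A)) = (β - 2) * (a₁ ^ 2 - a ^ 2) := by linear_combination e1
  have k2 : (β + 2) * ((A₁ - A) * (B₁ + B) + (A₁ + A) * (B₁ - B)) = 4 * γ * (a₁ ^ 2 - a ^ 2) := by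
    linear_combination 2 * e2
  have k3 : (β + 2) * ((B₁ - B) * (B₁ + B)) = 4 * ρ * (a₁ ^ 2 - a ^ 2) := by linear_combination e3
  by_cases hδ : a₁ ^ 2 - a ^ 2 = 0
  · -- (T)
    left
    rw [hδ, mul_zero] at k1 k2 k3
    have j1 := (mul_eq_zero.1 k1).resolve_left hβ
    have j2 := (mul_eq_zero.1 k2).resolve_left hβ
    have j3 := (mul_eq_zero.1 k3).resolve_left hβ
    refine ⟨?_, ?_⟩
    · have : (a₁ - a) * (a₁ + a) = 0 := by linear_combination hδ
      rcases mul_eq_zero.1 this with h | h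
      · left
        exact sub_eq_zero.1 h
      · right
        exact eq_neg_of_add_eq_zero_left h
    · by_cases hU : A₁ - A = 0
      · by_cases hV : B₁ - B = 0
        · left
          exact ⟨sub_eq_zero.1 hU, sub_eq_zero.1 hV⟩
        · right
          have hV' := (mul_eq_zero.1 j3).resolve_left hV
          rw [hU, zero_mul, zero_add] at j2
          have hU' := (mul_eq_zero.1 j2).resolve_right hV
          exact ⟨eq_neg_of_add_eq_zero_left hU', eq_neg_of_add_eq_zero_left hV'⟩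
      · right
        have hU' := (mul_eq_zero.1 j1).resolve_left hU
        rw [hU', zero_mul, add_zero] at j2
        have hV' := (mul_eq_zero.1 j2).resolve_left hU
        exact ⟨eq_neg_of_add_eq_zero_left hU', eq_neg_of_add_eq_zero_left hV'⟩
  · by_cases hb : β = 2
    · subst hb
      have hz : (2 : K) - 2 = 0 := sub_self 2
      rw [hz, zero_mul] at k1
      have j1 := (mul_eq_zero.1 k1).resolve_left hβ
      have e4 : (2 : K) + 2 = 4 := by norm_num
      by_cases hg : γ = 0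
      · -- (K)
        right; right; right; right
        have hρ : ρ ≠ 0 := fun h => hR ⟨rfl, hg, h⟩
        rw [hg, mul_zero, zero_mul] at k2
        have j2 := (mul_eq_zero.1 k2).resolve_left hβ
        have hne : (B₁ - B) * (B₁ + B) ≠ 0 := by
          intro h0
          rw [h0, mul_zero] at k3
          exact mul_ne_zero (mul_ne_zero h4 hρ) hδ k3.symm
        have hV : B₁ - B ≠ 0 := left_ne_zero_of_mul hne
        have hV' : B₁ + B ≠ 0 := right_ne_zero_of_mul hne
        have hUU : A₁ - A = 0 ∧ A₁ + A = 0 := by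
          rcases mul_eq_zero.1 j1 with h | h
          · refine ⟨h, ?_⟩
            rw [h, zero_mul, zero_add] at j2
            exact (mul_eq_zero.1 j2).resolve_right hV
          · refine ⟨?_, h⟩
            rw [h, zero_mul, add_zero] at j2
            exact (mul_eq_zero.1 j2).resolve_right hV'
        have hA : A = 0 := by
          refine mul_left_cancel₀ h2 ?_
          linear_combination hUU.2 - hUU.1
        have hA1 : A₁ = 0 := by
          refine mul_left_cancel₀ h2 ?_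
          linear_combination hUU.2 + hUU.1
        refine ⟨rfl, hg, hA, hA1, ?_⟩
        refine mul_left_cancel₀ h4 ?_
        linear_combination k3
      · -- (R)
        right; right; left
        refine ⟨rfl, hg, ?_⟩
        have j3 : (B₁ - B) * (B₁ + B) = ρ * (a₁ ^ 2 - a ^ 2) := by
          refine mul_left_cancel₀ h4 ?_
          linear_combination k3
        have j2 : (A₁ - A) * (B₁ + B) + (A₁ + A) * (B₁ - B) = γ * (a₁ ^ 2 - a ^ 2) := by
          refine mul_left_cancel₀ h4 ?_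
          linear_combination k2
        have hg2 : γ ^ 2 ≠ 0 := pow_ne_zero 2 hg
        rcases mul_eq_zero.1 j1 with h | h
        · have hA : A₁ = A := sub_eq_zero.1 h
          subst hA
          have m1 : γ * (B₁ + B) = 2 * A₁ * ρ := by
            refine mul_left_cancel₀ hδ ?_
            linear_combination -(B₁ + B) * j2 + 2 * A₁ * j3
          have hB : B₁ = -(B - 2 * A₁ * ρ / γ) := by
            refine mul_left_cancel₀ hg ?_
            have hr : γ * (2 * A₁ * ρ / γ) = 2 * A₁ * ρ := mul_div_cancel₀ _ hg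
            linear_combination m1 - hr
          refine ⟨Or.inr ⟨rfl, hB⟩, ?_⟩
          rw [eq_div_iff hg2]
          linear_combination -γ * j2 + 2 * A₁ * m1
        · have hA : A₁ = -A := eq_neg_of_add_eq_zero_left h
          subst hA
          have m1 : γ * (B₁ - B) = -(2 * A * ρ) := by
            refine mul_left_cancel₀ hδ ?_
            linear_combination -(B₁ - B) * j2 - 2 * A * j3
          have hB : B₁ = B - 2 * A * ρ / γ := by
            refine mul_left_cancel₀ hg ?_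
            have hr : γ * (2 * A * ρ / γ) = 2 * A * ρ := mul_div_cancel₀ _ hg
            linear_combination m1 + hr
          refine ⟨Or.inl ⟨rfl, hB⟩, ?_⟩
          rw [eq_div_iff hg2]
          linear_combination -γ * j2 - 2 * A * m1
    · have hb' : β - 2 ≠ 0 := sub_ne_zero.2 hb
      have hUU : (A₁ - A) * (A₁ + A) ≠ 0 := by
        intro h0
        rw [h0, mul_zero] at k1
        exact mul_ne_zero hb' hδ k1.symm
      have hU : A₁ - A ≠ 0 := left_ne_zero_of_mul hUU
      have hU' : A₁ + A ≠ 0 := right_ne_zero_of_mul hUU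
      obtain ⟨e, he⟩ : ∃ e : K, (A₁ - A) * e = -(B₁ - B) :=
        ⟨-(B₁ - B) / (A₁ - A), mul_div_cancel₀ _ hU⟩
      obtain ⟨e', he'⟩ : ∃ e' : K, (A₁ + A) * e' = -(B₁ + B) :=
        ⟨-(B₁ + B) / (A₁ + A), mul_div_cancel₀ _ hU'⟩
      have hsum : (β - 2) * (e + e') = -(4 * γ) := by
        refine mul_left_cancel₀ hδ ?_
        -- (β-2) δ (e + e') = (β+2) U U' (e + e') = - (β+2) (V U' + V' U) = - 4 γ δ
        linear_combination -(e + e') * k1 + (β + 2) * (A₁ + A) * he + (β + 2) * (A₁ - A) * he' - k2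
      have hprod : (β - 2) * (e * e') = 4 * ρ := by
        refine mul_left_cancel₀ hδ ?_
        linear_combination -(e * e') * k1 + (β + 2) * (A₁ + A) * e' * he - (β + 2) * (B₁ - B) * he' + k3
      by_cases hee : e = e'
      · -- (D)
        subst hee
        right; right; right; left
        refine ⟨hb, e, hsum, hprod, ?_, ?_, e1.symm⟩
        · refine mul_left_cancel₀ h2 ?_
          linear_combination he' - he
        · refine mul_left_cancel₀ h2 ?_
          linear_combination he' + he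
      · -- (S)
        right; left
        refine ⟨hb, e, e', hee, hsum, hprod, ?_, ?_, e1.symm⟩
        · linear_combination he
        · linear_combination he'

end SOLM

open SOLM in
theorem specSOL : SpecSOL := by
  intro K _ β γ ρ m m' n m₁ m₁' n₁ h2 hβ hR
  rw [eqI_iff β γ ρ m m' n m₁ m₁' n₁ h2 hβ]
  exact ⟨forw _ _ _ _ _ _ _ _ _ h2 hβ hR, back _ _ _ _ _ _ _ _ _ h2 hβ⟩

end Pool.Agent.Lib.MP87d664.LP
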