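import Pool.Agent.Lib.MP_87d664_al.LP.SpecC

/-!
# THR: the first three products are enough
-/

set_option autoImplicit false

namespace Pool.Agent.Lib.MP87d664.LP

namespace THRM

lemma par_prod {K : Type} [Field K] {d : ℕ} {ths th vp ph : ℕ → K} {m m' n : K}
    (h : Par d ths th vp ph m m' n) (i : ℕ) (h1 : 1 ≤ i) (h2 : i ≤ d) :
    vp i * ph i = Pr d ths m m' n i := by
  unfold Pr
  rw [h.vp_eq i h1 h2, h.ph_eq i h1 h2]

end THRM

open THRM

theorem specTHR (hFNA : SpecFNA) (hREC : SpecREC) (hLNB : SpecLNB) (hFWD : SpecFWD)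
    (hBSE : SpecBSE) (hBOF : SpecBOF) (hBOS : SpecBOS) (hORP : SpecORP) : SpecTHR := by
  intro K _ d th ths vp ph th' vp' ph' hd hp hp' e1 e2 e3
  by_cases hβ : bet ths = -2
  · obtain ⟨hInj, hInjs, hnz, hp3, hp4, hRec, hRecs⟩ := (hREC K d th ths vp ph hd).1 hp
    by_cases h2 : (2 : K) = 0
    · obtain ⟨hd3, _, _⟩ := hORP K d th ths vp ph th' vp' ph' h2 hd hβ hp
      intro i hi hid
      have h : i = 1 ∨ i = 2 ∨ i = 3 := by omega
      rcases h with rfl | rfl | rfl
      · exact e1
      · exact e2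
      · exact e3
    · have hRec2 : Rec (-2) d ths := by
        rw [← hβ]
        exact hRecs
      rcases Nat.even_or_odd d with he | ho
      · have hLin' := hLNB K d ths h2 hd he hRec2 hInjs
        have hLin : Lin (bet ths) d ths := by
          rw [hβ]
          exact hLin'
        obtain ⟨m, m', n, _, hPar⟩ := hFWD K d th ths vp ph hd hLin hp
        obtain ⟨m₁, m₁', n₁, _, hPar'⟩ := hFWD K d th' ths vp' ph' hd hLin hp'
        obtain ⟨hb1, hb2⟩ := hBSE K d ths m m' n m₁ m₁' n₁ h2 hd hRec2 hInjs hLin.nz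
        have hL := hb2
          (by rw [← par_prod hPar' 1 le_rfl (by omega), ← par_prod hPar 1 le_rfl (by omega), e1])
          (by rw [← par_prod hPar' 2 (by omega) (by omega),
                ← par_prod hPar 2 (by omega) (by omega), e2])
          (by rw [← par_prod hPar' 3 (by omega) hd, ← par_prod hPar 3 (by omega) hd, e3])
        intro i hi hid
        rw [par_prod hPar' i hi hid, par_prod hPar i hi hid]
        exact hb1 hL i hi hid
      · obtain ⟨e, u, hP⟩ := hBOF K d th ths vp ph h2 hd ho hβ hp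
        obtain ⟨e₁, u₁, hP'⟩ := hBOF K d th' ths vp' ph' h2 hd ho hβ hp'
        obtain ⟨hb1, hb2⟩ := hBOS K d ths th vp ph th' vp' ph' _ e u _ e₁ u₁ h2 hd ho hRec2 hInjs
          hP hP'
        exact hb1 (hb2 e1 e2 e3)
  · obtain ⟨m, m', n, _, _, h3, _⟩ := hFNA K d th ths vp ph hd hp hβ
    exact (h3 th' vp' ph' hp' ⟨1, 2, 3, le_rfl, by omega, by omega, hd, e1, e2, e3⟩).2

end Pool.Agent.Lib.MP87d664.LP
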