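import Pool.Agent.Lib.MP_87d664_al.LP.Spec

/-!
# MP_87d664_al: the products as values of a quadratic polynomial (module TRI)
-/

set_option autoImplicit false

namespace Pool.Agent.Lib.MP87d664.LP

namespace TRIM

variable {K : Type} [Field K]

theorem prd (β γ ρ m m' n x x' : K) (hβ : β + 2 ≠ 0)
    (h : (β + 2) * (x * x') = (x + x') ^ 2 - γ * (x + x') - ρ) :
    (m * x' + m' * x + n) * (m' * x' + m * x + n)
      = (m * m' + (m - m') ^ 2 / (β + 2)) * (x + x') ^ 2
        + (n * (m + m') - (m - m') ^ 2 * γ / (β + 2)) * (x + x')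
        + (n ^ 2 - (m - m') ^ 2 * ρ / (β + 2)) := by
  field_simp
  linear_combination (m - m') ^ 2 * h

theorem quad (a b c x y z : K) (hxy : x ≠ y) (hxz : x ≠ z) (hyz : y ≠ z)
    (h1 : a * x ^ 2 + b * x + c = 0) (h2 : a * y ^ 2 + b * y + c = 0)
    (h3 : a * z ^ 2 + b * z + c = 0) : a = 0 ∧ b = 0 ∧ c = 0 := by
  have e1 : a * (x + y) + b = 0 := by
    have : (x - y) * (a * (x + y) + b) = 0 := by linear_combination h1 - h2
    rcases mul_eq_zero.1 this with h | h
    · exact absurd (sub_eq_zero.1 h) hxy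
    · exact h
  have e2 : a * (x + z) + b = 0 := by
    have : (x - z) * (a * (x + z) + b) = 0 := by linear_combination h1 - h3
    rcases mul_eq_zero.1 this with h | h
    · exact absurd (sub_eq_zero.1 h) hxz
    · exact h
  have e3 : a = 0 := by
    have : (y - z) * a = 0 := by linear_combination e1 - e2
    rcases mul_eq_zero.1 this with h | h
    · exact absurd (sub_eq_zero.1 h) hyz
    · exact h
  have e4 : b = 0 := by
    rw [e3] at e1
    linear_combination e1
  refine ⟨e3, e4, ?_⟩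
  rw [e3, e4] at h1
  linear_combination h1

end TRIM

open TRIM in
/-- **TRI**. -/
theorem specTRI (hQUA : SpecQUA) : SpecTRI := by
  intro K _ β γ ρ d ths m m' n m₁ m₁' n₁ hβ hd hrec hγ hρ
  have hq := hQUA K β γ ρ d ths hrec hγ hρ
  have hform : ∀ (a a' b : K) (i : ℕ), 1 ≤ i → i ≤ d → Pr d ths a a' b i
      = vt d ths i ^ 2 * ((a * a' + (a - a') ^ 2 / (β + 2)) * (ths (i - 1) + ths i) ^ 2
        + (b * (a + a') - (a - a') ^ 2 * γ / (β + 2)) * (ths (i - 1) + ths i)
        + (b ^ 2 - (a - a') ^ 2 * ρ / (β + 2))) := by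
    intro a a' b i hi hi'
    rw [← prd β γ ρ a a' b (ths (i - 1)) (ths i) hβ (hq i hi hi')]
    unfold Pr
    ring
  constructor
  · rintro ⟨h1, h2, h3⟩ i hi hi'
    rw [hform _ _ _ i hi hi', hform _ _ _ i hi hi', h1, h2, h3]
  · intro i j k hi hi' hj hj' hk hk' hvi hvj hvk hij hik hjk h1 h2 h3
    have key : ∀ l, 1 ≤ l → l ≤ d → vt d ths l ≠ 0 → Pr d ths m₁ m₁' n₁ l = Pr d ths m m' n l →
        ((m₁ * m₁' + (m₁ - m₁') ^ 2 / (β + 2)) - (m * m' + (m - m') ^ 2 / (β + 2)))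
            * (ths (l - 1) + ths l) ^ 2
          + ((n₁ * (m₁ + m₁') - (m₁ - m₁') ^ 2 * γ / (β + 2))
            - (n * (m + m') - (m - m') ^ 2 * γ / (β + 2))) * (ths (l - 1) + ths l)
          + ((n₁ ^ 2 - (m₁ - m₁') ^ 2 * ρ / (β + 2)) - (n ^ 2 - (m - m') ^ 2 * ρ / (β + 2)))
          = 0 := by
      intro l hl hl' hv h
      rw [hform _ _ _ l hl hl', hform _ _ _ l hl hl'] at h
      have h' := mul_left_cancel₀ (pow_ne_zero 2 hv) h
      linear_combination h'
    obtain ⟨e1, e2, e3⟩ := quad _ _ _ _ _ _ hij hik hjk (key i hi hi' hvi h1)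
      (key j hj hj' hvj h2) (key k hk hk' hvk h3)
    exact ⟨sub_eq_zero.1 e1, sub_eq_zero.1 e2, sub_eq_zero.1 e3⟩

end Pool.Agent.Lib.MP87d664.LP
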