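import Pool.Agent.Lib.MP_87d664_al.LP.Spec

/-!
# Parameter arrays (MP_87d664_al): module UNQ
-/

set_option autoImplicit false

namespace Pool.Agent.Lib.MP87d664.LP

namespace UNQM

theorem vt_one {K : Type} [Field K] (d : ℕ) (t : ℕ → K) (h : t 0 ≠ t d) : vt d t 1 = 1 := by
  unfold vt
  rw [Finset.sum_range_one, Nat.sub_zero]
  exact div_self (sub_ne_zero.2 h)

end UNQM

theorem specUNQ : SpecUNQ := by
  intro K _ d th ths vp ph m m' n m₁ m₁' n₁ hd hinj hnz hy h h₁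
  have h01 : ths 0 ≠ ths 1 := hinj 0 1 (Nat.zero_le d) (by omega) (by omega)
  have hv1 := h.vp_eq 1 le_rfl (by omega)
  have hv1' := h₁.vp_eq 1 le_rfl (by omega)
  have hp1 := h.ph_eq 1 le_rfl (by omega)
  have hp1' := h₁.ph_eq 1 le_rfl (by omega)
  have hv2 := h.vp_eq 2 (by omega) (by omega)
  have hv2' := h₁.vp_eq 2 (by omega) (by omega)
  have n1 := hnz 1 le_rfl (by omega)
  have n2 := hnz 2 (by omega) (by omega)
  have e1 : m * ths 1 + m' * ths 0 + n = m₁ * ths 1 + m₁' * ths 0 + n₁ :=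
    mul_left_cancel₀ n1 (hv1.symm.trans hv1')
  have e2 : m' * ths 1 + m * ths 0 + n = m₁' * ths 1 + m₁ * ths 0 + n₁ :=
    mul_left_cancel₀ n1 (hp1.symm.trans hp1')
  have e3 : m * ths 2 + m' * ths 1 + n = m₁ * ths 2 + m₁' * ths 1 + n₁ :=
    mul_left_cancel₀ n2 (hv2.symm.trans hv2')
  have hs : (m - m₁) = (m' - m₁') := by
    have h1 : ((m - m₁) - (m' - m₁')) * (ths 0 - ths 1) = 0 := by linear_combination e2 - e1
    have h2 := (mul_eq_zero.1 h1).resolve_right (sub_ne_zero.2 h01)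
    exact sub_eq_zero.1 h2
  have hs0 : m - m₁ = 0 := by
    have h1 : (m - m₁) * ((ths 0 + ths 1) - (ths 1 + ths 2)) = 0 := by
      linear_combination e1 - e3 + (ths 0 - ths 1) * hs
    exact (mul_eq_zero.1 h1).resolve_right (sub_ne_zero.2 hy)
  have hs1 : m' - m₁' = 0 := hs ▸ hs0
  refine ⟨(sub_eq_zero.1 hs0).symm, (sub_eq_zero.1 hs1).symm, ?_⟩
  linear_combination -e1 + ths 1 * hs0 + ths 0 * hs1

end Pool.Agent.Lib.MP87d664.LP
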