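import Pool.Agent.Lib.MP_87d664_al.LP.Spec

/-!
# Parameter arrays (MP_87d664_al): the module YIN, the numbers `y_i` are different
-/

set_option autoImplicit false

namespace Pool.Agent.Lib.MP87d664.LP

namespace YINM

theorem rat_case {K : Type} [Field K] (d : ℕ) (ths : ℕ → K) (h2 : (2 : K) ≠ 0)
    (hI : Inj d ths) (α b c : K)
    (hc : ∀ i, i ≤ d → ths i = α + b * (i : K) + c * (i : K) ^ 2) (i j : ℕ) (hj : j + 1 ≤ d)
    (hij : i < j) : ths i + ths (i + 1) ≠ ths j + ths (j + 1) := by
  intro h
  have h1 : ths i ≠ ths (j + 1) := hI i (j + 1) (by omega) hj (by omega)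
  have h3 : ths (i + 1) ≠ ths (j + 1) := hI (i + 1) (j + 1) (by omega) hj (by omega)
  rw [hc i (by omega), hc (i + 1) (by omega), hc j (by omega), hc (j + 1) hj] at h
  rw [hc i (by omega), hc (j + 1) hj] at h1
  rw [hc (i + 1) (by omega), hc (j + 1) hj] at h3
  push_cast at h h1 h3
  have hA : b + c * ((i : K) + j + 1) ≠ 0 := by
    intro h0
    apply h1
    linear_combination ((i : K) - j - 1) * h0
  have hB : (i : K) - j ≠ 0 := by
    intro h0
    apply h3
    linear_combination (b + c * ((i : K) + j + 2)) * h0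
  have : 2 * ((i : K) - j) * (b + c * ((i : K) + j + 1)) = 0 := by
    linear_combination h
  exact mul_ne_zero (mul_ne_zero h2 hB) hA this

theorem q_case {F : Type} [Field F] (q : F) (d : ℕ) (t : ℕ → F) (h0 : q ≠ 0) (hm : q ≠ -1)
    (hI : Inj d t) (α b c : F) (hc : ∀ i, i ≤ d → t i = α + b * q ^ i + c * q⁻¹ ^ i)
    (i j : ℕ) (hj : j + 1 ≤ d) (hij : i < j) : t i + t (i + 1) ≠ t j + t (j + 1) := by
  intro h
  have h1 : t i ≠ t (j + 1) := hI i (j + 1) (by omega) hj (by omega)
  have h3 : t (i + 1) ≠ t (j + 1) := hI (i + 1) (j + 1) (by omega) hj (by omega)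
  rw [hc i (by omega), hc (i + 1) (by omega), hc j (by omega), hc (j + 1) hj] at h
  rw [hc i (by omega), hc (j + 1) hj] at h1
  rw [hc (i + 1) (by omega), hc (j + 1) hj] at h3
  simp only [pow_succ, inv_pow] at h h1 h3
  have hX : q ^ i ≠ 0 := pow_ne_zero _ h0
  have hY : q ^ j ≠ 0 := pow_ne_zero _ h0
  generalize q ^ i = X at *
  generalize q ^ j = Y at *
  have hA : b - c * (X⁻¹ * Y⁻¹ * q⁻¹) ≠ 0 := by
    intro h4
    apply h1
    have e1 : X⁻¹ - Y⁻¹ * q⁻¹ = -(X - Y * q) * (X⁻¹ * Y⁻¹ * q⁻¹) := by
      field_simp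
      ring
    linear_combination (X - Y * q) * h4 + c * e1
  have hB : X - Y ≠ 0 := by
    intro h4
    apply h3
    have : X = Y := sub_eq_zero.mp h4
    rw [this]
  have hC : 1 + q ≠ 0 := by
    intro h4
    apply hm
    linear_combination h4
  have e2 : X⁻¹ + X⁻¹ * q⁻¹ - (Y⁻¹ + Y⁻¹ * q⁻¹) = -((1 + q) * (X - Y)) * (X⁻¹ * Y⁻¹ * q⁻¹) := by
    field_simp
    ring
  have : (1 + q) * (X - Y) * (b - c * (X⁻¹ * Y⁻¹ * q⁻¹)) = 0 := by
    linear_combination h - c * e2
  exact mul_ne_zero (mul_ne_zero hC hB) hA this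

theorem exists_q (K : Type) [Field K] (β : K) :
    ∃ q : AlgebraicClosure K, q ^ 2 - algebraMap K _ β * q + 1 = 0 := by
  obtain ⟨q, hq⟩ := IsAlgClosed.exists_root
    (Polynomial.X ^ 2 - Polynomial.C (algebraMap K (AlgebraicClosure K) β) * Polynomial.X + 1)
    (by
      have : (Polynomial.X ^ 2 - Polynomial.C (algebraMap K (AlgebraicClosure K) β) *
        Polynomial.X + 1 : Polynomial (AlgebraicClosure K)).degree = 2 := by compute_degree!
      rw [this]
      decide)
  refine ⟨q, ?_⟩
  simpa [Polynomial.IsRoot] using hq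

end YINM

theorem specYIN (hCLQ : SpecCLQ) (hCLR : SpecCLR) : SpecYIN := by
  intro K _ β d ths hd hβ hR hI
  have key : ∀ i j, i < j → j + 1 ≤ d → ths i + ths (i + 1) ≠ ths j + ths (j + 1) := by
    intro i j hij hj
    by_cases h2 : β = 2
    · subst h2
      have h20 : (2 : K) ≠ 0 := by
        intro h
        apply hβ
        linear_combination 2 * h
      obtain ⟨α, b, c, hc⟩ := hCLR K d ths h20 (by omega) hR
      exact YINM.rat_case d ths h20 hI α b c hc i j hj hij
    · obtain ⟨q, hq⟩ := YINM.exists_q K β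
      set f := algebraMap K (AlgebraicClosure K) with hf
      have hfi : Function.Injective f := (algebraMap K (AlgebraicClosure K)).injective
      have q0 : q ≠ 0 := by
        rintro rfl
        simp at hq
      have q1 : q ≠ 1 := by
        rintro rfl
        apply h2
        apply hfi
        rw [map_ofNat]
        linear_combination -hq
      have qm : q ≠ -1 := by
        rintro rfl
        apply hβ
        apply hfi
        rw [map_neg, map_ofNat]
        linear_combination hq
      have hb : f β = q + q⁻¹ := by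
        field_simp
        linear_combination -hq
      have hR' : Rec (q + q⁻¹) d (fun i => f (ths i)) := by
        intro i hi
        have := congrArg f (hR i hi)
        rw [map_sub, map_mul, map_add, map_sub, map_one, hb] at this
        exact this
      have hI' : Inj d (fun i => f (ths i)) := fun i j hi hj hne h => hI i j hi hj hne (hfi h)
      obtain ⟨α, b, c, hc⟩ := hCLQ _ q d _ q0 q1 qm (by omega) hR'
      have := YINM.q_case q d _ q0 qm hI' α b c hc i j hj hij
      intro h
      apply this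
      have h' := congrArg f h
      rw [map_add, map_add] at h'
      exact h'
  intro i j hi hid hj hjd hij
  obtain ⟨i, rfl⟩ : ∃ i', i = i' + 1 := ⟨i - 1, by omega⟩
  obtain ⟨j, rfl⟩ : ∃ j', j = j' + 1 := ⟨j - 1, by omega⟩
  simp only [Nat.add_sub_cancel]
  rcases lt_or_gt_of_ne (fun h : i = j => hij (by rw [h])) with h | h
  · exact key i j h hjd
  · exact (key j i h hid).symm

end Pool.Agent.Lib.MP87d664.LP
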