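import Pool.Agent.Lib.MP_87d664_al.LP.REC
import Pool.Agent.Lib.MP_87d664_al.LP.CLQ
import Pool.Agent.Lib.MP_87d664_al.LP.CLR
import Pool.Agent.Lib.MP_87d664_al.LP.LNQ
import Pool.Agent.Lib.MP_87d664_al.LP.LNR
import Pool.Agent.Lib.MP_87d664_al.LP.DES
import Pool.Agent.Lib.MP_87d664_al.LP.YIN
import Pool.Agent.Lib.MP_87d664_al.LP.LIN
import Pool.Agent.Lib.MP_87d664_al.LP.FWD
import Pool.Agent.Lib.MP_87d664_al.LP.BWD
import Pool.Agent.Lib.MP_87d664_al.LP.UNQ
import Pool.Agent.Lib.MP_87d664_al.LP.QUA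
import Pool.Agent.Lib.MP_87d664_al.LP.TRI
import Pool.Agent.Lib.MP_87d664_al.LP.SOL
import Pool.Agent.Lib.MP_87d664_al.LP.FNA
import Pool.Agent.Lib.MP_87d664_al.LP.CLB
import Pool.Agent.Lib.MP_87d664_al.LP.LNB
import Pool.Agent.Lib.MP_87d664_al.LP.BSE
import Pool.Agent.Lib.MP_87d664_al.LP.BOV
import Pool.Agent.Lib.MP_87d664_al.LP.BOF
import Pool.Agent.Lib.MP_87d664_al.LP.BOB
import Pool.Agent.Lib.MP_87d664_al.LP.BOS
import Pool.Agent.Lib.MP_87d664_al.LP.BOU
import Pool.Agent.Lib.MP_87d664_al.LP.ORP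
import Pool.Agent.Lib.MP_87d664_al.LP.SMA
import Pool.Agent.Lib.MP_87d664_al.LP.EQJ
import Pool.Agent.Lib.MP_87d664_al.LP.SL2
import Pool.Agent.Lib.MP_87d664_al.LP.CN8
import Pool.Agent.Lib.MP_87d664_al.LP.FNE
import Pool.Agent.Lib.MP_87d664_al.LP.FNO
import Pool.Agent.Lib.MP_87d664_al.LP.THR
import Pool.Agent.Lib.MP_87d664_al.LP.LSJ

/-!
# MP_87d664_al: the theorems without hypotheses
-/

set_option autoImplicit false

namespace Pool.Agent.Lib.MP87d664.LP

theorem yin : SpecYIN := specYIN specCLQ specCLR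

theorem lin : SpecLIN := specLIN (specLNQ specCLQ) (specLNR specCLR) specDES yin

theorem fwd : SpecFWD := specFWD specREC

theorem bwd : SpecBWD := specBWD specREC

theorem fna : SpecFNA :=
  specFNA specREC yin lin fwd bwd specUNQ specQUA (specTRI specQUA) specSOL

theorem lnb : SpecLNB := specLNB specCLB

theorem bse : SpecBSE := specBSE specCLB

theorem bov : SpecBOV := specBOV specCLB

theorem bof : SpecBOF := specBOF specREC specCLB bov

theorem bob : SpecBOB := specBOB specREC specCLB bov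

theorem bos : SpecBOS := specBOS specCLB

theorem bou : SpecBOU := specBOU

theorem orp : SpecORP := specORP specREC

theorem fne : SpecFNE := specFNE specREC lnb fwd bwd specUNQ bse

theorem fno : SpecFNO := specFNO specREC bof bob bos bou

theorem thr : SpecTHR := specTHR fna specREC lnb fwd bse bof bos orp

theorem cn8 : SpecCN8 := specCN8 specSL2

/-- `β ≠ -2`, or `d` even. -/
theorem caseI (K : Type) [Field K] (d : ℕ) (th ths vp ph : ℕ → K) (hd : 3 ≤ d)
    (hp : PArray d th ths vp ph) (h : bet ths ≠ -2 ∨ Even d) :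
    ∃ m m' n : K, (∀ a a' c, Par d ths th vp ph a a' c ↔ a = m ∧ a' = m' ∧ c = n) ∧
      (∀ th' vp' ph' : ℕ → K, Sol d ths vp ph th' vp' ph' ↔
        Inj d th' ∧ ∃ m₁ m₁' n₁ : K, Par d ths th' vp' ph' m₁ m₁' n₁ ∧
          EqJ (bet ths) (gam ths) (rho ths) m m' n m₁ m₁' n₁) := by
  by_cases hβ : bet ths = -2
  · have hev : Even d := h.resolve_left (fun h' => h' hβ)
    have h2 : (2 : K) ≠ 0 := by
      intro h2
      obtain ⟨h3, _⟩ := orp K d th ths vp ph th vp ph h2 hd hβ hp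
      rw [h3] at hev
      exact absurd hev (by decide)
    obtain ⟨hInj, hInjs, hnz, hp3, hp4, hRec, hRecs⟩ := (specREC K d th ths vp ph hd).1 hp
    have hRec2 : Rec (-2) d ths := by
      rw [← hβ]
      exact hRecs
    obtain ⟨m, m', n, hu, hS⟩ := fne K d th ths vp ph h2 hd hev hp hβ
    refine ⟨m, m', n, hu, ?_⟩
    have key : ∀ m₁ m₁' n₁ : K,
        Lse ths (m + m') (2 * n) (m - m') (m₁ + m₁') (2 * n₁) (m₁ - m₁') ↔
          EqJ (bet ths) (gam ths) (rho ths) m m' n m₁ m₁' n₁ := by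
      intro m₁ m₁' n₁
      rw [lsj specQUA K d ths (gam ths) (rho ths) m m' n m₁ m₁' n₁ h2 hd hRec2 hInjs
        (by unfold gam; rw [hβ]) (by unfold rho; rw [hβ]), hβ]
    intro th' vp' ph'
    rw [hS th' vp' ph']
    simp only [key]
  · obtain ⟨m, m', n, hu, hS, _, _⟩ := fna K d th ths vp ph hd hp hβ
    have hβ2 : bet ths + 2 ≠ 0 := by
      intro h
      apply hβ
      linear_combination h
    refine ⟨m, m', n, hu, ?_⟩
    intro th' vp' ph'
    rw [hS th' vp' ph']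
    have key : ∀ m₁ m₁' n₁ : K, EqI (bet ths) (gam ths) (rho ths) m m' n m₁ m₁' n₁ ↔
        EqJ (bet ths) (gam ths) (rho ths) m m' n m₁ m₁' n₁ := fun m₁ m₁' n₁ =>
      specEQJ K (bet ths) (gam ths) (rho ths) m m' n m₁ m₁' n₁ hβ2
    simp only [key]

end Pool.Agent.Lib.MP87d664.LP
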