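import Pool.Agent.Lib.MP_87d664_al.LP.SpecB

/-!
# LP, module ORP: characteristic two, `β = 0`
-/

set_option autoImplicit false

namespace Pool.Agent.Lib.MP87d664.LP

namespace ORPM

variable {K : Type} [Field K]

lemma vt1 {t : ℕ → K} (h : t 0 ≠ t 3) : vt 3 t 1 = 1 := by
  have h0 : t 0 - t 3 ≠ 0 := sub_ne_zero.2 h
  simp only [vt, Finset.sum_range_succ, Finset.sum_range_zero, zero_add, Nat.sub_zero]
  exact div_self h0

lemma vt2 (h2 : (2 : K) = 0) {t : ℕ → K} (h : t 0 ≠ t 3) (e : t 0 - t 3 = t 1 - t 2) :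
    vt 3 t 2 = 0 := by
  have h0 : t 0 - t 3 ≠ 0 := sub_ne_zero.2 h
  have h1 : vt 3 t 2 = (t 0 - t 3) / (t 0 - t 3) + (t 1 - t 2) / (t 0 - t 3) := by
    simp [vt, Finset.sum_range_succ]
  rw [h1, ← e, div_self h0]
  linear_combination h2

lemma vt3 (h2 : (2 : K) = 0) {t : ℕ → K} (h : t 0 ≠ t 3) (e : t 0 - t 3 = t 1 - t 2) :
    vt 3 t 3 = 1 := by
  have h0 : t 0 - t 3 ≠ 0 := sub_ne_zero.2 h
  have h1 : vt 3 t 3 = (t 0 - t 3) / (t 0 - t 3) + (t 1 - t 2) / (t 0 - t 3)
      + (t 2 - t 1) / (t 0 - t 3) := by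
    simp [vt, Finset.sum_range_succ]
  have h3 : (t 2 - t 1) / (t 0 - t 3) = -1 := by
    rw [div_eq_iff h0]
    linear_combination e
  rw [h1, h3, ← e, div_self h0]
  ring

lemma arr (hREC : SpecREC) (h2 : (2 : K) = 0) {ths : ℕ → K} (hb0 : bet ths = 0)
    (hI : Inj 3 ths) (hR : Rec (bet ths) 3 ths) (t v p : ℕ → K) :
    PArray 3 t ths v p ↔ Inj 3 t ∧ (∀ i, 1 ≤ i → i ≤ 3 → v i ≠ 0 ∧ p i ≠ 0) ∧
      t 3 = t 0 + t 1 + t 2 ∧ v 1 = p 1 + (ths 1 - ths 0) * (t 1 - t 2) ∧
      v 2 = (ths 2 - ths 0) * (t 0 - t 2) ∧ p 2 = (ths 2 - ths 0) * (t 0 - t 2) ∧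
      v 3 = p 1 + (ths 3 - ths 0) * (t 0 - t 1) ∧
      p 3 = v 1 + (ths 3 - ths 0) * (t 0 - t 1) := by
  rw [hREC K 3 t ths v p le_rfl]
  constructor
  · rintro ⟨j1, j2, j3, j4, j5, j6, j7⟩
    have e : t 0 - t 3 = t 1 - t 2 := by
      have := j6 0 (by omega)
      simpa [hb0] using this
    have hne : t 0 ≠ t 3 := j1 0 3 (by omega) (by omega) (by omega)
    have a1 := j4 1 (by omega) (by omega)
    have a2 := j4 2 (by omega) (by omega)
    have a3 := j4 3 (by omega) (by omega)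
    have b2 := j5 2 (by omega) (by omega)
    have b3 := j5 3 (by omega) (by omega)
    rw [vt1 hne, show (1 : ℕ) - 1 = 0 from rfl] at a1
    rw [vt2 h2 hne e, show (2 : ℕ) - 1 = 1 from rfl] at a2
    rw [vt3 h2 hne e, show (3 : ℕ) - 1 = 2 from rfl] at a3
    rw [vt2 h2 hne e, show (3 : ℕ) - 2 + 1 = 2 from rfl] at b2
    rw [vt3 h2 hne e, show (3 : ℕ) - 3 + 1 = 1 from rfl] at b3
    refine ⟨j1, j3, ?_, ?_, ?_, ?_, ?_, ?_⟩
    · linear_combination (-1) * e - t 1 * h2
    · linear_combination a1 + (ths 1 - ths 0) * e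
    · linear_combination a2 - (ths 2 - ths 0) * e - (ths 2 - ths 0) * (t 3 - t 2) * h2
    · linear_combination b2 + (ths 2 - ths 0) * (t 2 - t 0) * h2
    · linear_combination a3 + (ths 3 - ths 0) * e - (ths 3 - ths 0) * (t 0 - t 1) * h2
    · linear_combination b3 + (ths 3 - ths 0) * (t 1 - t 0) * h2
  · rintro ⟨k1, k2, k3, k4, k5, k6, k7, k8⟩
    have e : t 0 - t 3 = t 1 - t 2 := by linear_combination (-1) * k3 - t 1 * h2
    have hne : t 0 ≠ t 3 := k1 0 3 (by omega) (by omega) (by omega)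
    refine ⟨k1, hI, k2, ?_, ?_, ?_, hR⟩
    · intro i hi hi3
      obtain rfl | rfl | rfl : i = 1 ∨ i = 2 ∨ i = 3 := by omega
      · rw [vt1 hne, show (1 : ℕ) - 1 = 0 from rfl]
        linear_combination k4 - (ths 1 - ths 0) * e
      · rw [vt2 h2 hne e, show (2 : ℕ) - 1 = 1 from rfl]
        linear_combination k5 + (ths 2 - ths 0) * e + (ths 2 - ths 0) * (t 3 - t 2) * h2
      · rw [vt3 h2 hne e, show (3 : ℕ) - 1 = 2 from rfl]
        linear_combination k7 - (ths 3 - ths 0) * e + (ths 3 - ths 0) * (t 0 - t 1) * h2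
    · intro i hi hi3
      obtain rfl | rfl | rfl : i = 1 ∨ i = 2 ∨ i = 3 := by omega
      · rw [vt1 hne, show (3 : ℕ) - 1 + 1 = 3 from rfl]
        linear_combination (-1) * k4 + (ths 1 - ths 0) * e
      · rw [vt2 h2 hne e, show (3 : ℕ) - 2 + 1 = 2 from rfl]
        linear_combination k6 - (ths 2 - ths 0) * (t 2 - t 0) * h2
      · rw [vt3 h2 hne e, show (3 : ℕ) - 3 + 1 = 1 from rfl]
        linear_combination k8 - (ths 3 - ths 0) * (t 1 - t 0) * h2
    · intro i hi
      obtain rfl : i = 0 := by omega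
      rw [hb0]
      simpa using e

end ORPM

open ORPM in
theorem specORP (hREC : SpecREC) : SpecORP := by
  intro K _ d th ths vp ph th' vp' ph' h2 hd hb hP
  have hb0 : bet ths = 0 := by rw [hb]; linear_combination (-1) * h2
  obtain ⟨i1, i2, i3, i4, i5, i6, i7⟩ := (hREC K d th ths vp ph hd).mp hP
  have hd3 : d = 3 := by
    by_contra hne
    have h4 : 4 ≤ d := by omega
    have e0 := i6 0 (by omega)
    have e1 := i6 1 (by omega)
    simp only [hb0, zero_add, one_mul] at e0 e1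
    refine i1 0 4 (by omega) h4 (by omega) ?_
    norm_num at e0 e1
    linear_combination e0 + e1
  subst hd3
  have hA := arr hREC h2 hb0 i2 i7
  refine ⟨rfl, hA th' vp' ph', fun hP' => ?_⟩
  obtain ⟨k1, k2, k3, k4, k5, k6, k7, k8⟩ := (hA th vp ph).mp hP
  obtain ⟨l1, l2, l3, l4, l5, l6, l7, l8⟩ := (hA th' vp' ph').mp hP'
  have hD2 : ths 2 - ths 0 ≠ 0 := sub_ne_zero.2 (i2 2 0 (by omega) (by omega) (by omega))
  have hD3 : ths 3 - ths 0 ≠ 0 := sub_ne_zero.2 (i2 3 0 (by omega) (by omega) (by omega))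
  have hs : ths 0 - ths 3 = ths 1 - ths 2 := by
    have := i7 0 (by omega)
    simpa [hb0] using this
  set D1 := ths 1 - ths 0 with hD1
  set D2 := ths 2 - ths 0 with hD2'
  set D3 := ths 3 - ths 0 with hD3'
  have hD : D3 = D1 + D2 := by
    rw [hD1, hD2', hD3']
    linear_combination (-1) * hs + (ths 0 - ths 1) * h2
  set u := th 0 - th 1 with hu
  set v := th 0 - th 2 with hv
  set u' := th' 0 - th' 1 with hu'
  set v' := th' 0 - th' 2 with hv'
  have huv : th 1 - th 2 = u + v + (-u) * 2 := by rw [hu, hv]; ring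
  have huv' : th' 1 - th' 2 = u' + v' + (-u') * 2 := by rw [hu', hv']; ring
  rw [h2, mul_zero, add_zero] at huv huv'
  rw [huv] at k4
  rw [huv'] at l4
  rw [huv, huv']
  constructor
  · intro h
    have p1 := h 1 (by omega) (by omega)
    have p2 := h 2 (by omega) (by omega)
    have p3 := h 3 (by omega) (by omega)
    rw [k4, l4] at p1
    rw [k5, k6, l5, l6] at p2
    rw [k7, k8, l7, l8, k4, l4] at p3
    have hvv : v' = v := by
      have h1 : (D2 * (v' - v)) ^ 2 = 0 := by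
        linear_combination p2 + D2 ^ 2 * v * (v - v') * h2
      have h3 : D2 * (v' - v) = 0 := by
        exact pow_eq_zero_iff (two_ne_zero) |>.mp h1
      rcases mul_eq_zero.mp h3 with h4 | h4
      · exact absurd h4 hD2
      · exact sub_eq_zero.mp h4
    refine ⟨hvv, ?_, ?_⟩
    · rw [hvv] at p1 p3
      have h5 : D3 * ((u' - u) * (D2 * (u' - u) - D1 * v)) = 0 := by
        rw [hD] at p3 ⊢
        linear_combination p3 - p1 + (D1 + D2) * (D2 * u * (u - u') - D1 * v * (u' - u) - (ph' 1 * u' - ph 1 * u) - D1 * (u' ^ 2 - u ^ 2)) * h2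
      rcases mul_eq_zero.mp h5 with h6 | h6
      · exact absurd h6 hD3
      · rcases mul_eq_zero.mp h6 with h7 | h7
        · left
          exact sub_eq_zero.mp h7
        · right
          linear_combination h7
    · linear_combination p1
  · rintro ⟨hvv, hB, hC⟩
    intro i hi hi3
    obtain rfl | rfl | rfl : i = 1 ∨ i = 2 ∨ i = 3 := by omega
    · rw [k4, l4]
      linear_combination hC
    · rw [k5, k6, l5, l6, hvv]
    · rw [k7, k8, l7, l8, k4, l4]
      rw [hvv] at hC ⊢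
      have h6 : (u' - u) * (D2 * (u' - u) - D1 * v) = 0 := by
        rcases hB with h7 | h7
        · rw [h7]; ring
        · rw [mul_eq_zero]
          right
          linear_combination h7
      rw [hD]
      linear_combination hC + (D1 + D2) * h6 - (D1 + D2) * (D2 * u * (u - u') - D1 * v * (u' - u) - (ph' 1 * u' - ph 1 * u) - D1 * (u' ^ 2 - u ^ 2)) * h2

end Pool.Agent.Lib.MP87d664.LP
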