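import Pool.Agent.Lib.MP_87d664_al.LP.Spec

/-!
# QUA: the quadratic relation of a recurrent sequence
-/

set_option autoImplicit false

namespace Pool.Agent.Lib.MP87d664.LP

theorem specQUA : SpecQUA := by
  intro K _ β γ ρ d ths hRec hγ hρ
  have key : ∀ k, k + 2 ≤ d → ths k - β * ths (k + 1) + ths (k + 2) = γ := by
    intro k
    induction k with
    | zero => intro _; exact hγ.symm
    | succ k ih =>
      intro hk
      have h1 := ih (by omega)
      have h2 := hRec k (by omega)
      show ths (k + 1) - β * ths (k + 2) + ths (k + 3) = γ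
      linear_combination h1 - h2
  have main : ∀ k, k + 1 ≤ d → (β + 2) * (ths k * ths (k + 1)) =
      (ths k + ths (k + 1)) ^ 2 - γ * (ths k + ths (k + 1)) - ρ := by
    intro k
    induction k with
    | zero =>
      intro _
      show (β + 2) * (ths 0 * ths 1) = (ths 0 + ths 1) ^ 2 - γ * (ths 0 + ths 1) - ρ
      rw [hρ]
      ring
    | succ k ih =>
      intro hk
      have h1 := ih (by omega)
      have h2 := key k (by omega)
      show (β + 2) * (ths (k + 1) * ths (k + 2)) =
        (ths (k + 1) + ths (k + 2)) ^ 2 - γ * (ths (k + 1) + ths (k + 2)) - ρ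
      linear_combination h1 - (ths (k + 2) - ths k) * h2
  intro i h1 h2
  obtain ⟨j, rfl⟩ : ∃ j, i = j + 1 := ⟨i - 1, by omega⟩
  have e : j + 1 - 1 = j := by omega
  rw [e]
  exact main j h2

end Pool.Agent.Lib.MP87d664.LP
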