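import Pool.Agent.Lib.MP_87d664_al.LP.Spec

/-!
# LP, module REC: (PA5) is the recurrence
-/

set_option autoImplicit false

namespace Pool.Agent.Lib.MP87d664.LP

theorem specREC : SpecREC := by
  intro K _ d th ths vp ph hd
  constructor
  · intro h
    obtain ⟨b, hb⟩ := h.pa5
    have hb0 := hb 2 le_rfl (by omega)
    have hbe : b = bet ths + 1 := by
      unfold bet
      rw [← hb0.2]
      simp
    refine ⟨h.pa1.1, h.pa1.2, h.pa2, h.pa3, h.pa4, ?_, ?_⟩
    · intro i hi
      have h1 := (hb (i + 2) (by omega) (by omega)).1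
      rw [show i + 2 - 2 = i by omega, show i + 2 + 1 = i + 3 by omega,
        show i + 2 - 1 = i + 1 by omega] at h1
      have h2 : th (i + 1) - th (i + 2) ≠ 0 :=
        sub_ne_zero.2 (h.pa1.1 (i + 1) (i + 2) (by omega) (by omega) (by omega))
      rw [div_eq_iff h2, hbe] at h1
      exact h1
    · intro i hi
      have h1 := (hb (i + 2) (by omega) (by omega)).2
      rw [show i + 2 - 2 = i by omega, show i + 2 + 1 = i + 3 by omega,
        show i + 2 - 1 = i + 1 by omega] at h1
      have h2 : ths (i + 1) - ths (i + 2) ≠ 0 :=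
        sub_ne_zero.2 (h.pa1.2 (i + 1) (i + 2) (by omega) (by omega) (by omega))
      rw [div_eq_iff h2, hbe] at h1
      exact h1
  · rintro ⟨h1, h2, h3, h4, h5, h6, h7⟩
    refine ⟨⟨h1, h2⟩, h3, h4, h5, bet ths + 1, ?_⟩
    intro i hi hi'
    obtain ⟨j, rfl⟩ : ∃ j, i = j + 2 := ⟨i - 2, by omega⟩
    rw [show j + 2 - 2 = j by omega, show j + 2 + 1 = j + 3 by omega,
      show j + 2 - 1 = j + 1 by omega]
    have h8 : th (j + 1) - th (j + 2) ≠ 0 :=
      sub_ne_zero.2 (h1 (j + 1) (j + 2) (by omega) (by omega) (by omega))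
    have h9 : ths (j + 1) - ths (j + 2) ≠ 0 :=
      sub_ne_zero.2 (h2 (j + 1) (j + 2) (by omega) (by omega) (by omega))
    rw [div_eq_iff h8, div_eq_iff h9]
    exact ⟨h6 j (by omega), h7 j (by omega)⟩

end Pool.Agent.Lib.MP87d664.LP
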