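import Pool.Agent.Lib.MP_87d664_al.LP.Defs

/-!
# Parameter arrays (MP_87d664_al): specification, part A (captain helper16)

THEOREM (part A). Let `K` be any field, `d ≥ 3`, `p = (θ, θ*, φ, ϕ)` a parameter array with `β ≠ -2` (`β + 1` is the
common value of (PA5)). Put `y_i = θ*_(i-1) + θ*_i`. There are unique `m, m', n` in `K` with
`φ_i = ϑ_i (m θ*_i + m' θ*_(i-1) + n)`, `ϕ_i = ϑ_i (m' θ*_i + m θ*_(i-1) + n)`. All parameter arrays `p'` with the same `θ*`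
and the same products `φ_i ϕ_i` are obtained from the triples `(m₁, m₁', n₁)` which have the same three invariants
`EqI` as `(m, m', n)` (quadratic polynomials; solved explicitly in SOL for `char K ≠ 2`), by explicit formulas (`Par`),
with the only further condition that the `θ'_i` are different; and it is enough that the products agree for three
values of `i`. (Part B treats `β = -2`; then all fields and all `d` are covered.)

Conventions: module `XXX` is the file `Pool/Agent/Lib/MP_87d664_al/LP/XXX.lean`, it imports only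
`Pool.Agent.Lib.MP_87d664_al.LP.Spec` and proves `theorem specXXX (hYYY : SpecYYY) .. : SpecXXX` (hypotheses = deps, in the
order given) in the namespace `Pool.Agent.Lib.MP87d664.LP`, own lemmas in a namespace `XXXM`.
All formulas have been checked by a computer on random examples.
-/

set_option autoImplicit false

namespace Pool.Agent.Lib.MP87d664.LP

/-- The recurrence of (PA5). -/
def Rec {K : Type} [Field K] (β : K) (d : ℕ) (t : ℕ → K) : Prop :=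
  ∀ i, i + 3 ≤ d → t i - t (i + 3) = (β + 1) * (t (i + 1) - t (i + 2))

/-- The first linear identity. -/
def L1 {K : Type} [Field K] (d : ℕ) (th ths : ℕ → K) (m m' : K) (i : ℕ) : Prop :=
  (ths i - ths 0) * (th (i - 1) - th d) =
    vt d ths i * (m * (ths i - ths 0) + m' * (ths (i - 1) - ths 1))

/-- The second linear identity. -/
def L2 {K : Type} [Field K] (d : ℕ) (th ths : ℕ → K) (m m' : K) (i : ℕ) : Prop :=
  (ths i - ths 0) * (th (d - i + 1) - th 0) =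
    vt d ths i * (m' * (ths i - ths 0) + m * (ths (i - 1) - ths 1))

/-- The linear facts on a sequence `θ*`. -/
structure Lin {K : Type} [Field K] (β : K) (d : ℕ) (ths : ℕ → K) : Prop where
  a : ∀ th : ℕ → K, Rec β d th → th 0 ≠ th d → ∀ i, i ≤ d → vt d th i = vt d ths i
  b : ∀ th : ℕ → K, Rec β d th → ∃ m m' : K, m - m' = th 0 - th d ∧
    ∀ i, 1 ≤ i → i ≤ d → L1 d th ths m m' i ∧ L2 d th ths m m' i
  c : ∀ m m' x : K, ∃ th : ℕ → K, Rec β d th ∧ th d = x ∧ th 0 - th d = m - m' ∧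
    ∀ i, 1 ≤ i → i ≤ d → L1 d th ths m m' i ∧ L2 d th ths m m' i
  nz : ∀ i, 1 ≤ i → i ≤ d → vt d ths i ≠ 0

/-! ### recurrences and closed forms -/

/-- **REC** (size 60, no deps). PROOF. In (PA5) put `i = j + 2`, `j + 3 ≤ d`. `j = 0` gives `b = bet ths + 1`. As
`t (j + 1) ≠ t (j + 2)` the quotients are equivalent to `Rec` (note `(j + 2) - 1 = j + 1`, `(j + 2) + 1 = j + 3`). -/
def SpecREC : Prop :=
  ∀ (K : Type) [Field K] (d : ℕ) (th ths vp ph : ℕ → K), 3 ≤ d →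
    (PArray d th ths vp ph ↔ Inj d th ∧ Inj d ths ∧
      (∀ i, 1 ≤ i → i ≤ d → vp i ≠ 0 ∧ ph i ≠ 0) ∧
      (∀ i, 1 ≤ i → i ≤ d → vp i = ph 1 * vt d th i + (ths i - ths 0) * (th (i - 1) - th d)) ∧
      (∀ i, 1 ≤ i → i ≤ d → ph i = vp 1 * vt d th i + (ths i - ths 0) * (th (d - i + 1) - th 0)) ∧
      Rec (bet ths) d th ∧ Rec (bet ths) d ths)

/-- **CLQ** (size 70, no deps). PROOF. `D1 = t 1 - t 0`, `D2 = t 2 - t 1`,
`b = (D2 - q⁻¹ D1) / ((q - 1) (q - q⁻¹))`, `c = (D2 - q D1) / ((q⁻¹ - 1) (q⁻¹ - q))`, `α = t 0 - b - c`: true for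
`i = 0, 1, 2`. Then induction (`t (i + 3) = t i - (β + 1) (t (i + 1) - t (i + 2))`, and
`1 - q ^ 3 = (q + q⁻¹ + 1) (q - q ^ 2)`, the same for `q⁻¹`). -/
def SpecCLQ : Prop :=
  ∀ (F : Type) [Field F] (q : F) (d : ℕ) (t : ℕ → F), q ≠ 0 → q ≠ 1 → q ≠ -1 → 2 ≤ d →
    Rec (q + q⁻¹) d t → ∃ α b c : F, ∀ i, i ≤ d → t i = α + b * q ^ i + c * q⁻¹ ^ i

/-- **CLR** (size 50, no deps). PROOF. `c = (t 2 - 2 t 1 + t 0) / 2`, `b = t 1 - t 0 - c`, `α = t 0`; induction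
(`t (i + 3) = t i - 3 (t (i + 1) - t (i + 2))`). -/
def SpecCLR : Prop :=
  ∀ (K : Type) [Field K] (d : ℕ) (t : ℕ → K), (2 : K) ≠ 0 → 2 ≤ d → Rec 2 d t →
    ∃ α b c : K, ∀ i, i ≤ d → t i = α + b * (i : K) + c * (i : K) ^ 2

/-- **LNQ** (size 200, deps CLQ). The linear facts, `β = q + q⁻¹`.
PROOF. By CLQ `ths i = α' + B q ^ i + C q⁻¹ ^ i`. `ths i - ths 0 = (q ^ i - 1) (B - C q⁻¹ ^ i)`, so `q ^ i ≠ 1` for
`1 ≤ i ≤ d`. For every `t i = α + b q ^ i + c q⁻¹ ^ i` (`i ≤ d`) with `t 0 ≠ t d`,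
`t h - t (d - h) = (q⁻¹ ^ h - q ^ h q⁻¹ ^ d) (c - b q ^ d)` and `vt d t i = G i`,
`G i = (1 - q ^ i) (q q⁻¹ ^ i - q⁻¹ ^ d) / ((1 - q) (1 - q⁻¹ ^ d))` (induction on `i`). This is (a), and (nz)
(`q q⁻¹ ^ i ≠ q⁻¹ ^ d` because `q ^ (d + 1 - i) ≠ 1`). (b): CLQ for `th`;
`m' = q (q⁻¹ ^ d - 1) (c - b q ^ (d - 1)) / (1 + q)`, `m = (q⁻¹ ^ d - 1) (b q ^ (d + 1) - c) / (1 + q)`. With
`x = q ^ i`: `th (i - 1) - th d = b (x / q - q ^ d) + c (q / x - q⁻¹ ^ d)`,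
`th (d - i + 1) - th 0 = b (q ^ d q / x - 1) + c (q⁻¹ ^ d x / q - 1)`,
`ths (i - 1) - ths 1 = (x / q - q) (B - C / x)`, `ths i - ths 0 = (x - 1) (B - C / x)`: both identities are
identities of rational functions (`field_simp`, `ring`). (c): `c = (m + m' q) / ((1 - q) (1 - q⁻¹ ^ d))`,
`b = (m + m' q⁻¹) / ((1 - q) (1 - q⁻¹ ^ d) q ^ (d - 1))`, `α` such that `th d = x`; then `m, m'` are the values of (b). -/
def SpecLNQ : Prop :=
  ∀ (F : Type) [Field F] (q : F) (d : ℕ) (ths : ℕ → F), q ≠ 0 → q ≠ 1 → q ≠ -1 → 3 ≤ d →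
    Rec (q + q⁻¹) d ths → Inj d ths → Lin (q + q⁻¹) d ths

/-- **LNR** (size 150, deps CLR). The linear facts, `β = 2`.
PROOF. By CLR `ths i = α' + B i + C i ^ 2`, `ths i - ths 0 = i (B + C i)`, so `(i : K) ≠ 0` for `1 ≤ i ≤ d`. For
`t i = α + b i + c i ^ 2` (`i ≤ d`), `t 0 ≠ t d`: `t h - t (d - h) = (2 h - d) (b + c d)` and `vt d t i = i (d - i + 1) / d`:
(a) and (nz) (`(d - i + 1 : K) ≠ 0`). (b): `m' = d (b + c (d - 1)) / 2`, `m = - d (b + c (d + 1)) / 2`: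
`(i (B + C i)) (i - 1 - d) (b + c (i - 1 + d)) = (i (d - i + 1) / d) (B + C i) (m i + m' (i - 2))`,
`(i (B + C i)) (d - i + 1) (b + c (d - i + 1)) = (i (d - i + 1) / d) (B + C i) (m' i + m (i - 2))`
(`ths (i - 1) - ths 1 = (i - 2) (B + C i)`). (c): `c = -(m + m') / d`, `b = 2 m' / d - c (d - 1)`, `α` such that
`th d = x`. -/
def SpecLNR : Prop :=
  ∀ (K : Type) [Field K] (d : ℕ) (ths : ℕ → K), (2 : K) ≠ 0 → 3 ≤ d → Rec 2 d ths → Inj d ths →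
    Lin 2 d ths

/-- **DES** (size 150, no deps). Descent from an extension field.
PROOF. `f = algebraMap K F` is injective and `f (vt d t i) = vt d (f ∘ t) i`. (a), (nz): clear. `vt d ths 1 = 1`,
`vt d ths d = 1` (the sum telescopes: `∑_{h<d} t h - ∑_{h<d} t (d - h) = t 0 - t d`; `ths 0 ≠ ths d`). (b): let `m, m'` in
`F` be given for `f ∘ th`. L1 for `i = d` and `m - m' = th 0 - th d` give
`m' ((ths (d - 1) + ths d) - (ths 0 + ths 1)) = (ths d - ths 0) (th (d - 1) - th 0)`; so `m'` and `m` are in the image of `f`.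
(c): let `F ⊇` solution be `t`. Put `th d = x`,
`th (i - 1) = x + vt d ths i (m (ths i - ths 0) + m' (ths (i - 1) - ths 1)) / (ths i - ths 0)`, `1 ≤ i ≤ d`; by L1
`f (th j) = t j` for all `j ≤ d`, and everything descends. -/
def SpecDES : Prop :=
  ∀ (K F : Type) [Field K] [Field F] [Algebra K F] (β : K) (d : ℕ) (ths : ℕ → K), 3 ≤ d →
    Inj d ths → ths (d - 1) + ths d ≠ ths 0 + ths 1 →
    Lin (algebraMap K F β) d (fun i => algebraMap K F (ths i)) → Lin β d ths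

/-- **YIN** (size 130, deps CLQ, CLR). The `y_i` are different.
PROOF. Let `i < j`. `β = 2` (then `(2 : K) ≠ 0`, because `β ≠ -2`): CLR, `y_i - y_j = 2 (i - j) (b + c (i + j - 1))`,
`ths (i - 1) - ths j = (i - 1 - j) (b + c (i + j - 1)) ≠ 0`, `ths i - ths j = (i - j) (b + c (i + j)) ≠ 0`. `β ≠ 2`: in
`F = AlgebraicClosure K` there is `q` with `q ^ 2 - β q + 1 = 0`; `q ≠ 0, 1, -1`, `β = q + q⁻¹`. CLQ for `f ∘ ths`:
`y_i - y_j = (1 + q) (q ^ i - q ^ j) (b q⁻¹ - c q⁻¹ ^ (i + j))`,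
`ths (i - 1) - ths j = (q ^ (i - 1) - q ^ j) (b - c q⁻¹ ^ (i + j - 1)) ≠ 0`, and `ths i ≠ ths j` gives `q ^ i ≠ q ^ j`. -/
def SpecYIN : Prop :=
  ∀ (K : Type) [Field K] (β : K) (d : ℕ) (ths : ℕ → K), 3 ≤ d → β ≠ -2 → Rec β d ths → Inj d ths →
    ∀ i j, 1 ≤ i → i ≤ d → 1 ≤ j → j ≤ d → i ≠ j →
      ths (i - 1) + ths i ≠ ths (j - 1) + ths j

/-- **LIN** (size 70, deps LNQ, LNR, DES, YIN). The linear facts for all `β ≠ -2`.
PROOF. `β = 2`: LNR (`(2 : K) ≠ 0`). Otherwise `F = AlgebraicClosure K`, `q` as in YIN; LNQ for `f ∘ ths`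
(`Rec`, `Inj` are preserved), DES with YIN for `i = d`, `j = 1`. -/
def SpecLIN : Prop :=
  ∀ (K : Type) [Field K] (β : K) (d : ℕ) (ths : ℕ → K), 3 ≤ d → β ≠ -2 → Rec β d ths → Inj d ths →
    Lin β d ths

/-! ### the parametrization -/

/-- **FWD** (size 70, deps REC). PROOF. REC, `Lin.b` for `th`: `m, m'`. `n = ph 1 - m' ths 1 - m ths 0`. `vt d ths 1 = 1`.
(PA3), `Lin.a`, L1: `vp i = vt i (ph 1 + m (ths i - ths 0) + m' (ths (i - 1) - ths 1)) = vt i (m ths i + m' ths (i - 1) + n)`.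
For `i = 1`: `vp 1 = m ths 1 + m' ths 0 + n`. (PA4) and L2 the same. `th_eq` is (PA3) divided by `ths i - ths 0 ≠ 0`. -/
def SpecFWD : Prop :=
  ∀ (K : Type) [Field K] (d : ℕ) (th ths vp ph : ℕ → K), 3 ≤ d → Lin (bet ths) d ths →
    PArray d th ths vp ph → ∃ m m' n : K, m - m' = th 0 - th d ∧ Par d ths th vp ph m m' n

/-- **BWD** (size 90, deps REC). PROOF. Let `t` be the sequence of `Lin.c` for `m, m', x = th d`. `vt d ths 1 = 1`, so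
`vp 1 = m ths 1 + m' ths 0 + n`, `ph 1 = m' ths 1 + m ths 0 + n`, and
`vp i - ph 1 vt i = vt i (m (ths i - ths 0) + m' (ths (i - 1) - ths 1))`; by `th_eq` and L1 `th j = t j` for all `j ≤ d`
(divide by `ths i - ths 0`). So `Rec (bet ths) d th`, L1, L2 for `th`, `th 0 ≠ th d`; `Lin.a`; (PA3), (PA4) are L1, L2; REC. -/
def SpecBWD : Prop :=
  ∀ (K : Type) [Field K] (d : ℕ) (th ths vp ph : ℕ → K) (m m' n : K), 3 ≤ d →
    Lin (bet ths) d ths → Inj d ths → Rec (bet ths) d ths → Par d ths th vp ph m m' n → Inj d th →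
    (∀ i, 1 ≤ i → i ≤ d → vp i ≠ 0 ∧ ph i ≠ 0) → PArray d th ths vp ph

/-- **UNQ** (size 50, no deps). PROOF. `vt d ths 1 = 1`. From `i = 1`: `vp 1 - ph 1 = (m - m') (ths 1 - ths 0)`, so
`m - m' = m₁ - m₁'`; let `s = m - m₁ = m' - m₁'`, `r = n - n₁`: `s (ths (i - 1) + ths i) + r = 0` for all `i` in `[1, d]` (as
`vt d ths i ≠ 0`), for `i = 1, 2`: `s = 0`, `r = 0`. -/
def SpecUNQ : Prop :=
  ∀ (K : Type) [Field K] (d : ℕ) (th ths vp ph : ℕ → K) (m m' n m₁ m₁' n₁ : K), 3 ≤ d →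
    Inj d ths → (∀ i, 1 ≤ i → i ≤ d → vt d ths i ≠ 0) → ths 0 + ths 1 ≠ ths 1 + ths 2 →
    Par d ths th vp ph m m' n → Par d ths th vp ph m₁ m₁' n₁ → m₁ = m ∧ m₁' = m' ∧ n₁ = n

/-- **QUA** (size 60, no deps). PROOF. First `ths (i - 1) - β ths i + ths (i + 1) = ths 0 - β ths 1 + ths 2` for
`1 ≤ i < d` by induction from `Rec`. Then `P i = x ^ 2 - β x y + y ^ 2 - γ (x + y)`, `x = ths (i - 1)`, `y = ths i`, is constant:
`P (i + 1) - P i = (ths (i + 1) - ths (i - 1)) (ths (i + 1) + ths (i - 1) - β ths i - γ) = 0`. So `P i = ρ`. -/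
def SpecQUA : Prop :=
  ∀ (K : Type) [Field K] (β γ ρ : K) (d : ℕ) (ths : ℕ → K), Rec β d ths →
    γ = ths 0 - β * ths 1 + ths 2 →
    ρ = ths 0 ^ 2 - β * (ths 0 * ths 1) + ths 1 ^ 2 - γ * (ths 0 + ths 1) →
    ∀ i, 1 ≤ i → i ≤ d → (β + 2) * (ths (i - 1) * ths i) =
      (ths (i - 1) + ths i) ^ 2 - γ * (ths (i - 1) + ths i) - ρ

/-- The product `φ_i ϕ_i` of the parameters `(m, m', n)`. -/
def Pr {K : Type} [Field K] (d : ℕ) (ths : ℕ → K) (m m' n : K) (i : ℕ) : K :=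
  (vt d ths i * (m * ths i + m' * ths (i - 1) + n)) * (vt d ths i * (m' * ths i + m * ths (i - 1) + n))

/-- **TRI** (size 100, deps QUA). PROOF. With `y = ths (i - 1) + ths i` and QUA,
`Pr i = vt i ^ 2 (E1 y ^ 2 + E2 y + E3)`, `E1 = m m' + (m - m') ^ 2 / (β + 2)`,
`E2 = n (m + m') - (m - m') ^ 2 γ / (β + 2)`, `E3 = n ^ 2 - (m - m') ^ 2 ρ / (β + 2)`. So `EqI` gives the equality of all
products. If the products agree for three different `i`, a quadratic polynomial has three different zeros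
`y_i` (hypothesis), so its coefficients are `0`. -/
def SpecTRI : Prop :=
  ∀ (K : Type) [Field K] (β γ ρ : K) (d : ℕ) (ths : ℕ → K) (m m' n m₁ m₁' n₁ : K), β + 2 ≠ 0 →
    2 ≤ d → Rec β d ths → γ = ths 0 - β * ths 1 + ths 2 →
    ρ = ths 0 ^ 2 - β * (ths 0 * ths 1) + ths 1 ^ 2 - γ * (ths 0 + ths 1) →
    (EqI β γ ρ m m' n m₁ m₁' n₁ → ∀ i, 1 ≤ i → i ≤ d →
      Pr d ths m₁ m₁' n₁ i = Pr d ths m m' n i) ∧
    ∀ i j k, 1 ≤ i → i ≤ d → 1 ≤ j → j ≤ d → 1 ≤ k → k ≤ d →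
      vt d ths i ≠ 0 → vt d ths j ≠ 0 → vt d ths k ≠ 0 →
      ths (i - 1) + ths i ≠ ths (j - 1) + ths j → ths (i - 1) + ths i ≠ ths (k - 1) + ths k →
      ths (j - 1) + ths j ≠ ths (k - 1) + ths k →
      Pr d ths m₁ m₁' n₁ i = Pr d ths m m' n i → Pr d ths m₁ m₁' n₁ j = Pr d ths m m' n j →
      Pr d ths m₁ m₁' n₁ k = Pr d ths m m' n k → EqI β γ ρ m m' n m₁ m₁' n₁

/-! ### the equations solved, characteristic not two -/

/-- The list of the solutions of `EqI` (characteristic not two), in terms of `A = m + m'`, `B = 2 n`, `a = m - m'`. -/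
def Lst {K : Type} [Field K] (β γ ρ A B a A₁ B₁ a₁ : K) : Prop :=
  -- (T) the known solutions
  ((a₁ = a ∨ a₁ = -a) ∧ ((A₁ = A ∧ B₁ = B) ∨ (A₁ = -A ∧ B₁ = -B))) ∨
  -- (S) `(β - 2) y ^ 2 + 4 γ y + 4 ρ` has two different zeros `e, e'` in `K`
  (β ≠ 2 ∧ ∃ e e' : K, e ≠ e' ∧ (β - 2) * (e + e') = -(4 * γ) ∧ (β - 2) * (e * e') = 4 * ρ ∧
    A₁ * e + B₁ = A * e + B ∧ A₁ * e' + B₁ = -(A * e' + B) ∧
    (β - 2) * (a₁ ^ 2 - a ^ 2) = (β + 2) * (A₁ ^ 2 - A ^ 2)) ∨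
  -- (R) `β = 2`, `γ ≠ 0`
  (β = 2 ∧ γ ≠ 0 ∧ ((A₁ = -A ∧ B₁ = B - 2 * A * ρ / γ) ∨ (A₁ = A ∧ B₁ = -(B - 2 * A * ρ / γ))) ∧
    a₁ ^ 2 - a ^ 2 = 4 * A * (A * ρ - B * γ) / γ ^ 2) ∨
  -- (D) a double zero `e`
  (β ≠ 2 ∧ ∃ e : K, (β - 2) * (e + e) = -(4 * γ) ∧ (β - 2) * (e * e) = 4 * ρ ∧
    A * e + B = 0 ∧ A₁ * e + B₁ = 0 ∧ (β - 2) * (a₁ ^ 2 - a ^ 2) = (β + 2) * (A₁ ^ 2 - A ^ 2)) ∨
  -- (K) `β = 2`, `γ = 0`
  (β = 2 ∧ γ = 0 ∧ A = 0 ∧ A₁ = 0 ∧ B₁ ^ 2 - B ^ 2 = (a₁ ^ 2 - a ^ 2) * ρ)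

/-- **SOL** (size 250, no deps). PROOF. `κ = (β - 2) / (β + 2)`, `R y = κ y ^ 2 + (4 γ y + 4 ρ) / (β + 2)`. `EqI`
(multiplied by `4`, `2 * 2`, `4`) says: (E) `A₁² - A² = (a₁² - a²) κ`, `2 (A₁ B₁ - A B) = (a₁² - a²) 4 γ / (β + 2)`,
`B₁² - B² = (a₁² - a²) 4 ρ / (β + 2)`, that is `(A₁ y + B₁)² - (A y + B)² = (a₁² - a²) R y` for all `y`.
(←) is a computation in each case. In (S): `L₁ = A₁ y + B₁`, `L = A y + B`, `L₁² - L²` vanishes at `e, e'`, as `R`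
does, so `L₁² - L² = (A₁² - A²) (y - e) (y - e')`: precisely, from `L₁ e = L e`, `L₁ e' = - L e'` one has
`B₁ = B + (A - A₁) e` and `(A₁ - A) (e' - e) = -2 (A e' + B)`; in (E) the coefficients of `y` and `1` follow.
In (R) `κ = 0`, (D): `B = - A e`, `B₁ = - A₁ e`. (→) Let `δ = a₁² - a²`, `U = A₁ - A`, `U' = A₁ + A`, `V = B₁ - B`,
`V' = B₁ + B`: `U U' = δ κ`, `U V' + U' V = δ 4 γ / (β + 2)`, `V V' = δ 4 ρ / (β + 2)`. If `δ = 0` then `a₁ = ± a`, and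
`(U y + V) (U' y + V') = 0`: one of the two factors is `0` (cases `U = 0`, ..): (T). If `δ ≠ 0`, `β ≠ 2`: `U, U' ≠ 0`;
`e = - V / U`, `e' = - V' / U'` are the zeros: `κ (e + e') = - 4 γ / (β + 2)`, `κ e e' = 4 ρ / (β + 2)`; `e ≠ e'`: (S)
(`U e + V = 0`, `U' e' + V' = 0`); `e = e'`: `2 (A e + B) = (U' - U) e + (V' - V) = 0`: (D). If `δ ≠ 0`, `β = 2` (`κ = 0`):
`U = 0` or `U' = 0`. `γ = 0`: if `U = 0` then `U' V = 0`; `V = 0` would give `δ ρ = 0`, and `ρ = 0` is excluded (hypothesis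
`hR`); so `U' = 0`, `A = A₁ = 0`: (K); the same if `U' = 0`. `γ ≠ 0`: `U = 0`: `U' V = δ γ ≠ 0`, `V V' = δ ρ`, so `V' = U' ρ / γ`,
`U' = 2 A`: `B₁ = - B + 2 A ρ / γ`, and `δ = U' V / γ = 2 A (-2 B + 2 A ρ / γ) / γ`: (R), second case. `U' = 0`:
`A₁ = - A`, `U = - 2 A`, `V = U ρ / γ`, `B₁ = B - 2 A ρ / γ`, `δ = U V' / γ = - 2 A (2 B - 2 A ρ / γ) / γ`: (R), first case. -/
def SpecSOL : Prop :=
  ∀ (K : Type) [Field K] (β γ ρ m m' n m₁ m₁' n₁ : K), (2 : K) ≠ 0 → β + 2 ≠ 0 →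
    ¬ (β = 2 ∧ γ = 0 ∧ ρ = 0) →
    (EqI β γ ρ m m' n m₁ m₁' n₁ ↔
      Lst β γ ρ (m + m') (2 * n) (m - m') (m₁ + m₁') (2 * n₁) (m₁ - m₁'))

/-- **FNA** (captain): part A of the theorem. -/
def SpecFNA : Prop :=
  ∀ (K : Type) [Field K] (d : ℕ) (th ths vp ph : ℕ → K), 3 ≤ d → PArray d th ths vp ph →
    bet ths ≠ -2 →
    ∃ m m' n : K, (∀ a a' c, Par d ths th vp ph a a' c ↔ a = m ∧ a' = m' ∧ c = n) ∧
      (∀ th' vp' ph' : ℕ → K, Sol d ths vp ph th' vp' ph' ↔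
        Inj d th' ∧ ∃ m₁ m₁' n₁ : K, Par d ths th' vp' ph' m₁ m₁' n₁ ∧
          EqI (bet ths) (gam ths) (rho ths) m m' n m₁ m₁' n₁) ∧
      (∀ th' vp' ph' : ℕ → K, PArray d th' ths vp' ph' →
        (∃ i j k, 1 ≤ i ∧ i < j ∧ j < k ∧ k ≤ d ∧ vp' i * ph' i = vp i * ph i ∧
          vp' j * ph' j = vp j * ph j ∧ vp' k * ph' k = vp k * ph k) →
        Sol d ths vp ph th' vp' ph') ∧
      ((2 : K) ≠ 0 → ∀ m₁ m₁' n₁ : K, EqI (bet ths) (gam ths) (rho ths) m m' n m₁ m₁' n₁ ↔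
        Lst (bet ths) (gam ths) (rho ths) (m + m') (2 * n) (m - m') (m₁ + m₁') (2 * n₁) (m₁ - m₁'))

end Pool.Agent.Lib.MP87d664.LP
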