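import Pool.Agent.Lib.MP_87d664_al.LP.Spec

/-!
# Parameter arrays (MP_87d664_al): specification, part B (captain helper16)

`β = -2` (Bannai/Ito type, `d` even or odd; characteristic two, `d = 3`) and `d = 1, 2`. Conventions as in `Spec.lean`
(import `Pool.Agent.Lib.MP_87d664_al.LP.SpecB`). All formulas have been checked by a computer on random examples.
-/

set_option autoImplicit false

namespace Pool.Agent.Lib.MP87d664.LP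

/-- The parametrization for `β = -2`, `d` odd; `w_i = (θ*_i - θ*_(i-1))²`. -/
structure Par2 {K : Type} [Field K] (d : ℕ) (ths th vp ph : ℕ → K) (a e u : K) : Prop where
  od : ∀ i, 1 ≤ i → i ≤ d → Odd i →
    2 * vp i = u - e * (ths i - ths (i - 1)) ^ 2 + a * (ths i - ths (i - 1)) ∧
    2 * ph i = u - e * (ths i - ths (i - 1)) ^ 2 - a * (ths i - ths (i - 1))
  ev : ∀ i, 1 ≤ i → i ≤ d → Even i →
    vp i = 2 * e * ((ths i - ths 0) * (ths (i - 1) - ths d)) ∧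
    ph i = 2 * e * ((ths i - ths 0) * (ths (i - 1) - ths d))
  th_eq : ∀ i, 1 ≤ i → i ≤ d → th (i - 1) = th d + (vp i - ph 1 * vt d ths i) / (ths i - ths 0)

/-- The solutions for `β = -2`, `d` even: `a₁ = ± a`, and the values of `A y + B` at `y = θ*_0 + θ*_1` and at
`y = θ*_1 + θ*_2` agree up to (independent) signs. -/
def Lse {K : Type} [Field K] (ths : ℕ → K) (A B a A₁ B₁ a₁ : K) : Prop :=
  (a₁ = a ∨ a₁ = -a) ∧
  (A₁ * (ths 0 + ths 1) + B₁ = A * (ths 0 + ths 1) + B ∨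
    A₁ * (ths 0 + ths 1) + B₁ = -(A * (ths 0 + ths 1) + B)) ∧
  (A₁ * (ths 1 + ths 2) + B₁ = A * (ths 1 + ths 2) + B ∨
    A₁ * (ths 1 + ths 2) + B₁ = -(A * (ths 1 + ths 2) + B))

/-- The solutions for `β = -2`, `d` odd. -/
def Lso {K : Type} [Field K] (a e u a₁ e₁ u₁ : K) : Prop :=
  (((e₁ = e ∧ u₁ = u) ∨ (e₁ = -e ∧ u₁ = -u)) ∧ (a₁ = a ∨ a₁ = -a)) ∨
  (((e₁ = e ∧ u₁ = -u) ∨ (e₁ = -e ∧ u₁ = u)) ∧ a₁ ^ 2 = a ^ 2 + 4 * (u * e))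

/-- **CLB** (size 50, no deps). PROOF. `c = (t 2 - t 0) / 2`, `b = (t 0 - t 1 - c) / 2`, `α = t 0 - b`; induction
(`t (i + 3) = t i + t (i + 1) - t (i + 2)`). -/
def SpecCLB : Prop :=
  ∀ (K : Type) [Field K] (d : ℕ) (t : ℕ → K), (2 : K) ≠ 0 → 2 ≤ d → Rec (-2) d t →
    ∃ α b c : K, ∀ i, i ≤ d → t i = α + (-1) ^ i * (b + c * (i : K))

/-- **LNB** (size 200, deps CLB). The linear facts, `β = -2`, `d` even.
PROOF. CLB: `ths i = α' + (-1) ^ i (B + C i)`; `ths i - ths 0 = C i` (`i` even), `-(2 B + C i)` (`i` odd);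
`ths (i - 1) - ths 1 = - C (i - 2)` (`i` even), `2 B + C i` (`i` odd). For `t i = α + (-1) ^ i (b + c i)`, `t 0 ≠ t d`:
`t h - t (d - h) = (-1) ^ h c (2 h - d)`, `t 0 - t d = - c d`, `vt d t i = i / d` (`i` even), `(d - i + 1) / d` (`i` odd):
(a), (nz) (`(i : K) ≠ 0` for even `i` in `[2, d]`, as `ths i ≠ ths 0`). (b): `m' = - d (2 b + c (d - 1)) / 2`,
`m = - d (2 b + c (d + 1)) / 2`. L1: `i` even: `C i (-(2 b + c (i - 1 + d))) = (i / d) (m C i - m' C (i - 2))`; `i` odd: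
`c (d - i + 1) (2 B + C i) = ((d - i + 1) / d) (m' - m) (2 B + C i)`. L2: `i` even:
`- C i (2 b + c (d - i + 1)) = (i / d) (m' C i - m C (i - 2))`; `i` odd:
`-(2 B + C i) c (d - i + 1) = ((d - i + 1) / d) (m - m') (2 B + C i)`. (c): `c = -(m - m') / d`,
`b = - m' / d - c (d - 1) / 2`, `α` such that `th d = x`. -/
def SpecLNB : Prop :=
  ∀ (K : Type) [Field K] (d : ℕ) (ths : ℕ → K), (2 : K) ≠ 0 → 3 ≤ d → Even d → Rec (-2) d ths →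
    Inj d ths → Lin (-2) d ths

/-- **BSE** (size 150, deps CLB). The products for `β = -2`, `d` even.
PROOF. With `x = ths (i - 1)`, `z = ths i`, `y = x + z`, `w = (z - x) ^ 2`, `A = m + m'`, `B = 2 n`, `a = m - m'`:
`4 Pr i = vt i ^ 2 ((A y + B) ^ 2 - a ^ 2 w)`. By CLB `y_i = ths 0 + ths 1` for odd `i`, `ths 1 + ths 2` for even `i`.
(→) `i = 1` and `i = 3`: `(a₁² - a²) (w_1 - w_3) = 0`, and `w_1 - w_3 = - 8 C (2 B' + 3 C) ≠ 0`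
(`ths i = α' + (-1) ^ i (B' + C i)`, `ths 2 - ths 0 = 2 C`, `ths 2 - ths 1 = 2 B' + 3 C`). So `a₁² = a²`, and `i = 1`,
`i = 2` give the squares of `A y + B`. (←) clear. -/
def SpecBSE : Prop :=
  ∀ (K : Type) [Field K] (d : ℕ) (ths : ℕ → K) (m m' n m₁ m₁' n₁ : K), (2 : K) ≠ 0 → 3 ≤ d →
    Rec (-2) d ths → Inj d ths → (∀ i, 1 ≤ i → i ≤ d → vt d ths i ≠ 0) →
    (Lse ths (m + m') (2 * n) (m - m') (m₁ + m₁') (2 * n₁) (m₁ - m₁') →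
      ∀ i, 1 ≤ i → i ≤ d → Pr d ths m₁ m₁' n₁ i = Pr d ths m m' n i) ∧
    (Pr d ths m₁ m₁' n₁ 1 = Pr d ths m m' n 1 → Pr d ths m₁ m₁' n₁ 2 = Pr d ths m m' n 2 →
      Pr d ths m₁ m₁' n₁ 3 = Pr d ths m m' n 3 →
      Lse ths (m + m') (2 * n) (m - m') (m₁ + m₁') (2 * n₁) (m₁ - m₁'))

/-- **BOV** (size 70, deps CLB). PROOF. CLB: `t h - t (d - h) = (-1) ^ h (t 0 - t d)` for `d` odd. -/
def SpecBOV : Prop :=
  ∀ (K : Type) [Field K] (d : ℕ) (t : ℕ → K), (2 : K) ≠ 0 → 3 ≤ d → Odd d → Rec (-2) d t →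
    t 0 ≠ t d → ∀ i, i ≤ d → vt d t i = if Even i then 0 else 1

/-- **BOF** (size 130, deps REC, CLB, BOV). `β = -2`, `d` odd, forward.
PROOF. REC. CLB for `ths` (`α', B, C`; `C ≠ 0` as `ths 2 ≠ ths 0`) and for `th` (`α, b, c`). `e = c / (2 C)`,
`a = th 0 - th d = 2 b + c d`, `u = vp 1 + ph 1 + e (ths 1 - ths 0) ^ 2`. `i` even: (PA3), (PA4) with `vt = 0`:
`ths i - ths 0 = C i`, `th (i - 1) - th d = th (d - i + 1) - th 0 = c (d - i + 1)`, `ths (i - 1) - ths d = C (d - i + 1)`. `i`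
odd: (PA3), (PA4) with `vt = 1`; `ths i - ths 0 = -(2 B + C i)`, `th (i - 1) - th d = 2 b + c (i - 1 + d)`,
`th (d - i + 1) - th 0 = -(2 b + c (d - i + 1))`, `ths i - ths (i - 1) = -(2 B + C (2 i - 1))`,
`w_i - w_1 = 4 C (i - 1) (2 B + C i)`; (PA3) for `i = 1`: `vp 1 - ph 1 = a (ths 1 - ths 0)`. `th_eq` is (PA3). -/
def SpecBOF : Prop :=
  ∀ (K : Type) [Field K] (d : ℕ) (th ths vp ph : ℕ → K), (2 : K) ≠ 0 → 3 ≤ d → Odd d →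
    bet ths = -2 → PArray d th ths vp ph → ∃ e u : K, Par2 d ths th vp ph (th 0 - th d) e u

/-- **BOB** (size 160, deps REC, CLB, BOV). `β = -2`, `d` odd, backward.
PROOF. CLB for `ths`. `c = 2 e C`, `b = (a - c d) / 2`, `t j = th d + (-1) ^ j (b + c j) + (b + c d)`. By BOV for `ths` and
`th_eq`, `th j = t j` for all `j ≤ d`: for `i` even `th (i - 1) - th d = vp i / (C i) = 2 e C (d - i + 1) = c (d - i + 1)`; for
`i` odd `2 (vp i - ph 1) = - e (w_i - w_1) + a ((ths i - ths (i - 1)) + (ths 1 - ths 0)) = -(2 B + C i) (4 e C (i - 1) + 2 a)`,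
`ths i - ths 0 = -(2 B + C i)`, so `th (i - 1) - th d = c (i - 1) + a`. So `Rec (-2) d th`, `th 0 - th d = a`; BOV for `th`;
(PA3) is `th_eq`; (PA4): `i` even: `(ths i - ths 0) (th (d - i + 1) - th 0) = C i c (d - i + 1)`; `i` odd:
`2 (ph i - vp 1) = (2 B + C i) (2 a - 2 c (i - 1))` and
`(ths i - ths 0) (th (d - i + 1) - th 0) = (2 B + C i) (2 b + c (d - i + 1))`. REC (`bet ths = -2`). -/
def SpecBOB : Prop :=
  ∀ (K : Type) [Field K] (d : ℕ) (th ths vp ph : ℕ → K) (a e u : K), (2 : K) ≠ 0 → 3 ≤ d → Odd d →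
    bet ths = -2 → Inj d ths → Rec (-2) d ths → Par2 d ths th vp ph a e u → Inj d th →
    (∀ i, 1 ≤ i → i ≤ d → vp i ≠ 0 ∧ ph i ≠ 0) → PArray d th ths vp ph

/-- **BOS** (size 120, deps CLB). The products for `β = -2`, `d` odd.
PROOF. `i` odd: `4 vp i ph i = (u - e w_i)² - a² w_i = e² w_i² - (2 u e + a²) w_i + u²`; `i` even:
`vp i ph i = 4 e² (..)²` with `(ths i - ths 0) (ths (i - 1) - ths d) ≠ 0`. (→) `i = 2`: `e₁² = e²`. `i = 1, 3`, `w_1 ≠ w_3`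
(see BSE): `2 u₁ e₁ + a₁² = 2 u e + a²` and `u₁² = u²`. So `e₁ = ± e`, `u₁ = ± u`: `Lso`. (←) clear. -/
def SpecBOS : Prop :=
  ∀ (K : Type) [Field K] (d : ℕ) (ths th vp ph th' vp' ph' : ℕ → K) (a e u a₁ e₁ u₁ : K),
    (2 : K) ≠ 0 → 3 ≤ d → Odd d → Rec (-2) d ths → Inj d ths → Par2 d ths th vp ph a e u →
    Par2 d ths th' vp' ph' a₁ e₁ u₁ →
    (Lso a e u a₁ e₁ u₁ → ∀ i, 1 ≤ i → i ≤ d → vp' i * ph' i = vp i * ph i) ∧
    (vp' 1 * ph' 1 = vp 1 * ph 1 → vp' 2 * ph' 2 = vp 2 * ph 2 → vp' 3 * ph' 3 = vp 3 * ph 3 →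
      Lso a e u a₁ e₁ u₁)

/-- **BOU** (size 60, deps CLB). Uniqueness of the parameters.
PROOF. `i = 1`: `2 (vp 1 - ph 1) = 2 a (ths 1 - ths 0)`, so `a = a₁`; `i = 2`: `e = e₁`; `i = 1`: `u = u₁`. (`ths 1 ≠ ths d`,
`(2 : K) ≠ 0`.) -/
def SpecBOU : Prop :=
  ∀ (K : Type) [Field K] (d : ℕ) (ths th vp ph : ℕ → K) (a e u a₁ e₁ u₁ : K),
    (2 : K) ≠ 0 → 3 ≤ d → Inj d ths → Par2 d ths th vp ph a e u → Par2 d ths th vp ph a₁ e₁ u₁ →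
    a₁ = a ∧ e₁ = e ∧ u₁ = u

/-- **ORP** (size 180, deps REC). Characteristic two, `β = 0`.
PROOF. REC: `Rec 0`: `t (i + 3) = t i + t (i + 1) + t (i + 2)` (characteristic two, `bet ths = -2 = 0`), so `t 4 = t 0`
if `d ≥ 4`; so `d = 3`. `vt 3 t 1 = 1`, `vt 3 t 2 = 0`, `vt 3 t 3 = 1` (for `t = th`; `t 0 + t 3 = t 1 + t 2 ≠ 0`). Put
`D i = ths i - ths 0` (`D 3 = D 1 + D 2`), `u = th 0 + th 1`, `v = th 0 + th 2`, `th 0 + th 3 = u + v`, `w = ph 1`. (PA3), (PA4)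
say: `vp 1 = w + D 1 (u + v)`, `vp 2 = ph 2 = D 2 v`, `vp 3 = w + D 3 u`, `ph 3 = w + D 3 u + D 1 (u + v)`. So
`vp 1 ph 1 = w (w + D 1 (u + v))`, `vp 2 ph 2 = (D 2 v)²`, `vp 3 ph 3 - vp 1 ph 1 = D 3 u (D 2 u + D 1 v)`. Products
equal iff `v' = v`, `(u' + u) (D 2 (u' + u) + D 1 v) = 0`, `w' (w' + D 1 (u' + v)) = w (w + D 1 (u + v))`. -/
def SpecORP : Prop :=
  ∀ (K : Type) [Field K] (d : ℕ) (th ths vp ph th' vp' ph' : ℕ → K), (2 : K) = 0 → 3 ≤ d →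
    bet ths = -2 → PArray d th ths vp ph →
    d = 3 ∧ (PArray d th' ths vp' ph' ↔ Inj 3 th' ∧ (∀ i, 1 ≤ i → i ≤ 3 → vp' i ≠ 0 ∧ ph' i ≠ 0) ∧
      th' 3 = th' 0 + th' 1 + th' 2 ∧ vp' 1 = ph' 1 + (ths 1 - ths 0) * (th' 1 - th' 2) ∧
      vp' 2 = (ths 2 - ths 0) * (th' 0 - th' 2) ∧ ph' 2 = (ths 2 - ths 0) * (th' 0 - th' 2) ∧
      vp' 3 = ph' 1 + (ths 3 - ths 0) * (th' 0 - th' 1) ∧
      ph' 3 = vp' 1 + (ths 3 - ths 0) * (th' 0 - th' 1)) ∧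
    (PArray d th' ths vp' ph' →
      ((∀ i, 1 ≤ i → i ≤ d → vp' i * ph' i = vp i * ph i) ↔
        th' 0 - th' 2 = th 0 - th 2 ∧
        (th' 0 - th' 1 = th 0 - th 1 ∨
          (ths 2 - ths 0) * (th' 0 - th' 1) =
            (ths 2 - ths 0) * (th 0 - th 1) + (ths 1 - ths 0) * (th 0 - th 2)) ∧
        ph' 1 * (ph' 1 + (ths 1 - ths 0) * (th' 1 - th' 2)) =
          ph 1 * (ph 1 + (ths 1 - ths 0) * (th 1 - th 2))))

/-- **SMA** (size 90, no deps). The diameters `0`, `1`, `2`.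
PROOF. Unfold the definition; `vt 1 t 1 = 1` for `t 0 ≠ t 1`, `vt 2 t 1 = vt 2 t 2 = 1` for `t 0 ≠ t 2`; (PA5) is empty
(take `b = 0`). -/
def SpecSMA : Prop :=
  ∀ (K : Type) [Field K] (th ths vp ph : ℕ → K),
    PArray 0 th ths vp ph ∧
    (Inj 1 ths → (PArray 1 th ths vp ph ↔ vp 1 ≠ 0 ∧ ph 1 ≠ 0 ∧ vp 1 ≠ ph 1 ∧
      th 0 - th 1 = (vp 1 - ph 1) / (ths 1 - ths 0))) ∧
    (Inj 2 ths → (PArray 2 th ths vp ph ↔ Inj 2 th ∧ vp 1 ≠ 0 ∧ ph 1 ≠ 0 ∧ vp 2 ≠ 0 ∧ ph 2 ≠ 0 ∧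
      th 0 - th 2 = (vp 1 - ph 1) / (ths 1 - ths 0) ∧
      th 1 - th 2 = (vp 2 - ph 1) / (ths 2 - ths 0) ∧
      (vp 2 - ph 2) / (ths 2 - ths 1) = (vp 1 - ph 1) / (ths 1 - ths 0)))

end Pool.Agent.Lib.MP87d664.LP
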