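import Pool.Agent.Lib.MP_87d664_al.LP.SpecB

/-!
# Parameter arrays (MP_87d664_al): specification, part C (captain helper16; (4) of helper27)

The equations solved in every characteristic, the count, and the final theorems for `β = -2`.
-/

set_option autoImplicit false

namespace Pool.Agent.Lib.MP87d664.LP

/-- The invariants without denominators. -/
def EqJ {K : Type} [Field K] (β γ ρ m m' n m₁ m₁' n₁ : K) : Prop :=
  m₁ ^ 2 + β * (m₁ * m₁') + m₁' ^ 2 = m ^ 2 + β * (m * m') + m' ^ 2 ∧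
  n₁ * (m₁ + m₁') + γ * (m₁ * m₁') = n * (m + m') + γ * (m * m') ∧
  n₁ ^ 2 + ρ * (m₁ * m₁') = n ^ 2 + ρ * (m * m')

/-- The four known solutions. -/
def Kn {K : Type} [Field K] (m m' n m₁ m₁' n₁ : K) : Prop :=
  (m₁ = m ∧ m₁' = m' ∧ n₁ = n) ∨ (m₁ = m' ∧ m₁' = m ∧ n₁ = n) ∨
  (m₁ = -m ∧ m₁' = -m' ∧ n₁ = -n) ∨ (m₁ = -m' ∧ m₁' = -m ∧ n₁ = -n)

/-- `Δ`. -/
def Del {K : Type} [Field K] (β γ ρ : K) : K := (β - 2) * ρ - γ ^ 2

/-- `L`. -/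
def LL {K : Type} [Field K] (β γ ρ m m' n : K) : K :=
  ρ * (m ^ 2 + β * (m * m') + m' ^ 2) + (β - 2) * (n ^ 2 + ρ * (m * m')) -
    2 * γ * (n * (m + m') + γ * (m * m'))

/-- **EQJ** (size 40, no deps). PROOF. With `s = β + 2`: `EqI` says `E1, E2, E3` agree,
`E1 = (m² + β m m' + m'²) / s`, `E2 = (n (m + m') + γ m m') - γ E1`, `E3 = (n² + ρ m m') - ρ E1`. -/
def SpecEQJ : Prop :=
  ∀ (K : Type) [Field K] (β γ ρ m m' n m₁ m₁' n₁ : K), β + 2 ≠ 0 →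
    (EqI β γ ρ m m' n m₁ m₁' n₁ ↔ EqJ β γ ρ m m' n m₁ m₁' n₁)

/-- **SL2** (size 100, no deps). The equations solved, every characteristic.
PROOF. `P = m + m'`, `N = m m'`, `I1 = P² + (β - 2) N`, `I2 = n P + γ N`, `I3 = n² + ρ N`; the same with index `1`.
(→) `(n P)² = n² P²`: `(I2 - γ N)² = (I3 - ρ N) (I1 - (β - 2) N)`, and the same for `N₁`. The difference is
`(N₁ - N) (Δ (N₁ + N) - L) = 0`. If `N₁ = N`: `P₁² = P²`, `n₁² = n²`, `n₁ P₁ = n P`; so `P₁ = ± P`, `n₁ = ± n`, and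
`(P₁, n₁) = ± (P, n)`: if `P₁ = P`, `n₁ = -n` then `2 n P = 0`, so `2 n = 0` (`n₁ = n`) or `P = 0` (`(P₁, n₁) = -(P, n)`);
the same for `P₁ = -P`, `n₁ = n`. And `(m₁ - m) (m₁ - m') = m₁² - P m₁ + N`, which is `0` if `P₁ = P` (`m₁² - P₁ m₁ + N₁ = 0`);
`m₁' = P₁ - m₁`. (←) `Kn`: computation. Otherwise the three equations are `EqJ`. -/
def SpecSL2 : Prop :=
  ∀ (K : Type) [Field K] (β γ ρ m m' n m₁ m₁' n₁ : K),
    (EqJ β γ ρ m m' n m₁ m₁' n₁ ↔ Kn m m' n m₁ m₁' n₁ ∨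
      (Del β γ ρ * (m * m' + m₁ * m₁') = LL β γ ρ m m' n ∧
        (m₁ + m₁') ^ 2 = m ^ 2 + β * (m * m') + m' ^ 2 - (β - 2) * (m₁ * m₁') ∧
        n₁ * (m₁ + m₁') = n * (m + m') + γ * (m * m') - γ * (m₁ * m₁') ∧
        n₁ ^ 2 = n ^ 2 + ρ * (m * m') - ρ * (m₁ * m₁')))

/-- **CN8** (size 120, deps SL2). The count.
PROOF. If `Δ = 0`, `L ≠ 0`: only `Kn`, at most `4` triples. If `Δ ≠ 0`: `N₁ = L / Δ - N` in the second case; all its
triples `t = (m₁, m₁', n₁)` have the same `N₁`, `P₁²`, `n₁²`, `n₁ P₁`; by SL2's argument (or by SL2 itself applied to two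
of them: they satisfy `EqJ` with respect to each other, and have the same `N₁`; use the proof of the case `N₁ = N`) they
are in the list `Kn` of one of them: at most `4`. Together at most `8`. -/
def SpecCN8 : Prop :=
  ∀ (K : Type) [Field K] (β γ ρ m m' n : K),
    (Del β γ ρ = 0 → LL β γ ρ m m' n ≠ 0 → ∀ m₁ m₁' n₁ : K, EqJ β γ ρ m m' n m₁ m₁' n₁ ↔
      Kn m m' n m₁ m₁' n₁) ∧
    (¬ (Del β γ ρ = 0 ∧ LL β γ ρ m m' n = 0) →
      {t : K × K × K | EqJ β γ ρ m m' n t.1 t.2.1 t.2.2}.Finite ∧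
      {t : K × K × K | EqJ β γ ρ m m' n t.1 t.2.1 t.2.2}.ncard ≤ 8)

/-- **FNE** (size 110, deps REC, LNB, FWD, BWD, UNQ, BSE). `β = -2`, `d` even.
PROOF. As `LP/FNA.lean` (on main): LNB gives `Lin (bet ths) d ths`. Products: `Pr`; BSE with `i = 1, 2, 3`. The
hypothesis `ths 0 + ths 1 ≠ ths 1 + ths 2` of UNQ: `ths 0 ≠ ths 2`. -/
def SpecFNE : Prop :=
  ∀ (K : Type) [Field K] (d : ℕ) (th ths vp ph : ℕ → K), (2 : K) ≠ 0 → 3 ≤ d → Even d →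
    PArray d th ths vp ph → bet ths = -2 →
    ∃ m m' n : K, (∀ a a' c, Par d ths th vp ph a a' c ↔ a = m ∧ a' = m' ∧ c = n) ∧
      (∀ th' vp' ph' : ℕ → K, Sol d ths vp ph th' vp' ph' ↔
        Inj d th' ∧ ∃ m₁ m₁' n₁ : K, Par d ths th' vp' ph' m₁ m₁' n₁ ∧
          Lse ths (m + m') (2 * n) (m - m') (m₁ + m₁') (2 * n₁) (m₁ - m₁'))

/-- **FNO** (size 90, deps REC, BOF, BOB, BOS, BOU). `β = -2`, `d` odd, characteristic not two.
PROOF. As FNE with `Par2`. -/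
def SpecFNO : Prop :=
  ∀ (K : Type) [Field K] (d : ℕ) (th ths vp ph : ℕ → K), (2 : K) ≠ 0 → 3 ≤ d → Odd d →
    PArray d th ths vp ph → bet ths = -2 →
    ∃ a e u : K, (∀ a' e' u', Par2 d ths th vp ph a' e' u' ↔ a' = a ∧ e' = e ∧ u' = u) ∧
      (∀ th' vp' ph' : ℕ → K, Sol d ths vp ph th' vp' ph' ↔
        Inj d th' ∧ ∃ a₁ e₁ u₁ : K, Par2 d ths th' vp' ph' a₁ e₁ u₁ ∧ Lso a e u a₁ e₁ u₁)

/-- **THR** (size 110, deps FNA, REC, LNB, FWD, BSE, BOF, BOS, ORP). The first three products are enough.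
PROOF. `bet ths ≠ -2`: the third part of FNA. Otherwise `(2 : K) ≠ 0`, `d` even: `Par` for both arrays (FWD with LNB),
BSE; `d` odd: `Par2` for both (BOF), BOS; `(2 : K) = 0`: `d = 3` by ORP. -/
def SpecTHR : Prop :=
  ∀ (K : Type) [Field K] (d : ℕ) (th ths vp ph th' vp' ph' : ℕ → K), 3 ≤ d →
    PArray d th ths vp ph → PArray d th' ths vp' ph' →
    vp' 1 * ph' 1 = vp 1 * ph 1 → vp' 2 * ph' 2 = vp 2 * ph 2 → vp' 3 * ph' 3 = vp 3 * ph 3 →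
    ∀ i, 1 ≤ i → i ≤ d → vp' i * ph' i = vp i * ph i

end Pool.Agent.Lib.MP87d664.LP
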